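import Pool.Agent.R846.UL.DetI
import Pool.Agent.R320.CL.Asm
import Pool.Agent.Y743.LR.NT5

/-! # The exceptional sets of indices -/

set_option autoImplicit false

open Filter Topology MeasureTheory Set Polynomial

namespace Pool.Agent.R846.UL

open SG (ord NZ)
open Pool.Agent.Y743.LR
open Pool.Agent.R320.CL (SS SS_ge SS_le NZ_NN normal_unif Ss)

/-- the number of elements of a set of indices up to `N` -/
noncomputable def cn (N : ℕ) (E : Set ℕ) : ℝ :=
  (({n : ℕ | 1 ≤ n ∧ n ≤ N ∧ n ∈ E} : Set ℕ).ncard : ℝ)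

lemma cn_nonneg (N : ℕ) (E : Set ℕ) : 0 ≤ cn N E := Nat.cast_nonneg _

lemma cn_fin (N : ℕ) (E : Set ℕ) : ({n : ℕ | 1 ≤ n ∧ n ≤ N ∧ n ∈ E} : Set ℕ).Finite :=
  (Set.finite_Icc 1 N).subset fun _ hn => ⟨hn.1, hn.2.1⟩

lemma cn_eq (N : ℕ) (P : ℕ → Prop) [DecidablePred P] :
    cn N {n | P n} = (((Finset.Icc 1 N).filter P).card : ℝ) := by
  unfold cn
  rw [← Set.ncard_coe_finset]
  congr 2
  ext n
  simp only [Set.mem_ofPred_eq, Finset.coe_filter, Finset.mem_Icc]
  tauto

lemma cn_mono {N : ℕ} {E F : Set ℕ} (h : ∀ n, 1 ≤ n → n ≤ N → n ∈ E → n ∈ F) :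
    cn N E ≤ cn N F := by
  unfold cn
  have : ({n : ℕ | 1 ≤ n ∧ n ≤ N ∧ n ∈ E} : Set ℕ) ⊆ {n : ℕ | 1 ≤ n ∧ n ≤ N ∧ n ∈ F} :=
    fun n hn => ⟨hn.1, hn.2.1, h n hn.1 hn.2.1 hn.2.2⟩
  exact_mod_cast Set.ncard_le_ncard this (cn_fin N F)

lemma cn_union (N : ℕ) (E F : Set ℕ) : cn N (E ∪ F) ≤ cn N E + cn N F := by
  unfold cn
  have : ({n : ℕ | 1 ≤ n ∧ n ≤ N ∧ n ∈ E ∪ F} : Set ℕ) ⊆
      {n : ℕ | 1 ≤ n ∧ n ≤ N ∧ n ∈ E} ∪ {n : ℕ | 1 ≤ n ∧ n ≤ N ∧ n ∈ F} := by
    rintro n ⟨h1, h2, h3 | h3⟩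
    · exact Or.inl ⟨h1, h2, h3⟩
    · exact Or.inr ⟨h1, h2, h3⟩
  exact_mod_cast (Set.ncard_le_ncard this ((cn_fin N E).union (cn_fin N F))).trans
    (Set.ncard_union_le _ _)

lemma cn_empty (N : ℕ) : cn N ∅ = 0 := by
  unfold cn
  simp

lemma cn_biUnion (N : ℕ) {ι : Type*} (s : Finset ι) (E : ι → Set ℕ) :
    cn N (⋃ j ∈ s, E j) ≤ ∑ j ∈ s, cn N (E j) := by
  classical
  induction s using Finset.induction_on with
  | empty => simp [cn_empty]
  | insert a s ha ih =>
    rw [Finset.set_biUnion_insert, Finset.sum_insert ha]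
    exact (cn_union N _ _).trans (add_le_add le_rfl ih)

lemma cn_lt (N n0 : ℕ) : cn N {n | n < n0} ≤ n0 := by
  unfold cn
  have : ({n : ℕ | 1 ≤ n ∧ n ≤ N ∧ n ∈ {n | n < n0}} : Set ℕ) ⊆ (Finset.range n0 : Set ℕ) := by
    rintro n ⟨_, _, h⟩
    rw [Finset.coe_range]
    exact h
  have h := Set.ncard_le_ncard this (Finset.finite_toSet _)
  rw [Set.ncard_coe_finset, Finset.card_range] at h
  exact_mod_cast h

/-- the unfolded ordinates -/
noncomputable def yy (n : ℕ) : ℝ := SS n 0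

lemma dif_yy (n : ℕ) : dif yy n = Pool.Agent.R320.CL.dl n := by
  unfold dif yy SS
  rw [Finset.sum_range_succ, zero_add]
  ring

lemma yy_SS (n r : ℕ) : yy (n + r) - yy n = SS r n := by
  rw [← sum_dif]
  unfold SS
  exact Finset.sum_congr rfl fun i _ => dif_yy _

/-- size of the ordinates -/
lemma ordlog : ∃ n0 : ℕ, 1 ≤ n0 ∧ ∀ n : ℕ, n0 ≤ n →
    ord n * Real.log (ord n) / (2 * Real.pi) ≤ 8 * n := by
  obtain ⟨C, T0, hC, hT0, h⟩ := Pool.Agent.W54.TCF.NT_asymp
  have hpi := Real.pi_gt_three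
  obtain ⟨x1, hx1⟩ := (Real.tendsto_log_atTop.eventually_ge_atTop
    (4 * Real.pi * C)).exists_forall_of_atTop
  obtain ⟨n0, hn0⟩ := (ord_tendsto.eventually_ge_atTop
    (2 * max (max T0 x1) 4)).exists_forall_of_atTop
  refine ⟨max n0 1, le_max_right _ _, fun n hn => ?_⟩
  have hn1 : 1 ≤ n := (le_max_right _ _).trans hn
  have hx := hn0 n ((le_max_left _ _).trans hn)
  set x := ord n with hxd
  have hx2 : max (max T0 x1) 4 ≤ x / 2 := by linarith
  have hxT0 : T0 ≤ x / 2 := ((le_max_left _ _).trans (le_max_left _ _)).trans hx2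
  have hxx1 : x1 ≤ x / 2 := ((le_max_right _ _).trans (le_max_left _ _)).trans hx2
  have hx4 : 4 ≤ x / 2 := (le_max_right _ _).trans hx2
  have h1 := hx1 _ hxx1
  have h2 := (abs_le.mp (h _ hxT0)).1
  rw [← NZ_NN] at h2
  have h3 : NZ (x / 2) < n := by
    by_contra hge
    push Not at hge
    have := (SG.ord_le_iff hn1 _).mpr hge
    rw [← hxd] at this
    linarith
  have h3' : (NZ (x / 2) : ℝ) ≤ n := by exact_mod_cast h3.le
  have hlog : Real.log x / 2 ≤ Real.log (x / 2) := by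
    have h4 : Real.log x = Real.log (x / 2) + Real.log 2 := by
      rw [← Real.log_mul (by positivity) (by norm_num)]
      congr 1
      ring
    have h5 : Real.log 2 ≤ Real.log (x / 2) := Real.log_le_log (by norm_num) (by linarith)
    linarith
  have e1 : C * (x / 2) ≤ x / 2 * Real.log (x / 2) / (4 * Real.pi) := by
    rw [le_div_iff₀ (by positivity)]
    nlinarith
  have e2 : x / 2 * Real.log (x / 2) / (2 * Real.pi) =
      x / 2 * Real.log (x / 2) / (4 * Real.pi) + x / 2 * Real.log (x / 2) / (4 * Real.pi) := by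
    field_simp
    ring
  have e3 : x / 2 * Real.log (x / 2) / (4 * Real.pi) ≤ n := by linarith
  rw [div_le_iff₀ (by positivity)] at e3 ⊢
  nlinarith

/-- tightness of the gaps -/
lemma tightI {η : ℝ} (hη : 0 < η) : ∃ K : ℝ, 0 < K ∧ ∀ k : ℕ, ∀ᶠ N : ℕ in atTop,
    cn N {n | K ≤ |dif yy (n + k)|} ≤ η * N := by
  classical
  obtain ⟨n1, hn1, hlog⟩ := ordlog
  have hpi := Real.pi_gt_three
  obtain ⟨n2, hn2⟩ := (ord_tendsto.eventually_ge_atTop (2 * Real.pi)).exists_forall_of_atTop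
  obtain ⟨n0, hn0⟩ : ∃ n0 : ℕ, n0 = max n1 n2 := ⟨_, rfl⟩
  have h01 : n1 ≤ n0 := by rw [hn0]; exact le_max_left _ _
  have h02 : n2 ≤ n0 := by rw [hn0]; exact le_max_right _ _
  have hpos : ∀ n, n0 ≤ n → 0 ≤ dif yy n := by
    intro n hn
    rw [dif_yy]
    unfold Pool.Agent.R320.CL.dl
    have h1 := hn2 n (h02.trans hn)
    have h2 := ord_step (n := n) (by omega)
    apply mul_nonneg (div_nonneg (by linarith) (by positivity))
    apply Real.log_nonneg
    rw [le_div_iff₀ (by positivity)]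
    linarith
  refine ⟨48 / η, by positivity, fun k => ?_⟩
  obtain ⟨N1, hN1⟩ := exists_nat_ge (2 * n0 / η)
  filter_upwards [eventually_ge_atTop N1, eventually_ge_atTop (k + 1), eventually_ge_atTop n0]
    with N g1 g2 g3
  have g1' : 2 * n0 / η ≤ N := hN1.trans (by exact_mod_cast g1)
  rw [div_le_iff₀ hη] at g1'
  have hsplit : cn N {n | 48 / η ≤ |dif yy (n + k)|} ≤
      cn N {n | n < n0} + cn N {n | n0 ≤ n ∧ 48 / η ≤ dif yy (n + k)} := by
    refine (cn_mono (F := {n | n < n0} ∪ {n | n0 ≤ n ∧ 48 / η ≤ dif yy (n + k)})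
      fun n _ _ hn => ?_).trans (cn_union N _ _)
    have hn : 48 / η ≤ |dif yy (n + k)| := hn
    rcases lt_or_ge n n0 with h | h
    · exact Or.inl h
    · right
      rw [abs_of_nonneg (hpos _ (by omega))] at hn
      exact ⟨h, hn⟩
  have h2 : cn N {n | n0 ≤ n ∧ 48 / η ≤ dif yy (n + k)} * (48 / η) ≤ 8 * (N + k + 1 : ℕ) := by
    rw [cn_eq, ← nsmul_eq_mul, ← Finset.sum_const]
    calc ∑ _n ∈ (Finset.Icc 1 N).filter (fun n => n0 ≤ n ∧ 48 / η ≤ dif yy (n + k)),
          (48 / η) ≤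
        ∑ n ∈ (Finset.Icc 1 N).filter (fun n => n0 ≤ n ∧ 48 / η ≤ dif yy (n + k)),
          dif yy (n + k) := by
          refine Finset.sum_le_sum fun n hn => ?_
          rw [Finset.mem_filter] at hn
          exact hn.2.2
      _ ≤ ∑ n ∈ Finset.Icc n0 N, dif yy (n + k) := by
          refine Finset.sum_le_sum_of_subset_of_nonneg ?_ fun n hn _ => ?_
          · intro n hn
            rw [Finset.mem_filter, Finset.mem_Icc] at hn
            rw [Finset.mem_Icc]
            exact ⟨hn.2.1, hn.1.2⟩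
          · rw [Finset.mem_Icc] at hn
            exact hpos _ (by omega)
      _ = ∑ n ∈ Finset.Icc (n0 + k) (N + k), dif yy n := by
          have e1 : Finset.Icc (n0 + k) (N + k) = (Finset.Icc n0 N).map (addRightEmbedding k) :=
            (Finset.map_add_right_Icc n0 N k).symm
          rw [e1, Finset.sum_map]
          rfl
      _ = SS (N + 1 - n0) (n0 + k) := by
          rw [← yy_SS, ← sum_dif]
          have e2 : Finset.Icc (n0 + k) (N + k) = Finset.Ico (n0 + k) (N + k + 1) := by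
            ext n
            simp only [Finset.mem_Icc, Finset.mem_Ico]
            omega
          rw [e2, Finset.sum_Ico_eq_sum_range]
          congr 2
          omega
      _ ≤ ord (n0 + k + (N + 1 - n0)) * Real.log (ord (n0 + k + (N + 1 - n0))) / (2 * Real.pi) -
          ord (n0 + k) * Real.log (ord (n0 + k)) / (2 * Real.pi) := SS_le (by omega)
      _ ≤ 8 * (N + k + 1 : ℕ) := by
          have e3 : n0 + k + (N + 1 - n0) = N + k + 1 := by omega
          rw [e3]
          have e4 := hlog (N + k + 1) (by omega)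
          have e5 : 0 ≤ ord (n0 + k) * Real.log (ord (n0 + k)) / (2 * Real.pi) := by
            have h1 := hn2 (n0 + k) (by omega)
            have h3 : 0 ≤ Real.log (ord (n0 + k)) := Real.log_nonneg (by linarith)
            have h4 : 0 ≤ ord (n0 + k) := by linarith
            positivity
          linarith
  have hN0 : (0 : ℝ) ≤ N := Nat.cast_nonneg N
  have hk : ((N + k + 1 : ℕ) : ℝ) ≤ 2 * N := by
    have : N + k + 1 ≤ 2 * N := by omega
    exact_mod_cast this
  have h3 : cn N {n | n0 ≤ n ∧ 48 / η ≤ dif yy (n + k)} ≤ η / 3 * N := by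
    have e1 : cn N {n | n0 ≤ n ∧ 48 / η ≤ dif yy (n + k)} * (48 / η) ≤ 16 * N := by linarith
    rw [mul_div_assoc', div_le_iff₀ hη] at e1
    linarith
  have h4 := cn_lt N n0
  nlinarith

/-- strong anti-concentration of the sums of gaps -/
lemma antiI (K : ℝ) {η : ℝ} (hη : 0 < η) : ∃ a : ℕ, 1 ≤ a ∧ ∀ᶠ N : ℕ in atTop,
    cn N {n | |yy (n + a) - yy n - a| ≤ K} ≤ η * N := by
  classical
  obtain ⟨a, ha⟩ := ((normal_unif (η / 4) (by positivity)).and
    ((Pool.Agent.R320.CL.lm_top.eventually_gt_atTop (|K| / (η / 8))).and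
      (eventually_ge_atTop 1))).exists
  obtain ⟨h1, h2, h3⟩ := ha
  refine ⟨a, h3, ?_⟩
  have hlogN : Tendsto (fun N : ℕ => Real.log N) atTop atTop :=
    Real.tendsto_log_atTop.comp tendsto_natCast_atTop_atTop
  filter_upwards [eventually_ge_atTop 1, hlogN.eventually_ge_atTop (a * Real.log a)] with N g1 g2
  have u1 := h1 N g1 g2 (η / 8)
  have u2 := h1 N g1 g2 (-(η / 8))
  rw [div_lt_iff₀ (by positivity)] at h2
  have hsub : cn N {n | |yy (n + a) - yy n - a| ≤ K} +
      (((Finset.Icc 1 N).filter (fun n => Ss (-(η / 8)) a n)).card : ℝ) ≤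
      (((Finset.Icc 1 N).filter (fun n => Ss (η / 8) a n)).card : ℝ) := by
    rw [cn_eq, ← Nat.cast_add, ← Finset.card_union_of_disjoint]
    · have : (Finset.Icc 1 N).filter (fun n => |yy (n + a) - yy n - a| ≤ K) ∪
          (Finset.Icc 1 N).filter (fun n => Ss (-(η / 8)) a n) ⊆
          (Finset.Icc 1 N).filter (fun n => Ss (η / 8) a n) := by
        intro n hn
        rw [Finset.mem_union, Finset.mem_filter, Finset.mem_filter] at hn
        rw [Finset.mem_filter]
        rcases hn with hn | hn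
        · refine ⟨hn.1, ?_⟩
          have h4 : |yy (n + a) - yy n - a| ≤ K := hn.2
          rw [yy_SS] at h4
          have h5 := (abs_le.mp h4).2
          unfold Pool.Agent.R320.CL.Ss
          have := le_abs_self K
          linarith
        · exact ⟨hn.1, Pool.Agent.R320.CL.Ss_mono (by linarith) hn.2⟩
      exact_mod_cast Finset.card_le_card this
    · rw [Finset.disjoint_left]
      intro n hn1 hn2
      rw [Finset.mem_filter] at hn1 hn2
      have h4 : |yy (n + a) - yy n - a| ≤ K := hn1.2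
      have h5 := hn2.2
      rw [yy_SS] at h4
      unfold Pool.Agent.R320.CL.Ss at h5
      have h6 := (abs_le.mp h4).1
      have := le_abs_self K
      linarith
  have hPh := Pool.Agent.Y743.CL.Ph_lip (show -(η / 8) ≤ η / 8 by linarith)
  have hN0 : (0 : ℝ) ≤ N := Nat.cast_nonneg N
  have u3 := (abs_le.mp u1).2
  have u4 := (abs_le.mp u2).1
  have u5 : Pool.Agent.Y743.CL.Ph (η / 8) * N ≤
      (Pool.Agent.Y743.CL.Ph (-(η / 8)) + (η / 8 - -(η / 8))) * N :=
    mul_le_mul_of_nonneg_right hPh hN0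
  nlinarith

/-- the deviations at the multiples of a large number are relatively small -/
lemma devI (A : ℕ) {δ η : ℝ} (hδ : 0 < δ) (hη : 0 < η) : ∃ m0 : ℕ, ∀ m : ℕ, m0 ≤ m → ∀ j ≤ A,
    ∀ᶠ N : ℕ in atTop, cn N {n | δ * m < |yy (n + j * m) - yy n - (j * m : ℕ)|} ≤ η * N := by
  classical
  obtain ⟨K1, hK1⟩ := Pool.Agent.Y743.CL.gs_bot (show 0 < η / 8 by positivity)
  obtain ⟨K2, hK2⟩ := Pool.Agent.Y743.CL.gs_top (show 0 < η / 8 by positivity)
  obtain ⟨K, hK⟩ : ∃ K : ℝ, K = max 1 (max K1 K2) := ⟨_, rfl⟩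
  have hK0 : 1 ≤ K := by rw [hK]; exact le_max_left _ _
  have hKb : Pool.Agent.Y743.CL.Ph (-K) ≤ η / 8 :=
    hK1 K (by rw [hK]; exact (le_max_left _ _).trans (le_max_right _ _))
  have hKt : 1 - Pool.Agent.Y743.CL.Ph K ≤ η / 8 := by
    rw [← Pool.Agent.Y743.CL.gs_compl]
    refine le_trans ?_ (hK2 K (by rw [hK]; exact (le_max_right _ _).trans (le_max_right _ _)))
    exact measureReal_mono Set.Ioi_subset_Ici_self
  obtain ⟨r0, hr0⟩ := (normal_unif (η / 8) (by positivity)).exists_forall_of_atTop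
  -- `lm (j m) ≤ δ m / K` for large `m`
  have hlm : ∀ᶠ m : ℕ in atTop, ∀ j ≤ A, K * Pool.Agent.Y743.CL.lm (j * m) ≤ δ * m := by
    obtain ⟨M, hM⟩ := exists_nat_ge ((K / δ) ^ 2 * (A + 1))
    filter_upwards [eventually_ge_atTop M, eventually_ge_atTop 1] with m h1 h2 j hj
    have hm0 : (0 : ℝ) < m := by exact_mod_cast h2
    have hmM : (K / δ) ^ 2 * (A + 1) ≤ m := hM.trans (by exact_mod_cast h1)
    have hj' : ((j * m : ℕ) : ℝ) ≤ A * m := by
      push_cast
      exact mul_le_mul_of_nonneg_right (by exact_mod_cast hj) hm0.le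
    have h3 : Real.log ((j * m : ℕ) : ℝ) ≤ (A + 1) * m := by
      rcases Nat.eq_zero_or_pos (j * m) with h0 | h0
      · rw [h0]
        simp only [Nat.cast_zero, Real.log_zero]
        positivity
      · have h4 := Real.log_le_sub_one_of_pos (by exact_mod_cast h0 : (0 : ℝ) < ((j * m : ℕ) : ℝ))
        linarith
    have h4 : Real.sqrt (Real.log ((j * m : ℕ) : ℝ)) ≤ δ / K * m := by
      rw [Real.sqrt_le_left (by positivity)]
      refine h3.trans ?_
      have e1 : (δ / K * m) ^ 2 = (δ / K) ^ 2 * m * m := by ring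
      rw [e1]
      apply mul_le_mul_of_nonneg_right _ hm0.le
      calc ((A : ℝ) + 1) = (δ / K) ^ 2 * ((K / δ) ^ 2 * (A + 1)) := by field_simp
        _ ≤ (δ / K) ^ 2 * m := mul_le_mul_of_nonneg_left hmM (by positivity)
    unfold Pool.Agent.Y743.CL.lm
    have h5 : Real.sqrt (Real.log ((j * m : ℕ) : ℝ)) / Real.pi ≤
        Real.sqrt (Real.log ((j * m : ℕ) : ℝ)) :=
      div_le_self (Real.sqrt_nonneg _) (by linarith [Real.pi_gt_three])
    calc K * (Real.sqrt (Real.log ((j * m : ℕ) : ℝ)) / Real.pi) ≤ K * (δ / K * m) := by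
          apply mul_le_mul_of_nonneg_left (h5.trans h4) (by linarith)
      _ = δ * m := by field_simp
  obtain ⟨m1, hm1⟩ := hlm.exists_forall_of_atTop
  refine ⟨max (max m1 r0) 1, fun m hm j hj => ?_⟩
  have hmm1 : m1 ≤ m := ((le_max_left _ _).trans (le_max_left _ _)).trans hm
  have hmr0 : r0 ≤ m := ((le_max_right _ _).trans (le_max_left _ _)).trans hm
  have hm1' : 1 ≤ m := (le_max_right _ _).trans hm
  have hm0 : (0 : ℝ) < m := by exact_mod_cast hm1'
  rcases Nat.eq_zero_or_pos j with h0 | h0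
  · subst h0
    refine Filter.Eventually.of_forall fun N => ?_
    refine (cn_mono (F := ∅) fun n _ _ hn => ?_).trans (by rw [cn_empty]; positivity)
    have hn : δ * m < |yy (n + 0 * m) - yy n - (0 * m : ℕ)| := hn
    rw [zero_mul, add_zero, sub_self, Nat.cast_zero, sub_zero, abs_zero] at hn
    have : 0 < δ * m := by positivity
    linarith
  have hr : r0 ≤ j * m := hmr0.trans (Nat.le_mul_of_pos_left m h0)
  have hb := hm1 m hmm1 j hj
  have hlogN : Tendsto (fun N : ℕ => Real.log N) atTop atTop :=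
    Real.tendsto_log_atTop.comp tendsto_natCast_atTop_atTop
  filter_upwards [eventually_ge_atTop 1,
    hlogN.eventually_ge_atTop (((j * m : ℕ) : ℝ) * Real.log ((j * m : ℕ) : ℝ))] with N g1 g2
  have u1 := hr0 _ hr N g1 g2 K
  have u2 := hr0 _ hr N g1 g2 (-K)
  have hN0 : (0 : ℝ) ≤ N := Nat.cast_nonneg N
  have h5 : cn N {n | δ * m < |yy (n + j * m) - yy n - (j * m : ℕ)|} ≤
      (((Finset.Icc 1 N).filter (fun n => ¬ Ss K (j * m) n)).card : ℝ) +
      (((Finset.Icc 1 N).filter (fun n => Ss (-K) (j * m) n)).card : ℝ) := by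
    rw [cn_eq, ← Nat.cast_add]
    have : (Finset.Icc 1 N).filter
        (fun n => δ * m < |yy (n + j * m) - yy n - (j * m : ℕ)|) ⊆
        (Finset.Icc 1 N).filter (fun n => ¬ Ss K (j * m) n) ∪
        (Finset.Icc 1 N).filter (fun n => Ss (-K) (j * m) n) := by
      intro n hn
      rw [Finset.mem_filter] at hn
      rw [Finset.mem_union, Finset.mem_filter, Finset.mem_filter]
      have h6 : δ * m < |yy (n + j * m) - yy n - (j * m : ℕ)| := hn.2
      rw [yy_SS] at h6
      rcases lt_abs.mp h6 with h7 | h7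
      · left
        refine ⟨hn.1, fun h8 => ?_⟩
        unfold Pool.Agent.R320.CL.Ss at h8
        linarith
      · right
        refine ⟨hn.1, ?_⟩
        unfold Pool.Agent.R320.CL.Ss
        linarith
    exact_mod_cast (Finset.card_le_card this).trans (Finset.card_union_le _ _)
  have g3 : (((Finset.Icc 1 N).filter (fun n => Ss K (j * m) n)).card : ℝ) +
      (((Finset.Icc 1 N).filter (fun n => ¬ Ss K (j * m) n)).card : ℝ) = N := by
    have := Finset.card_filter_add_card_filter_not (s := Finset.Icc 1 N)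
      (fun n => Ss K (j * m) n)
    rw [Nat.card_Icc, Nat.add_sub_cancel] at this
    exact_mod_cast this
  have u3 := (abs_le.mp u1).1
  have u4 := (abs_le.mp u2).2
  nlinarith

end Pool.Agent.R846.UL
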