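import Pool.Agent.R846.UL.Tail

/-! # The contradiction from tightness, the number variance and anti-concentration -/

set_option autoImplicit false

open Filter Topology MeasureTheory Set Polynomial

namespace Pool.Agent.R846.UL

open Pool.Agent.Y743.LR

/-- the hypotheses of the core argument -/
structure DataT (T : ℕ → ℝ) (ν : ℝ → ℕ) (y : ℕ → ℕ → ℝ) (V : ℝ[X]) : Prop where
  hT10 : ∀ i, 10 ≤ T i
  hTt : Tendsto T atTop atTop
  hν : Monotone ν
  sand : ∀ i t, T i ≤ t → t ≤ 3 * T i →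
    y i (ν t) ≤ t * (Real.log (T i) / (2 * Real.pi)) ∧
      t * (Real.log (T i) / (2 * Real.pi)) < y i (ν t + 1)
  tight : ∀ η : ℝ, 0 < η → ∃ K : ℝ, 0 < K ∧ ∀ a : ℝ, 0 ≤ a → ∀ᶠ i in atTop,
    dn T i {t | K ≤ |Lam V (y i) (ν (t + hh T i a))|} ≤ η
  var : ∃ C : ℝ, 0 < C ∧ ∀ a : ℝ, 1 ≤ a → ∀ᶠ i in atTop,
    ∫ t in Icc (T i) (2 * T i), ((ν (t + hh T i a) : ℝ) - ν t - a) ^ 2 ≤
      (C + Real.log (1 + a)) * T i
  anti : ∀ K : ℝ, ∃ a : ℝ, 1 ≤ a ∧ ∀ᶠ i in atTop,
    1 / 2 ≤ dn T i {t | K < |(ν (t + hh T i a) : ℝ) - ν t - a|}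

variable {T : ℕ → ℝ} {ν : ℝ → ℕ} {y : ℕ → ℕ → ℝ} {V : ℝ[X]}

lemma hh_small' (D : DataT T ν y V) {a : ℝ} (ha : 0 ≤ a) : ∀ᶠ i in atTop, hh T i a ≤ T i := by
  have h1 : ∀ᶠ i in atTop, 2 * Real.pi * a ≤ T i := D.hTt.eventually_ge_atTop _
  have h2 : ∀ᶠ i in atTop, 1 ≤ Real.log (T i) :=
    (Real.tendsto_log_atTop.comp D.hTt).eventually_ge_atTop _
  filter_upwards [h1, h2] with i h1 h2
  unfold hh
  rw [div_le_iff₀ (by linarith)]
  have := D.hT10 i
  nlinarith

/-- the count and the local slope -/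
lemma point'' {P : ℝ[X]} (D : DataT T ν y V)
    (hPV : ∀ y : ℕ → ℝ, ∀ n, act P y n = y n - act V (dif y) n) {i : ℕ} {a t δ : ℝ} (ha : 0 ≤ a)
    (hs : hh T i a ≤ T i) (ht1 : T i ≤ t) (ht2 : t ≤ 2 * T i) {H : ℕ} (hδ : 0 ≤ δ)
    (hc : (ν (t + hh T i a) : ℝ) - ν t ≤ H)
    (hr : ∀ j < H, |dif (dif (act P (y i))) (ν t + j)| ≤ δ) :
    |((ν (t + hh T i a) : ℝ) - ν t) * dif (act P (y i)) (ν t) - a| ≤
      Lam V (y i) (ν t) + Lam V (y i) (ν (t + hh T i a)) + H * (H * δ) := by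
  have hpi := Real.pi_pos
  have hL : 0 < Real.log (T i) := Real.log_pos (by linarith [D.hT10 i])
  have hh0 := hh_nonneg D.hT10 i ha
  have hmono : ν t ≤ ν (t + hh T i a) := D.hν (by linarith)
  obtain ⟨c, hc'⟩ := Nat.exists_eq_add_of_le hmono
  have hcc : (ν (t + hh T i a) : ℝ) - ν t = c := by rw [hc']; push_cast; ring
  rw [hcc] at hc ⊢
  have hcH : c ≤ H := by exact_mod_cast hc
  obtain ⟨s1, s2⟩ := D.sand i t ht1 (by linarith)
  obtain ⟨s3, s4⟩ := D.sand i (t + hh T i a) (by linarith) (by linarith)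
  have e1 : (t + hh T i a) * (Real.log (T i) / (2 * Real.pi)) =
      t * (Real.log (T i) / (2 * Real.pi)) + a := by
    unfold hh; field_simp
  rw [e1, hc'] at s3 s4
  have h := point hPV (y i) hcH hδ hr s1 s2 s3 s4
  rw [hc']
  refine h.trans ?_
  have : (c : ℝ) * (H * δ) ≤ H * (H * δ) := mul_le_mul_of_nonneg_right hc (by positivity)
  linarith

/-- the slope tends to one -/
lemma slope_one' {P : ℝ[X]} (D : DataT T ν y V)
    (hPV : ∀ y : ℕ → ℝ, ∀ n, act P y n = y n - act V (dif y) n)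
    (hnull : INull T ν (fun i => dif (dif (act P (y i))))) {η ε : ℝ} (hη : 0 < η) (hε : 0 < ε) :
    ∀ᶠ i in atTop, dn T i {t | η ≤ |dif (act P (y i)) (ν t) - 1|} ≤ ε := by
  have hT : ∀ i, 0 < T i := fun i => by linarith [D.hT10 i]
  obtain ⟨K, hK0, hmom⟩ := D.tight (ε / 8) (by positivity)
  obtain ⟨CV, hCV, hvar⟩ := D.var
  have hpi := Real.pi_pos
  -- the scale
  set κ : ℝ := min (η / 4) (1 / 2) with hκ
  have hκ0 : 0 < κ := lt_min (by positivity) (by norm_num)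
  have hκ1 : κ ≤ η / 4 := min_le_left _ _
  have hκ2 : κ ≤ 1 / 2 := min_le_right _ _
  have ev : ∀ᶠ a : ℝ in atTop, 1 ≤ a ∧ 2 * K + 1 ≤ a * (η / 4) ∧
      (CV + Real.log (1 + a)) / (κ * a) ^ 2 ≤ ε / 4 := by
    have e1 : Tendsto (fun a : ℝ => (CV + Real.log (1 + a)) / (κ * a) ^ 2) atTop (𝓝 0) := by
      have e2 : Tendsto (fun a : ℝ => CV / κ ^ 2 * (1 / a ^ 2) +
          1 / κ ^ 2 * (Real.log (1 + a) / (1 + a) * ((1 + a) / a ^ 2))) atTop
          (𝓝 (CV / κ ^ 2 * 0 + 1 / κ ^ 2 * (0 * 0))) := by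
        have e3 : Tendsto (fun a : ℝ => 1 / a ^ 2) atTop (𝓝 0) := by
          simp only [one_div]
          exact (tendsto_pow_atTop two_ne_zero).inv_tendsto_atTop
        have e4 : Tendsto (fun a : ℝ => Real.log (1 + a) / (1 + a)) atTop (𝓝 0) := by
          have := Real.isLittleO_log_id_atTop.tendsto_div_nhds_zero
          exact this.comp (tendsto_atTop_add_const_left _ 1 tendsto_id)
        have e5 : Tendsto (fun a : ℝ => (1 + a) / a ^ 2) atTop (𝓝 0) := by
          have e6 : Tendsto (fun a : ℝ => 1 / a ^ 2 + a⁻¹) atTop (𝓝 (0 + 0)) :=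
            e3.add tendsto_inv_atTop_zero
          rw [add_zero] at e6
          refine e6.congr' ?_
          filter_upwards [eventually_gt_atTop 0] with a ha
          field_simp
        exact (e3.const_mul _).add ((e4.mul e5).const_mul _)
      simp only [mul_zero, add_zero] at e2
      refine e2.congr' ?_
      filter_upwards [eventually_gt_atTop 0] with a ha
      field_simp
    filter_upwards [eventually_ge_atTop 1, eventually_ge_atTop ((2 * K + 1) / (η / 4)),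
      e1.eventually_le_const (by positivity : (0 : ℝ) < ε / 4)] with a h1 h2 h3
    refine ⟨h1, ?_, h3⟩
    rwa [div_le_iff₀ (by positivity)] at h2
  obtain ⟨a, ha1, ha2, ha3⟩ := ev.exists
  have ha0 : 0 < a := by linarith
  obtain ⟨H, hH⟩ : ∃ H : ℕ, 2 * a ≤ H := ⟨_, Nat.le_ceil _⟩
  have hH0 : (0 : ℝ) < H := by linarith
  have hnl : ∀ j ∈ Finset.range H, ∀ᶠ i in atTop,
      dn T i {t | 1 / (H : ℝ) ^ 2 ≤ |dif (dif (act P (y i))) (ν t + j)|} ≤ ε / (4 * H) := fun j _ =>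
    hnull.ev hT (by positivity) j (by positivity)
  rw [← Filter.eventually_all_finset] at hnl
  filter_upwards [hmom 0 le_rfl, hmom a ha0.le, hvar a ha1, hnl, hh_small' D ha0.le]
    with i h1 h2 h3 h4 h5
  have hTi := hT i
  -- the three exceptional sets
  have c1 : dn T i {t | K ≤ |Lam V (y i) (ν t)|} ≤ ε / 8 := by
    have e0 : hh T i 0 = 0 := by unfold hh; simp
    rw [e0] at h1
    simp only [add_zero] at h1
    exact h1
  have c2 : dn T i {t | K ≤ |Lam V (y i) (ν (t + hh T i a))|} ≤ ε / 8 := h2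
  have c3 : dn T i {t | κ * a ≤ |(ν (t + hh T i a) : ℝ) - ν t - a|} ≤ ε / 4 := by
    exact (cheb D.hν hT i (fun n m => (m : ℝ) - n - a) (hh T i a) (by positivity) h3).trans ha3
  have c4 : dn T i (⋃ j ∈ Finset.range H,
      {t | 1 / (H : ℝ) ^ 2 ≤ |dif (dif (act P (y i))) (ν t + j)|}) ≤ ε / 4 := by
    refine (dn_biUnion hT i _ _).trans ((Finset.sum_le_sum h4).trans ?_)
    rw [Finset.sum_const, Finset.card_range, nsmul_eq_mul]
    apply le_of_eq
    field_simp
  refine (dn_mono hT i (F := (({t | K ≤ |Lam V (y i) (ν t)|} ∪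
    {t | K ≤ |Lam V (y i) (ν (t + hh T i a))|}) ∪
    {t | κ * a ≤ |(ν (t + hh T i a) : ℝ) - ν t - a|}) ∪ ⋃ j ∈ Finset.range H,
      {t | 1 / (H : ℝ) ^ 2 ≤ |dif (dif (act P (y i))) (ν t + j)|}) fun t ht1 ht2 ht => ?_).trans ?_
  · by_contra hcon
    rw [mem_union, mem_union, mem_union, not_or, not_or, not_or] at hcon
    obtain ⟨⟨⟨g1, g2⟩, g3⟩, g4⟩ := hcon
    have g1 : |Lam V (y i) (ν t)| < K := not_le.mp g1
    have g2 : |Lam V (y i) (ν (t + hh T i a))| < K := not_le.mp g2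
    have g3 : |(ν (t + hh T i a) : ℝ) - ν t - a| < κ * a := not_le.mp g3
    rw [abs_of_nonneg (Lam_nonneg _ _ _)] at g1 g2
    set c : ℝ := (ν (t + hh T i a) : ℝ) - ν t with hc
    obtain ⟨g5, g6⟩ := abs_lt.mp g3
    have hκa : κ * a ≤ a / 2 := by nlinarith
    have hp := point'' D hPV (a := a) (t := t) (δ := 1 / (H : ℝ) ^ 2) ha0.le h5 ht1 ht2 (H := H)
      (by positivity) (by linarith) (by
        intro j hj
        by_contra hlt
        push Not at hlt
        apply g4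
        simp only [mem_iUnion]
        exact ⟨j, Finset.mem_range.mpr hj, hlt.le⟩)
    have e1 : (H : ℝ) * (H * (1 / (H : ℝ) ^ 2)) = 1 := by field_simp
    rw [e1, ← hc] at hp
    obtain ⟨p1, p2⟩ := abs_le.mp hp
    have ht : η ≤ |dif (act P (y i)) (ν t) - 1| := ht
    set g := dif (act P (y i)) (ν t) with hg
    have hc2 : a / 2 ≤ c := by linarith
    have e3 : a / 2 * η ≤ c * |g - 1| := mul_le_mul hc2 ht hη.le (by linarith)
    have e4 : κ * a ≤ η / 4 * a := mul_le_mul_of_nonneg_right hκ1 ha0.le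
    -- strictness
    have e6 : |c * (g - 1)| < 2 * K + 1 + κ * a := by
      have e7 : c * (g - 1) = (c * g - a) - (c - a) := by ring
      rw [e7, abs_lt]
      constructor <;> linarith
    rw [abs_mul, abs_of_nonneg (by linarith : 0 ≤ c)] at e6
    linarith
  · refine (dn_union hT i _ _).trans ?_
    have e1 := dn_union hT i ({t | K ≤ |Lam V (y i) (ν t)|} ∪
      {t | K ≤ |Lam V (y i) (ν (t + hh T i a))|})
      {t | κ * a ≤ |(ν (t + hh T i a) : ℝ) - ν t - a|}
    have e2 := dn_union hT i {t | K ≤ |Lam V (y i) (ν t)|}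
      {t | K ≤ |Lam V (y i) (ν (t + hh T i a))|}
    linarith

/-- **the contradiction** -/
theorem core' {P : ℝ[X]} (D : DataT T ν y V)
    (hPV : ∀ y : ℕ → ℝ, ∀ n, act P y n = y n - act V (dif y) n)
    (hnull : INull T ν (fun i => dif (dif (act P (y i))))) : False := by
  have hT : ∀ i, 0 < T i := fun i => by linarith [D.hT10 i]
  obtain ⟨K, hK0, hmom⟩ := D.tight (1 / 16) (by positivity)
  obtain ⟨CV, hCV, hvar⟩ := D.var
  obtain ⟨a, ha1, hanti⟩ := D.anti (2 * K + 2)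
  have ha0 : 0 < a := by linarith
  -- truncation of the count
  obtain ⟨H, hH1, hH2⟩ : ∃ H : ℕ, a + 1 ≤ H ∧
      (CV + Real.log (1 + a)) / ((H : ℝ) - a) ^ 2 ≤ 1 / 16 := by
    have e1 : Tendsto (fun n : ℕ => (CV + Real.log (1 + a)) / ((n : ℝ) - a) ^ 2) atTop (𝓝 0) := by
      apply Tendsto.div_atTop tendsto_const_nhds
      apply (tendsto_pow_atTop two_ne_zero).comp
      exact tendsto_atTop_add_const_right _ _ tendsto_natCast_atTop_atTop
    obtain ⟨H, h1, h2⟩ := ((e1.eventually_le_const (by norm_num : (0 : ℝ) < 1 / 16)).and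
      (tendsto_natCast_atTop_atTop.eventually_ge_atTop (a + 1))).exists
    exact ⟨H, h2, h1⟩
  have hH0 : (0 : ℝ) < H := by linarith
  have hnl : ∀ j ∈ Finset.range H, ∀ᶠ i in atTop,
      dn T i {t | 1 / (H : ℝ) ^ 2 ≤ |dif (dif (act P (y i))) (ν t + j)|} ≤ 1 / (16 * H) :=
    fun j _ => hnull.ev hT (by positivity) j (by positivity)
  rw [← Filter.eventually_all_finset] at hnl
  have hev := (((((hmom 0 le_rfl).and (hmom a ha0.le)).and (hvar a ha1)).and hnl).and
    (hh_small' D ha0.le)).and ((slope_one' D hPV hnull (by positivity : (0 : ℝ) < 1 / H)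
      (by norm_num : (0 : ℝ) < 1 / 16)).and hanti)
  obtain ⟨i, ⟨⟨⟨⟨h1, h2⟩, h3⟩, h4⟩, h5⟩, h6, h7⟩ := hev.exists
  have hTi := hT i
  have e0 : hh T i 0 = 0 := by unfold hh; simp
  rw [e0] at h1
  simp only [add_zero] at h1
  have c3 : dn T i {t | (H : ℝ) - a ≤ |(ν (t + hh T i a) : ℝ) - ν t - a|} ≤ 1 / 16 :=
    (cheb D.hν hT i (fun n m => (m : ℝ) - n - a) (hh T i a) (by linarith) h3).trans hH2
  have c4 : dn T i (⋃ j ∈ Finset.range H,
      {t | 1 / (H : ℝ) ^ 2 ≤ |dif (dif (act P (y i))) (ν t + j)|}) ≤ 1 / 16 := by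
    refine (dn_biUnion hT i _ _).trans ((Finset.sum_le_sum h4).trans ?_)
    rw [Finset.sum_const, Finset.card_range, nsmul_eq_mul]
    apply le_of_eq
    field_simp
  have hfin : dn T i {t | 2 * K + 2 < |(ν (t + hh T i a) : ℝ) - ν t - a|} ≤ 5 / 16 := by
    refine (dn_mono hT i (F := (((({t | K ≤ |Lam V (y i) (ν t)|} ∪
      {t | K ≤ |Lam V (y i) (ν (t + hh T i a))|}) ∪
      {t | (H : ℝ) - a ≤ |(ν (t + hh T i a) : ℝ) - ν t - a|}) ∪ ⋃ j ∈ Finset.range H,
        {t | 1 / (H : ℝ) ^ 2 ≤ |dif (dif (act P (y i))) (ν t + j)|}) ∪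
        {t | 1 / (H : ℝ) ≤ |dif (act P (y i)) (ν t) - 1|})) fun t ht1 ht2 ht => ?_).trans ?_
    · by_contra hcon
      rw [mem_union, mem_union, mem_union, mem_union, not_or, not_or, not_or, not_or] at hcon
      obtain ⟨⟨⟨⟨g1, g2⟩, g3⟩, g4⟩, g5⟩ := hcon
      have g1 : |Lam V (y i) (ν t)| < K := not_le.mp g1
      have g2 : |Lam V (y i) (ν (t + hh T i a))| < K := not_le.mp g2
      have g3 : |(ν (t + hh T i a) : ℝ) - ν t - a| < (H : ℝ) - a := not_le.mp g3
      have g5 : |dif (act P (y i)) (ν t) - 1| < 1 / (H : ℝ) := not_le.mp g5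
      rw [abs_of_nonneg (Lam_nonneg _ _ _)] at g1 g2
      have ht : 2 * K + 2 < |(ν (t + hh T i a) : ℝ) - ν t - a| := ht
      have hmono : ν t ≤ ν (t + hh T i a) := D.hν (by
        have := hh_nonneg D.hT10 i ha0.le
        linarith)
      have hc0 : (0 : ℝ) ≤ (ν (t + hh T i a) : ℝ) - ν t := by
        have : (ν t : ℝ) ≤ ν (t + hh T i a) := by exact_mod_cast hmono
        linarith
      set c : ℝ := (ν (t + hh T i a) : ℝ) - ν t with hc
      obtain ⟨g6, g7⟩ := abs_lt.mp g3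
      have hp := point'' D hPV (a := a) (t := t) (δ := 1 / (H : ℝ) ^ 2) ha0.le h5 ht1 ht2 (H := H)
        (by positivity) (by linarith) (by
          intro j hj
          by_contra hlt
          push Not at hlt
          apply g4
          simp only [mem_iUnion]
          exact ⟨j, Finset.mem_range.mpr hj, hlt.le⟩)
      have e1 : (H : ℝ) * (H * (1 / (H : ℝ) ^ 2)) = 1 := by field_simp
      rw [e1, ← hc] at hp
      set g := dif (act P (y i)) (ν t) with hg
      have hcH : c ≤ H := by linarith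
      have e3 : c * |g - 1| ≤ 1 := by
        calc c * |g - 1| ≤ H * (1 / H) := mul_le_mul hcH g5.le (abs_nonneg _) hH0.le
          _ = 1 := by field_simp
      have e4 : |c - a| ≤ |c * g - a| + c * |g - 1| := by
        have e5 : c - a = (c * g - a) - c * (g - 1) := by ring
        rw [e5]
        refine (abs_sub _ _).trans (le_of_eq ?_)
        rw [abs_mul, abs_of_nonneg hc0]
      linarith
    · refine (dn_union hT i _ _).trans ?_
      have e1 := dn_union hT i ((({t | K ≤ |Lam V (y i) (ν t)|} ∪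
        {t | K ≤ |Lam V (y i) (ν (t + hh T i a))|}) ∪
        {t | (H : ℝ) - a ≤ |(ν (t + hh T i a) : ℝ) - ν t - a|})) (⋃ j ∈ Finset.range H,
        {t | 1 / (H : ℝ) ^ 2 ≤ |dif (dif (act P (y i))) (ν t + j)|})
      have e2 := dn_union hT i ({t | K ≤ |Lam V (y i) (ν t)|} ∪
        {t | K ≤ |Lam V (y i) (ν (t + hh T i a))|})
        {t | (H : ℝ) - a ≤ |(ν (t + hh T i a) : ℝ) - ν t - a|}
      have e3 := dn_union hT i {t | K ≤ |Lam V (y i) (ν t)|}
        {t | K ≤ |Lam V (y i) (ν (t + hh T i a))|}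
      linarith
  linarith

end Pool.Agent.R846.UL
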