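import Pool.Agent.R846.UL.Core2

/-! # The ordinates satisfy the hypotheses of the core argument, unconditionally -/

set_option autoImplicit false

open Filter Topology MeasureTheory Set Polynomial ProbabilityTheory

namespace Pool.Agent.R846.UL

open SG (ord NZ)
open Pool.Agent.Y743.LR
open Pool.Agent.Y743.CL (gs Zv)

/-- the Gaussian measure sees two large symmetric intervals away from the origin -/
lemma gs_two : ∃ n : ℕ, 1 ≤ n ∧ (3 : ℝ) / 4 ≤ gs.real (Ioo (1 / (n : ℝ)) n) +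
    gs.real (Ioo (-(n : ℝ)) (-(1 / (n : ℝ)))) := by
  have hm1 : Monotone fun n : ℕ => Ioo (1 / ((n : ℝ) + 1)) ((n : ℝ) + 1) := by
    intro m n hmn
    have h1 : (m : ℝ) ≤ n := by exact_mod_cast hmn
    have h2 : (0 : ℝ) ≤ m := Nat.cast_nonneg m
    apply Ioo_subset_Ioo
    · exact one_div_le_one_div_of_le (by linarith) (by linarith)
    · linarith
  have hm2 : Monotone fun n : ℕ => Ioo (-((n : ℝ) + 1)) (-(1 / ((n : ℝ) + 1))) := by
    intro m n hmn
    have h1 : (m : ℝ) ≤ n := by exact_mod_cast hmn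
    have h2 : (0 : ℝ) ≤ m := Nat.cast_nonneg m
    apply Ioo_subset_Ioo
    · linarith
    · have := one_div_le_one_div_of_le (by linarith : (0 : ℝ) < m + 1) (by linarith : (m : ℝ) + 1 ≤ n + 1)
      linarith
  have hU1 : ⋃ n : ℕ, Ioo (1 / ((n : ℝ) + 1)) ((n : ℝ) + 1) = Ioi 0 := by
    ext x
    simp only [mem_iUnion, mem_Ioo, mem_Ioi]
    constructor
    · rintro ⟨n, h1, _⟩
      have : (0 : ℝ) < 1 / ((n : ℝ) + 1) := by positivity
      linarith
    · intro hx
      obtain ⟨n, hn⟩ := exists_nat_gt (max (1 / x) x)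
      have h1 := (le_max_left _ _).trans_lt hn
      have h2 := (le_max_right _ _).trans_lt hn
      refine ⟨n, ?_, by linarith⟩
      rw [div_lt_iff₀ (by positivity)]
      rw [div_lt_iff₀ hx] at h1
      nlinarith
  have hU2 : ⋃ n : ℕ, Ioo (-((n : ℝ) + 1)) (-(1 / ((n : ℝ) + 1))) = Iio 0 := by
    ext x
    simp only [mem_iUnion, mem_Ioo, mem_Iio]
    constructor
    · rintro ⟨n, _, h1⟩
      have : (0 : ℝ) < 1 / ((n : ℝ) + 1) := by positivity
      linarith
    · intro hx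
      obtain ⟨n, hn⟩ := exists_nat_gt (max (1 / (-x)) (-x))
      have h1 := (le_max_left _ _).trans_lt hn
      have h2 := (le_max_right _ _).trans_lt hn
      refine ⟨n, by linarith, ?_⟩
      rw [div_lt_iff₀ (by linarith)] at h1
      have h3 : 1 / ((n : ℝ) + 1) < -x := by
        rw [div_lt_iff₀ (by positivity)]
        nlinarith
      linarith
  have t1 := tendsto_measure_iUnion_atTop (μ := gs) hm1
  have t2 := tendsto_measure_iUnion_atTop (μ := gs) hm2
  rw [hU1] at t1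
  rw [hU2] at t2
  have t1' := (ENNReal.tendsto_toReal (measure_ne_top gs (Ioi 0))).comp t1
  have t2' := (ENNReal.tendsto_toReal (measure_ne_top gs (Iio 0))).comp t2
  have hsum : (gs (Ioi 0)).toReal + (gs (Iio 0)).toReal = 1 := by
    have : NullSingletonClass gs := nullSingletonClass_gaussianReal (by norm_num)
    have h1 : gs (Ioi 0) + gs (Iio 0) = 1 := by
      have h2 : gs (Iio 0) = gs (Iic 0) := Iio_ae_eq_Iic.measure_eq
      rw [h2, add_comm, ← compl_Iic, measure_add_measure_compl measurableSet_Iic, measure_univ]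
    rw [← ENNReal.toReal_add (measure_ne_top _ _) (measure_ne_top _ _), h1, ENNReal.toReal_one]
  have t3 := t1'.add t2'
  rw [hsum] at t3
  obtain ⟨n, hn⟩ := (t3.eventually_const_le (by norm_num : (3 : ℝ) / 4 < 1)).exists
  refine ⟨n + 1, by omega, ?_⟩
  simp only [Function.comp] at hn
  unfold Measure.real
  push_cast
  exact hn

lemma Zv_meas' (a T : ℝ) : Measurable (Zv a T) := by
  unfold Pool.Agent.Y743.CL.Zv
  have h1 : Measurable fun t : ℝ => (NZ t : ℝ) := measurable_from_nat.comp (SG.NZ_mono.measurable)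
  have h2 : Measurable fun t : ℝ => (NZ (t + 2 * Real.pi * a / Real.log T) : ℝ) :=
    h1.comp (measurable_id.add_const _)
  exact ((measurable_const.sub (h2.sub h1)).const_mul _).div_const _

/-- anti-concentration of the counts -/
lemma anti_seq {T : ℕ → ℝ} (hTt : Tendsto T atTop atTop) (hT10 : ∀ i, 10 ≤ T i) (K : ℝ) :
    ∃ a : ℝ, 1 ≤ a ∧ ∀ᶠ i in atTop,
      1 / 2 ≤ dn T i {t | K < |(NZ (t + hh T i a) : ℝ) - NZ t - a|} := by
  have hpi := Real.pi_pos
  obtain ⟨n, hn1, hn⟩ := gs_two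
  have hn0 : (0 : ℝ) < n := by exact_mod_cast hn1
  have hn1' : (1 : ℝ) ≤ n := by exact_mod_cast hn1
  -- intervals may be degenerate for `n = 1`, so we enlarge them
  obtain ⟨R1, hR1, h1⟩ := Pool.Agent.Y743.CL.stat_clt 1 le_rfl (1 / (n : ℝ)) (n + 1) (1 / 8)
    (by
      have : 1 / (n : ℝ) ≤ 1 := by rw [div_le_one hn0]; exact hn1'
      linarith) (by norm_num)
  obtain ⟨R2, hR2, h2⟩ := Pool.Agent.Y743.CL.stat_clt 1 le_rfl (-(n + 1 : ℝ)) (-(1 / (n : ℝ))) (1 / 8)
    (by
      have : 1 / (n : ℝ) ≤ 1 := by rw [div_le_one hn0]; exact hn1'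
      linarith) (by norm_num)
  have hlog : Tendsto (fun a : ℝ => Real.sqrt (Real.log a)) atTop atTop :=
    Real.tendsto_sqrt_atTop.comp Real.tendsto_log_atTop
  obtain ⟨a, ha⟩ := ((hlog.eventually_ge_atTop (Real.pi * |K| * n + 1)).and
    ((eventually_ge_atTop R1).and (eventually_ge_atTop R2))).exists
  obtain ⟨ha1, ha2, ha3⟩ := ha
  have haR : 3 ≤ a := hR1.trans ha2
  refine ⟨a, by linarith, ?_⟩
  filter_upwards [(Real.tendsto_log_atTop.comp hTt).eventually_ge_atTop (a * Real.log a)] with i hi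
  have hi : a * Real.log a ≤ 1 * Real.log (T i) := by rw [one_mul]; exact hi
  have hTi : 10 ≤ T i := hT10 i
  have g1 := h1 a (T i) ha2 (by linarith) hi
  have g2 := h2 a (T i) ha3 (by linarith) hi
  set A : Set ℝ := {t | 1 / (n : ℝ) < Zv a (T i) t ∧ Zv a (T i) t < n + 1} with hA
  set B : Set ℝ := {t | -(n + 1 : ℝ) < Zv a (T i) t ∧ Zv a (T i) t < -(1 / (n : ℝ))} with hB
  have hZ := Zv_meas' a (T i)
  have hAm : MeasurableSet A := (measurableSet_lt measurable_const hZ).inter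
    (measurableSet_lt hZ measurable_const)
  have hBm : MeasurableSet B := (measurableSet_lt measurable_const hZ).inter
    (measurableSet_lt hZ measurable_const)
  have hI : volume.real (Icc (T i) (2 * T i)) = T i := by
    rw [Measure.real, Real.volume_Icc, ENNReal.toReal_ofReal (by linarith)]
    ring
  have hfin : ∀ E : Set ℝ, volume (E ∩ Icc (T i) (2 * T i)) ≠ ⊤ := fun E => dn_fin T i E
  have hsplit : ∀ E : Set ℝ, MeasurableSet E → volume.real (E ∩ Icc (T i) (2 * T i)) =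
      T i - volume.real {t | t ∈ Icc (T i) (2 * T i) ∧ ¬ t ∈ E} := by
    intro E hE
    have e1 : volume.real (Icc (T i) (2 * T i) ∩ E) + volume.real (Icc (T i) (2 * T i) \ E) =
        volume.real (Icc (T i) (2 * T i)) :=
      measureReal_inter_add_diff hE (by rw [Real.volume_Icc]; exact ENNReal.ofReal_ne_top)
    rw [hI, inter_comm] at e1
    have e2 : {t | t ∈ Icc (T i) (2 * T i) ∧ ¬ t ∈ E} = Icc (T i) (2 * T i) \ E := rfl
    rw [e2]
    linarith
  have sA := hsplit A hAm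
  have sB := hsplit B hBm
  have eA : {t | t ∈ Icc (T i) (2 * T i) ∧ ¬ t ∈ A} = {t | t ∈ Icc (T i) (2 * T i) ∧
      ¬ (1 / (n : ℝ) < Zv a (T i) t ∧ Zv a (T i) t < n + 1)} := rfl
  have eB : {t | t ∈ Icc (T i) (2 * T i) ∧ ¬ t ∈ B} = {t | t ∈ Icc (T i) (2 * T i) ∧
      ¬ (-(n + 1 : ℝ) < Zv a (T i) t ∧ Zv a (T i) t < -(1 / (n : ℝ)))} := rfl
  rw [eA] at sA
  rw [eB] at sB
  have mA : gs.real (Ioo (1 / (n : ℝ)) n) ≤ gs.real (Ioo (1 / (n : ℝ)) (n + 1)) :=
    measureReal_mono (Ioo_subset_Ioo le_rfl (by linarith)) (measure_ne_top _ _)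
  have mB : gs.real (Ioo (-(n : ℝ)) (-(1 / (n : ℝ)))) ≤
      gs.real (Ioo (-(n + 1 : ℝ)) (-(1 / (n : ℝ)))) :=
    measureReal_mono (Ioo_subset_Ioo (by linarith) le_rfl) (measure_ne_top _ _)
  have hn' : (0 : ℝ) < 1 / (n : ℝ) := by positivity
  have hdisj : Disjoint (A ∩ Icc (T i) (2 * T i)) (B ∩ Icc (T i) (2 * T i)) := by
    rw [Set.disjoint_left]
    rintro t ⟨⟨a1, a2⟩, _⟩ ⟨⟨b1, b2⟩, _⟩
    linarith
  have hunion : volume.real (A ∩ Icc (T i) (2 * T i)) + volume.real (B ∩ Icc (T i) (2 * T i)) =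
      volume.real ((A ∩ Icc (T i) (2 * T i)) ∪ (B ∩ Icc (T i) (2 * T i))) :=
    (measureReal_union hdisj (hBm.inter measurableSet_Icc) (hfin A) (hfin B)).symm
  have hsub : (A ∩ Icc (T i) (2 * T i)) ∪ (B ∩ Icc (T i) (2 * T i)) ⊆
      {t | K < |(NZ (t + hh T i a) : ℝ) - NZ t - a|} ∩ Icc (T i) (2 * T i) := by
    have hs0 : 0 < Real.sqrt (Real.log a) := by
      have : 0 ≤ Real.pi * |K| * n := by positivity
      linarith
    have key : ∀ t, 1 / (n : ℝ) < |Zv a (T i) t| →
        K < |(NZ (t + hh T i a) : ℝ) - NZ t - a| := by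
      intro t ht
      have e1 : |Zv a (T i) t| = Real.pi * |(NZ (t + hh T i a) : ℝ) - NZ t - a| /
          Real.sqrt (Real.log a) := by
        unfold Pool.Agent.Y743.CL.Zv hh
        rw [abs_div, abs_mul, abs_of_pos hpi, abs_of_pos hs0, ← abs_neg, neg_sub]
      rw [e1, lt_div_iff₀ hs0] at ht
      by_contra hcon
      push Not at hcon
      have h3 : Real.pi * |(NZ (t + hh T i a) : ℝ) - NZ t - a| ≤ Real.pi * |K| :=
        mul_le_mul_of_nonneg_left (hcon.trans (le_abs_self K)) hpi.le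
      have h4 : 1 / (n : ℝ) * Real.sqrt (Real.log a) ≥ 1 / (n : ℝ) * (Real.pi * |K| * n + 1) :=
        mul_le_mul_of_nonneg_left ha1 hn'.le
      have h5 : 1 / (n : ℝ) * (Real.pi * |K| * n + 1) = Real.pi * |K| + 1 / n := by
        field_simp
      linarith
    rintro t (⟨⟨a1, a2⟩, a3⟩ | ⟨⟨a1, a2⟩, a3⟩)
    · exact ⟨key t (a1.trans_le (le_abs_self _)), a3⟩
    · refine ⟨key t ?_, a3⟩
      rw [abs_of_neg (by linarith)]
      linarith
  have hfinal := measureReal_mono (μ := volume) hsub (hfin _)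
  unfold dn
  rw [le_div_iff₀ (by linarith)]
  have hT0 : 0 < T i := by linarith
  have h8 : (3 / 4 - 1 / 4) * T i ≤ (gs.real (Ioo (1 / (n : ℝ)) (n + 1)) +
      gs.real (Ioo (-(n + 1 : ℝ)) (-(1 / (n : ℝ)))) - 1 / 4) * T i := by
    apply mul_le_mul_of_nonneg_right _ hT0.le
    linarith
  have h9 : volume.real ({t | K < |(NZ (t + hh T i a) : ℝ) - NZ t - a|} ∩ Icc (T i) (2 * T i)) =
      (volume ({t | K < |(NZ (t + hh T i a) : ℝ) - NZ t - a|} ∩ Icc (T i) (2 * T i))).toReal := rfl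
  rw [← h9]
  linarith

/-- the ordinates satisfy the hypotheses -/
theorem data' {T : ℕ → ℝ} (hTt : Tendsto T atTop atTop)
    (hT10 : ∀ i, 10 ≤ T i) (h1 : ∀ i, 1 ≤ NZ (T i)) (V : ℝ[X]) :
    DataT T NZ (fun i => yv (T i)) V where
  hT10 := hT10
  hTt := hTt
  hν := SG.NZ_mono
  sand := by
    intro i t ht _
    have hpi := Real.pi_pos
    have hL : 0 < Real.log (T i) := Real.log_pos (by linarith [hT10 i])
    have hn : 1 ≤ NZ t := (h1 i).trans (SG.NZ_mono ht)
    unfold yv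
    refine ⟨mul_le_mul_of_nonneg_right ((SG.ord_le_iff hn t).mpr le_rfl) (by positivity),
      mul_lt_mul_of_pos_right ?_ (by positivity)⟩
    by_contra hcon
    push Not at hcon
    have := (SG.ord_le_iff (by omega) t).mp hcon
    omega
  tight := by
    intro η hη
    have hT : ∀ i, 0 < T i := fun i => by linarith [hT10 i]
    have hg := gap_tight' hTt hT10 h1
    have hg2 := hg.act hT V
    obtain ⟨K1, hK1, t1⟩ := hg (η / 3) (by positivity)
    obtain ⟨K2, hK2, t2⟩ := hg2 (η / 3) (by positivity)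
    refine ⟨K1 + K2, by positivity, fun a ha => ?_⟩
    filter_upwards [t1 0, t2 0, hh_div hTt hT10 a (by positivity : 0 < η / 3)] with i g1 g2 g3
    simp only [add_zero] at g1 g2
    have s1 := dn_shift hT i {t | K1 + K2 ≤ |Lam V (yv (T i)) (NZ t)|} (hh_nonneg hT10 i ha)
    have s2 : dn T i {t | K1 + K2 ≤ |Lam V (yv (T i)) (NZ t)|} ≤ η / 3 + η / 3 := by
      refine (dn_mono hT i (F := {t | K1 ≤ |dif (yv (T i)) (NZ t)|} ∪
        {t | K2 ≤ |act V (dif (yv (T i))) (NZ t)|}) fun t _ _ ht => ?_).trans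
        ((dn_union hT i _ _).trans (add_le_add g1 g2))
      have ht : K1 + K2 ≤ |Lam V (yv (T i)) (NZ t)| := ht
      by_contra hcon
      rw [mem_union, not_or] at hcon
      have a1 : |dif (yv (T i)) (NZ t)| < K1 := not_le.mp hcon.1
      have a2 : |act V (dif (yv (T i))) (NZ t)| < K2 := not_le.mp hcon.2
      rw [abs_of_nonneg (Lam_nonneg _ _ _)] at ht
      unfold Lam at ht
      linarith
    have s3 : dn T i {t | K1 + K2 ≤ |Lam V (yv (T i)) (NZ (t + hh T i a))|} ≤ η := by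
      refine le_trans ?_ (le_trans (s1.trans (add_le_add s2 g3)) (by linarith))
      exact le_of_eq rfl
    exact s3
  var := var_seq hTt hT10
  anti := anti_seq hTt hT10

end Pool.Agent.R846.UL
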