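import Pool.Agent.R846.UL.Poly

/-! # A run of a recurrent sequence is close to an arithmetic progression: deterministic form -/

set_option autoImplicit false

open Polynomial Filter Topology

namespace Pool.Agent.R846.UL

open Pool.Agent.Y743.LR

/-- the sum of the absolute values of the coefficients -/
noncomputable def nrm (p : ℝ[X]) : ℝ := ∑ j ∈ p.support, |p.coeff j|

lemma nrm_nonneg (p : ℝ[X]) : 0 ≤ nrm p := Finset.sum_nonneg fun _ _ => abs_nonneg _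

lemma act_bound (p : ℝ[X]) (f : ℕ → ℝ) (n : ℕ) {B : ℝ}
    (h : ∀ j ≤ p.natDegree, |f (n + j)| ≤ B) : |act p f n| ≤ nrm p * B := by
  rw [act_apply]
  refine (Finset.abs_sum_le_sum_abs _ _).trans ?_
  unfold nrm
  rw [Finset.sum_mul]
  refine Finset.sum_le_sum fun j hj => ?_
  rw [abs_mul]
  exact mul_le_mul_of_nonneg_left (h j (le_natDegree_of_mem_supp _ hj)) (abs_nonneg _)

/-- the data of level `M` of a polynomial -/
def Lev (M : ℕ) (c : ℝ[X]) : Prop := ∃ (s : ℕ) (P V W : ℝ[X]),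
  (∀ y : ℕ → ℝ, ∀ n, act P y n = y n - act V (dif y) n) ∧
  (∀ y : ℕ → ℝ, act ((X - 1) ^ (s + 2)) (act P y) = act W (act c (dif y))) ∧
  s ≤ M ∧ V.natDegree ≤ M ∧ nrm V ≤ M ∧ W.natDegree ≤ M ∧ nrm W ≤ M

lemma exists_lev {c : ℝ[X]} (hc : c ≠ 0) : ∃ M : ℕ, Lev M c := by
  obtain ⟨s, P, V, W, h1, h2⟩ := decomp c hc
  obtain ⟨a, ha⟩ := exists_nat_ge (nrm V)
  obtain ⟨b, hb⟩ := exists_nat_ge (nrm W)
  refine ⟨s + V.natDegree + a + W.natDegree + b, s, P, V, W, h1, h2, by omega, by omega, ?_,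
    by omega, ?_⟩
  · refine ha.trans ?_
    exact_mod_cast (by omega : a ≤ s + V.natDegree + a + W.natDegree + b)
  · refine hb.trans ?_
    exact_mod_cast (by omega : b ≤ s + V.natDegree + a + W.natDegree + b)

lemma act_shift (p : ℝ[X]) (f : ℕ → ℝ) (n j : ℕ) :
    act p (fun i => f (n + i)) j = act p f (n + j) := by
  rw [act_apply, act_apply]
  refine Finset.sum_congr rfl fun i _ => ?_
  rw [add_assoc]

/-- the iterated differences of `G n - G 0 - n` -/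
lemma act_centre (s : ℕ) (G : ℕ → ℝ) (n : ℕ) (A : ℝ) (j : ℕ) :
    act ((X - 1) ^ (s + 2)) (fun i => G (n + i) - A - i) j = act ((X - 1) ^ (s + 2)) G (n + j) := by
  have e1 : ((X - 1 : ℝ[X]) ^ (s + 2)) = (X - 1) ^ s * ((X - 1) * (X - 1)) := by ring
  rw [e1, act_mul, act_mul, act_X_sub_one, act_X_sub_one, act_mul, act_mul, act_X_sub_one,
    act_X_sub_one]
  have e2 : dif (dif fun i : ℕ => G (n + i) - A - i) = fun i => dif (dif G) (n + i) := by
    funext i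
    unfold dif
    push_cast
    have : n + (i + 1 + 1) = n + i + 1 + 1 := by ring
    rw [this, show n + (i + 1) = n + i + 1 by ring]
    ring
  rw [e2, act_shift]

/-- **deterministic form** -/
theorem det (M : ℕ) : ∃ C : ℝ, 0 < C ∧ ∀ c : ℝ[X], Lev M c →
    ∀ (y : ℕ → ℝ) (n m H cc : ℕ) (K δ e x a : ℝ), 1 ≤ m → H ≤ m → cc ≤ H → 0 ≤ K → 0 ≤ e → 0 ≤ δ →
    (∀ j < M + 2, ∀ l ≤ M, |dif y (n + j * m + l)| ≤ K) →
    (∀ l ≤ M, |dif y (n + cc + l)| ≤ K) →
    (∀ j < M + 2, |y (n + j * m) - y n - (j * m : ℕ)| ≤ δ * m) →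
    (∀ q ≤ (M + 2) * m + M, |act c (dif y) (n + q)| ≤ e) →
    y n ≤ x → x < y (n + 1) → y (n + cc) ≤ x + a → x + a < y (n + cc + 1) →
    |(cc : ℝ) - a| ≤ 2 * K + 2 * (M * K) +
      (C * ((H : ℝ) / m) * (δ * m + 2 * (M * K) + 3 ^ ((M + 2) * m) * (M * e)) +
        3 ^ ((M + 2) * m) * (M * e)) := by
  classical
  have hCs : ∀ s : ℕ, ∃ C : ℝ, 0 < C ∧ ∀ F : ℕ → ℝ, F 0 = 0 → ∀ m : ℕ, 1 ≤ m →
    ∀ E e : ℝ, 0 ≤ e → (∀ j < s + 2, |F (j * m)| ≤ E) →
    (∀ j ≤ (s + 2) * m, |act ((X - 1) ^ (s + 2)) F j| ≤ e) →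
    ∀ u ≤ m, |F u| ≤ C * (u / m) * (E + 3 ^ ((s + 2) * m) * e) + 3 ^ ((s + 2) * m) * e :=
    fun s => seq_small (s + 2) (by omega)
  choose Cs hC0 hCs using hCs
  refine ⟨∑ s ∈ Finset.range (M + 1), Cs s, Finset.sum_pos (fun s _ => hC0 s) ⟨0, by simp⟩, ?_⟩
  intro c hlev y n m H cc K δ e x a hm hHm hcH hK he hδ hg1 hg2 hdev hrel hx1 hx2 hx3 hx4
  obtain ⟨s, P, V, W, hP, hW, hs, hVd, hVn, hWd, hWn⟩ := hlev
  set G : ℕ → ℝ := act P y with hG
  set F : ℕ → ℝ := fun i => G (n + i) - G n - i with hF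
  have hVK : nrm V * K ≤ M * K := mul_le_mul_of_nonneg_right hVn hK
  have hact1 : ∀ j < M + 2, |act V (dif y) (n + j * m)| ≤ M * K := fun j hj =>
    (act_bound V (dif y) _ fun l hl => hg1 j hj l (hl.trans hVd)).trans hVK
  have hact0 : |act V (dif y) n| ≤ M * K := by
    have := hact1 0 (by omega)
    simpa using this
  have hact2 : |act V (dif y) (n + cc)| ≤ M * K :=
    (act_bound V (dif y) _ fun l hl => hg2 l (hl.trans hVd)).trans hVK
  have hF0 : F 0 = 0 := by simp [hF]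
  have hFE : ∀ j < s + 2, |F (j * m)| ≤ δ * m + 2 * (M * K) := by
    intro j hj
    have e1 : F (j * m) = (y (n + j * m) - y n - (j * m : ℕ)) -
        (act V (dif y) (n + j * m) - act V (dif y) n) := by
      simp only [hF, hG, hP]
      ring
    rw [e1]
    have a1 := hdev j (by omega)
    have a2 := hact1 j (by omega)
    refine (abs_sub _ _).trans ?_
    have a3 : |act V (dif y) (n + j * m) - act V (dif y) n| ≤ M * K + M * K :=
      (abs_sub _ _).trans (add_le_add a2 hact0)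
    linarith
  have hM0 : (0 : ℝ) ≤ M := Nat.cast_nonneg M
  have hFd : ∀ j ≤ (s + 2) * m, |act ((X - 1) ^ (s + 2)) F j| ≤ M * e := by
    intro j hj
    rw [hF, act_centre, hG, hW]
    refine (act_bound W _ _ (B := e) fun l hl => ?_).trans (mul_le_mul_of_nonneg_right hWn he)
    rw [add_assoc]
    apply hrel
    have h1 : (s + 2) * m ≤ (M + 2) * m := Nat.mul_le_mul_right _ (by omega)
    omega
  have h1 := hCs s F hF0 m hm _ _ (mul_nonneg hM0 he) hFE hFd cc (hcH.trans hHm)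
  have hm0 : (0 : ℝ) < m := by exact_mod_cast hm
  have hpow : (3 : ℝ) ^ ((s + 2) * m) ≤ 3 ^ ((M + 2) * m) :=
    pow_le_pow_right₀ (by norm_num) (Nat.mul_le_mul_right _ (by omega))
  have hMe : 0 ≤ (M : ℝ) * e := mul_nonneg hM0 he
  have hCle : Cs s ≤ ∑ s ∈ Finset.range (M + 1), Cs s :=
    Finset.single_le_sum (f := Cs) (fun s _ => (hC0 s).le) (Finset.mem_range.mpr (by omega))
  have hfrac : (cc : ℝ) / m ≤ (H : ℝ) / m := by
    apply div_le_div_of_nonneg_right _ hm0.le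
    exact_mod_cast hcH
  have h2 : |F cc| ≤ (∑ s ∈ Finset.range (M + 1), Cs s) * ((H : ℝ) / m) *
      (δ * m + 2 * (M * K) + 3 ^ ((M + 2) * m) * (M * e)) + 3 ^ ((M + 2) * m) * (M * e) := by
    refine h1.trans ?_
    have b1 : (3 : ℝ) ^ ((s + 2) * m) * (M * e) ≤ 3 ^ ((M + 2) * m) * (M * e) :=
      mul_le_mul_of_nonneg_right hpow hMe
    have b2 : 0 ≤ δ * m + 2 * (M * K) + 3 ^ ((s + 2) * m) * (M * e) := by positivity
    have b3 : 0 ≤ (cc : ℝ) / m := by positivity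
    have b4 : Cs s * ((cc : ℝ) / m) ≤ (∑ s ∈ Finset.range (M + 1), Cs s) * ((H : ℝ) / m) :=
      mul_le_mul hCle hfrac b3 ((hC0 s).le.trans hCle)
    have b5 : 0 ≤ (∑ s ∈ Finset.range (M + 1), Cs s) * ((H : ℝ) / m) :=
      mul_nonneg ((hC0 s).le.trans hCle) (by positivity)
    have b6 : Cs s * ((cc : ℝ) / m) * (δ * m + 2 * (M * K) + 3 ^ ((s + 2) * m) * (M * e)) ≤
        (∑ s ∈ Finset.range (M + 1), Cs s) * ((H : ℝ) / m) *
          (δ * m + 2 * (M * K) + 3 ^ ((M + 2) * m) * (M * e)) :=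
      mul_le_mul b4 (by linarith) b2 b5
    linarith
  -- the count
  have g1 : |dif y n| ≤ K := by
    have := hg1 0 (by omega) 0 (by omega)
    simpa using this
  have g2 : |dif y (n + cc)| ≤ K := by
    have := hg2 0 (by omega)
    simpa using this
  have e1 : F cc = (y (n + cc) - y n) - (act V (dif y) (n + cc) - act V (dif y) n) - cc := by
    simp only [hF, hG, hP]
    ring
  have d1 : dif y n = y (n + 1) - y n := rfl
  have d2 : dif y (n + cc) = y (n + cc + 1) - y (n + cc) := rfl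
  obtain ⟨p1, p2⟩ := abs_le.mp h2
  obtain ⟨p3, p4⟩ := abs_le.mp hact0
  obtain ⟨p5, p6⟩ := abs_le.mp hact2
  obtain ⟨p7, p8⟩ := abs_le.mp g1
  obtain ⟨p9, p10⟩ := abs_le.mp g2
  rw [abs_le]
  constructor <;> linarith

end Pool.Agent.R846.UL
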