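import Pool.Agent.R846.UL.Det

/-! # A run of a recurrent sequence is close to an arithmetic progression: index form -/

set_option autoImplicit false

open Polynomial Filter Topology

namespace Pool.Agent.R846.UL

open Pool.Agent.Y743.LR

/-- **deterministic form**, index version -/
theorem detI (M : ℕ) : ∃ C : ℝ, 0 < C ∧ ∀ c : ℝ[X], Lev M c →
    ∀ (y : ℕ → ℝ) (n m H : ℕ) (K δ e : ℝ), 1 ≤ m → H ≤ m → 0 ≤ K → 0 ≤ e → 0 ≤ δ →
    (∀ j < M + 2, ∀ l ≤ M, |dif y (n + j * m + l)| ≤ K) →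
    (∀ l ≤ M, |dif y (n + H + l)| ≤ K) →
    (∀ j < M + 2, |y (n + j * m) - y n - (j * m : ℕ)| ≤ δ * m) →
    (∀ q ≤ (M + 2) * m + M, |act c (dif y) (n + q)| ≤ e) →
    |y (n + H) - y n - H| ≤ 2 * (M * K) +
      (C * ((H : ℝ) / m) * (δ * m + 2 * (M * K) + 3 ^ ((M + 2) * m) * (M * e)) +
        3 ^ ((M + 2) * m) * (M * e)) := by
  classical
  have hCs : ∀ s : ℕ, ∃ C : ℝ, 0 < C ∧ ∀ F : ℕ → ℝ, F 0 = 0 → ∀ m : ℕ, 1 ≤ m →
    ∀ E e : ℝ, 0 ≤ e → (∀ j < s + 2, |F (j * m)| ≤ E) →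
    (∀ j ≤ (s + 2) * m, |act ((X - 1) ^ (s + 2)) F j| ≤ e) →
    ∀ u ≤ m, |F u| ≤ C * (u / m) * (E + 3 ^ ((s + 2) * m) * e) + 3 ^ ((s + 2) * m) * e :=
    fun s => seq_small (s + 2) (by omega)
  choose Cs hC0 hCs using hCs
  refine ⟨∑ s ∈ Finset.range (M + 1), Cs s, Finset.sum_pos (fun s _ => hC0 s) ⟨0, by simp⟩, ?_⟩
  intro c hlev y n m H K δ e hm hHm hK he hδ hg1 hg2 hdev hrel
  obtain ⟨s, P, V, W, hP, hW, hs, hVd, hVn, hWd, hWn⟩ := hlev
  set G : ℕ → ℝ := act P y with hG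
  set F : ℕ → ℝ := fun i => G (n + i) - G n - i with hF
  have hVK : nrm V * K ≤ M * K := mul_le_mul_of_nonneg_right hVn hK
  have hact1 : ∀ j < M + 2, |act V (dif y) (n + j * m)| ≤ M * K := fun j hj =>
    (act_bound V (dif y) _ fun l hl => hg1 j hj l (hl.trans hVd)).trans hVK
  have hact0 : |act V (dif y) n| ≤ M * K := by
    have := hact1 0 (by omega)
    simpa using this
  have hact2 : |act V (dif y) (n + H)| ≤ M * K :=
    (act_bound V (dif y) _ fun l hl => hg2 l (hl.trans hVd)).trans hVK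
  have hF0 : F 0 = 0 := by simp [hF]
  have hFE : ∀ j < s + 2, |F (j * m)| ≤ δ * m + 2 * (M * K) := by
    intro j hj
    have e1 : F (j * m) = (y (n + j * m) - y n - (j * m : ℕ)) -
        (act V (dif y) (n + j * m) - act V (dif y) n) := by
      simp only [hF, hG, hP]
      ring
    rw [e1]
    have a1 := hdev j (by omega)
    have a2 := hact1 j (by omega)
    refine (abs_sub _ _).trans ?_
    have a3 : |act V (dif y) (n + j * m) - act V (dif y) n| ≤ M * K + M * K :=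
      (abs_sub _ _).trans (add_le_add a2 hact0)
    linarith
  have hM0 : (0 : ℝ) ≤ M := Nat.cast_nonneg M
  have hFd : ∀ j ≤ (s + 2) * m, |act ((X - 1) ^ (s + 2)) F j| ≤ M * e := by
    intro j hj
    rw [hF, act_centre, hG, hW]
    refine (act_bound W _ _ (B := e) fun l hl => ?_).trans (mul_le_mul_of_nonneg_right hWn he)
    rw [add_assoc]
    apply hrel
    have h1 : (s + 2) * m ≤ (M + 2) * m := Nat.mul_le_mul_right _ (by omega)
    omega
  have h1 := hCs s F hF0 m hm _ _ (mul_nonneg hM0 he) hFE hFd H hHm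
  have hm0 : (0 : ℝ) < m := by exact_mod_cast hm
  have hpow : (3 : ℝ) ^ ((s + 2) * m) ≤ 3 ^ ((M + 2) * m) :=
    pow_le_pow_right₀ (by norm_num) (Nat.mul_le_mul_right _ (by omega))
  have hMe : 0 ≤ (M : ℝ) * e := mul_nonneg hM0 he
  have hCle : Cs s ≤ ∑ s ∈ Finset.range (M + 1), Cs s :=
    Finset.single_le_sum (f := Cs) (fun s _ => (hC0 s).le) (Finset.mem_range.mpr (by omega))
  have h2 : |F H| ≤ (∑ s ∈ Finset.range (M + 1), Cs s) * ((H : ℝ) / m) *
      (δ * m + 2 * (M * K) + 3 ^ ((M + 2) * m) * (M * e)) + 3 ^ ((M + 2) * m) * (M * e) := by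
    refine h1.trans ?_
    have b1 : (3 : ℝ) ^ ((s + 2) * m) * (M * e) ≤ 3 ^ ((M + 2) * m) * (M * e) :=
      mul_le_mul_of_nonneg_right hpow hMe
    have b2 : 0 ≤ δ * m + 2 * (M * K) + 3 ^ ((s + 2) * m) * (M * e) := by positivity
    have b3 : 0 ≤ (H : ℝ) / m := by positivity
    have b4 : Cs s * ((H : ℝ) / m) ≤ (∑ s ∈ Finset.range (M + 1), Cs s) * ((H : ℝ) / m) :=
      mul_le_mul_of_nonneg_right hCle b3
    have b5 : 0 ≤ (∑ s ∈ Finset.range (M + 1), Cs s) * ((H : ℝ) / m) :=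
      mul_nonneg ((hC0 s).le.trans hCle) (by positivity)
    have b6 : Cs s * ((H : ℝ) / m) * (δ * m + 2 * (M * K) + 3 ^ ((s + 2) * m) * (M * e)) ≤
        (∑ s ∈ Finset.range (M + 1), Cs s) * ((H : ℝ) / m) *
          (δ * m + 2 * (M * K) + 3 ^ ((M + 2) * m) * (M * e)) :=
      mul_le_mul b4 (by linarith) b2 b5
    linarith
  have e1 : y (n + H) - y n - H = F H + (act V (dif y) (n + H) - act V (dif y) n) := by
    simp only [hF, hG, hP]
    ring
  rw [e1]
  have e2 : |act V (dif y) (n + H) - act V (dif y) n| ≤ M * K + M * K :=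
    (abs_sub _ _).trans (add_le_add hact2 hact0)
  refine (abs_add_le _ _).trans ?_
  linarith

end Pool.Agent.R846.UL
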