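import Pool.Agent.R846.UL.Data2
import Pool.Agent.R846.UL.Det

/-! # The exceptional sets of heights -/

set_option autoImplicit false

open Filter Topology MeasureTheory Set Polynomial ProbabilityTheory

namespace Pool.Agent.R846.UL

open SG (ord NZ)
open Pool.Agent.Y743.LR
open Pool.Agent.Y743.CL (gs Zv)

/-- the Gaussian measure sees two large symmetric intervals away from the origin -/
lemma gs_two' {η : ℝ} (hη : 0 < η) : ∃ n : ℕ, 1 ≤ n ∧ 1 - η ≤ gs.real (Ioo (1 / (n : ℝ)) n) +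
    gs.real (Ioo (-(n : ℝ)) (-(1 / (n : ℝ)))) := by
  have hm1 : Monotone fun n : ℕ => Ioo (1 / ((n : ℝ) + 1)) ((n : ℝ) + 1) := by
    intro m n hmn
    have h1 : (m : ℝ) ≤ n := by exact_mod_cast hmn
    have h2 : (0 : ℝ) ≤ m := Nat.cast_nonneg m
    apply Ioo_subset_Ioo
    · exact one_div_le_one_div_of_le (by linarith) (by linarith)
    · linarith
  have hm2 : Monotone fun n : ℕ => Ioo (-((n : ℝ) + 1)) (-(1 / ((n : ℝ) + 1))) := by
    intro m n hmn
    have h1 : (m : ℝ) ≤ n := by exact_mod_cast hmn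
    have h2 : (0 : ℝ) ≤ m := Nat.cast_nonneg m
    apply Ioo_subset_Ioo
    · linarith
    · have := one_div_le_one_div_of_le (by linarith : (0 : ℝ) < m + 1) (by linarith : (m : ℝ) + 1 ≤ n + 1)
      linarith
  have hU1 : ⋃ n : ℕ, Ioo (1 / ((n : ℝ) + 1)) ((n : ℝ) + 1) = Ioi 0 := by
    ext x
    simp only [mem_iUnion, mem_Ioo, mem_Ioi]
    constructor
    · rintro ⟨n, h1, _⟩
      have : (0 : ℝ) < 1 / ((n : ℝ) + 1) := by positivity
      linarith
    · intro hx
      obtain ⟨n, hn⟩ := exists_nat_gt (max (1 / x) x)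
      have h1 := (le_max_left _ _).trans_lt hn
      have h2 := (le_max_right _ _).trans_lt hn
      refine ⟨n, ?_, by linarith⟩
      rw [div_lt_iff₀ (by positivity)]
      rw [div_lt_iff₀ hx] at h1
      nlinarith
  have hU2 : ⋃ n : ℕ, Ioo (-((n : ℝ) + 1)) (-(1 / ((n : ℝ) + 1))) = Iio 0 := by
    ext x
    simp only [mem_iUnion, mem_Ioo, mem_Iio]
    constructor
    · rintro ⟨n, _, h1⟩
      have : (0 : ℝ) < 1 / ((n : ℝ) + 1) := by positivity
      linarith
    · intro hx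
      obtain ⟨n, hn⟩ := exists_nat_gt (max (1 / (-x)) (-x))
      have h1 := (le_max_left _ _).trans_lt hn
      have h2 := (le_max_right _ _).trans_lt hn
      refine ⟨n, by linarith, ?_⟩
      rw [div_lt_iff₀ (by linarith)] at h1
      have h3 : 1 / ((n : ℝ) + 1) < -x := by
        rw [div_lt_iff₀ (by positivity)]
        nlinarith
      linarith
  have t1 := tendsto_measure_iUnion_atTop (μ := gs) hm1
  have t2 := tendsto_measure_iUnion_atTop (μ := gs) hm2
  rw [hU1] at t1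
  rw [hU2] at t2
  have t1' := (ENNReal.tendsto_toReal (measure_ne_top gs (Ioi 0))).comp t1
  have t2' := (ENNReal.tendsto_toReal (measure_ne_top gs (Iio 0))).comp t2
  have hsum : (gs (Ioi 0)).toReal + (gs (Iio 0)).toReal = 1 := by
    have : NullSingletonClass gs := nullSingletonClass_gaussianReal (by norm_num)
    have h1 : gs (Ioi 0) + gs (Iio 0) = 1 := by
      have h2 : gs (Iio 0) = gs (Iic 0) := Iio_ae_eq_Iic.measure_eq
      rw [h2, add_comm, ← compl_Iic, measure_add_measure_compl measurableSet_Iic, measure_univ]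
    rw [← ENNReal.toReal_add (measure_ne_top _ _) (measure_ne_top _ _), h1, ENNReal.toReal_one]
  have t3 := t1'.add t2'
  rw [hsum] at t3
  obtain ⟨n, hn⟩ := (t3.eventually_const_le (by linarith : 1 - η < 1)).exists
  refine ⟨n + 1, by omega, ?_⟩
  simp only [Function.comp] at hn
  unfold Measure.real
  push_cast
  exact hn

/-- strong anti-concentration of the counts -/
lemma anti_seq' {T : ℕ → ℝ} (hTt : Tendsto T atTop atTop) (hT10 : ∀ i, 10 ≤ T i) (K : ℝ) {η : ℝ}
    (hη : 0 < η) : ∃ a : ℝ, 1 ≤ a ∧ ∀ᶠ i in atTop,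
      dn T i {t | |(NZ (t + hh T i a) : ℝ) - NZ t - a| ≤ K} ≤ η := by
  have hpi := Real.pi_pos
  obtain ⟨n, hn1, hn⟩ := gs_two' (by positivity : 0 < η / 2)
  have hn0 : (0 : ℝ) < n := by exact_mod_cast hn1
  have hn1' : (1 : ℝ) ≤ n := by exact_mod_cast hn1
  obtain ⟨R1, hR1, h1⟩ := Pool.Agent.Y743.CL.stat_clt 1 le_rfl (1 / (n : ℝ)) (n + 1) (η / 4)
    (by
      have : 1 / (n : ℝ) ≤ 1 := by rw [div_le_one hn0]; exact hn1'
      linarith) (by positivity)
  obtain ⟨R2, hR2, h2⟩ := Pool.Agent.Y743.CL.stat_clt 1 le_rfl (-(n + 1 : ℝ)) (-(1 / (n : ℝ))) (η / 4)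
    (by
      have : 1 / (n : ℝ) ≤ 1 := by rw [div_le_one hn0]; exact hn1'
      linarith) (by positivity)
  have hlog : Tendsto (fun a : ℝ => Real.sqrt (Real.log a)) atTop atTop :=
    Real.tendsto_sqrt_atTop.comp Real.tendsto_log_atTop
  obtain ⟨a, ha⟩ := ((hlog.eventually_ge_atTop (Real.pi * |K| * n + 1)).and
    ((eventually_ge_atTop R1).and (eventually_ge_atTop R2))).exists
  obtain ⟨ha1, ha2, ha3⟩ := ha
  have haR : 3 ≤ a := hR1.trans ha2
  refine ⟨a, by linarith, ?_⟩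
  filter_upwards [(Real.tendsto_log_atTop.comp hTt).eventually_ge_atTop (a * Real.log a)] with i hi
  have hi : a * Real.log a ≤ 1 * Real.log (T i) := by rw [one_mul]; exact hi
  have hTi : 10 ≤ T i := hT10 i
  have g1 := h1 a (T i) ha2 (by linarith) hi
  have g2 := h2 a (T i) ha3 (by linarith) hi
  set A : Set ℝ := {t | 1 / (n : ℝ) < Zv a (T i) t ∧ Zv a (T i) t < n + 1} with hA
  set B : Set ℝ := {t | -(n + 1 : ℝ) < Zv a (T i) t ∧ Zv a (T i) t < -(1 / (n : ℝ))} with hB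
  have hZ := Zv_meas' a (T i)
  have hAm : MeasurableSet A := (measurableSet_lt measurable_const hZ).inter
    (measurableSet_lt hZ measurable_const)
  have hBm : MeasurableSet B := (measurableSet_lt measurable_const hZ).inter
    (measurableSet_lt hZ measurable_const)
  have hI : volume.real (Icc (T i) (2 * T i)) = T i := by
    rw [Measure.real, Real.volume_Icc, ENNReal.toReal_ofReal (by linarith)]
    ring
  have hfin : ∀ E : Set ℝ, volume (E ∩ Icc (T i) (2 * T i)) ≠ ⊤ := fun E => dn_fin T i E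
  have hsplit : ∀ E : Set ℝ, MeasurableSet E → volume.real (E ∩ Icc (T i) (2 * T i)) =
      T i - volume.real {t | t ∈ Icc (T i) (2 * T i) ∧ ¬ t ∈ E} := by
    intro E hE
    have e1 : volume.real (Icc (T i) (2 * T i) ∩ E) + volume.real (Icc (T i) (2 * T i) \ E) =
        volume.real (Icc (T i) (2 * T i)) :=
      measureReal_inter_add_sdiff hE (by rw [Real.volume_Icc]; exact ENNReal.ofReal_ne_top)
    rw [hI, inter_comm] at e1
    have e2 : {t | t ∈ Icc (T i) (2 * T i) ∧ ¬ t ∈ E} = Icc (T i) (2 * T i) \ E := rfl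
    rw [e2]
    linarith
  have sA := hsplit A hAm
  have sB := hsplit B hBm
  have eA : {t | t ∈ Icc (T i) (2 * T i) ∧ ¬ t ∈ A} = {t | t ∈ Icc (T i) (2 * T i) ∧
      ¬ (1 / (n : ℝ) < Zv a (T i) t ∧ Zv a (T i) t < n + 1)} := rfl
  have eB : {t | t ∈ Icc (T i) (2 * T i) ∧ ¬ t ∈ B} = {t | t ∈ Icc (T i) (2 * T i) ∧
      ¬ (-(n + 1 : ℝ) < Zv a (T i) t ∧ Zv a (T i) t < -(1 / (n : ℝ)))} := rfl
  rw [eA] at sA
  rw [eB] at sB
  have mA : gs.real (Ioo (1 / (n : ℝ)) n) ≤ gs.real (Ioo (1 / (n : ℝ)) (n + 1)) :=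
    measureReal_mono (Ioo_subset_Ioo le_rfl (by linarith)) (measure_ne_top _ _)
  have mB : gs.real (Ioo (-(n : ℝ)) (-(1 / (n : ℝ)))) ≤
      gs.real (Ioo (-(n + 1 : ℝ)) (-(1 / (n : ℝ)))) :=
    measureReal_mono (Ioo_subset_Ioo (by linarith) le_rfl) (measure_ne_top _ _)
  have hn' : (0 : ℝ) < 1 / (n : ℝ) := by positivity
  have hdisj : Disjoint (A ∩ Icc (T i) (2 * T i)) (B ∩ Icc (T i) (2 * T i)) := by
    rw [Set.disjoint_left]
    rintro t ⟨⟨a1, a2⟩, _⟩ ⟨⟨b1, b2⟩, _⟩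
    linarith
  have hunion : volume.real (A ∩ Icc (T i) (2 * T i)) + volume.real (B ∩ Icc (T i) (2 * T i)) =
      volume.real ((A ∩ Icc (T i) (2 * T i)) ∪ (B ∩ Icc (T i) (2 * T i))) :=
    (measureReal_union hdisj (hBm.inter measurableSet_Icc) (hfin A) (hfin B)).symm
  set S : Set ℝ := {t | |(NZ (t + hh T i a) : ℝ) - NZ t - a| ≤ K} with hS
  have hs0 : 0 < Real.sqrt (Real.log a) := by
    have : 0 ≤ Real.pi * |K| * n := by positivity
    linarith
  have key : ∀ t, 1 / (n : ℝ) < |Zv a (T i) t| →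
      K < |(NZ (t + hh T i a) : ℝ) - NZ t - a| := by
    intro t ht
    have e1 : |Zv a (T i) t| = Real.pi * |(NZ (t + hh T i a) : ℝ) - NZ t - a| /
        Real.sqrt (Real.log a) := by
      unfold Pool.Agent.Y743.CL.Zv hh
      rw [abs_div, abs_mul, abs_of_pos hpi, abs_of_pos hs0, ← abs_neg, neg_sub]
    rw [e1, lt_div_iff₀ hs0] at ht
    by_contra hcon
    push Not at hcon
    have h3 : Real.pi * |(NZ (t + hh T i a) : ℝ) - NZ t - a| ≤ Real.pi * |K| :=
      mul_le_mul_of_nonneg_left (hcon.trans (le_abs_self K)) hpi.le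
    have h4 : 1 / (n : ℝ) * Real.sqrt (Real.log a) ≥ 1 / (n : ℝ) * (Real.pi * |K| * n + 1) :=
      mul_le_mul_of_nonneg_left ha1 hn'.le
    have h5 : 1 / (n : ℝ) * (Real.pi * |K| * n + 1) = Real.pi * |K| + 1 / n := by
      field_simp
    linarith
  have hSsub : S ∩ Icc (T i) (2 * T i) ⊆ Icc (T i) (2 * T i) \
      ((A ∩ Icc (T i) (2 * T i)) ∪ (B ∩ Icc (T i) (2 * T i))) := by
    rintro t ⟨ht1, ht2⟩
    refine ⟨ht2, ?_⟩
    have ht1 : |(NZ (t + hh T i a) : ℝ) - NZ t - a| ≤ K := ht1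
    rintro (⟨⟨a1, a2⟩, a3⟩ | ⟨⟨a1, a2⟩, a3⟩)
    · exact absurd ht1 (not_le.2 (key t (a1.trans_le (le_abs_self _))))
    · refine absurd ht1 (not_le.2 (key t ?_))
      rw [abs_of_neg (by linarith)]
      linarith
  have hUm : MeasurableSet ((A ∩ Icc (T i) (2 * T i)) ∪ (B ∩ Icc (T i) (2 * T i))) :=
    (hAm.inter measurableSet_Icc).union (hBm.inter measurableSet_Icc)
  have hUsub : (A ∩ Icc (T i) (2 * T i)) ∪ (B ∩ Icc (T i) (2 * T i)) ⊆ Icc (T i) (2 * T i) := by
    rintro t (h | h) <;> exact h.2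
  have hIfin : volume (Icc (T i) (2 * T i)) ≠ ⊤ := by
    rw [Real.volume_Icc]; exact ENNReal.ofReal_ne_top
  have hdiff : volume.real (Icc (T i) (2 * T i) \
      ((A ∩ Icc (T i) (2 * T i)) ∪ (B ∩ Icc (T i) (2 * T i)))) =
      T i - volume.real ((A ∩ Icc (T i) (2 * T i)) ∪ (B ∩ Icc (T i) (2 * T i))) := by
    rw [measureReal_sdiff hUsub hUm hIfin, hI]
  have hfinal := measureReal_mono (μ := volume) hSsub
    (measure_ne_top_of_subset sdiff_subset hIfin)
  unfold dn
  rw [div_le_iff₀ (by linarith)]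
  have hT0 : 0 < T i := by linarith
  have h8 : (1 - η / 2) * T i ≤ (gs.real (Ioo (1 / (n : ℝ)) (n + 1)) +
      gs.real (Ioo (-(n + 1 : ℝ)) (-(1 / (n : ℝ))))) * T i := by
    apply mul_le_mul_of_nonneg_right _ hT0.le
    linarith
  have h9 : volume.real (S ∩ Icc (T i) (2 * T i)) = (volume (S ∩ Icc (T i) (2 * T i))).toReal := rfl
  rw [← h9]
  linarith

/-- tightness of the gaps near `t` and near a translate of `t` -/
lemma tight_two {T : ℕ → ℝ} (hTt : Tendsto T atTop atTop) (hT10 : ∀ i, 10 ≤ T i)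
    (hn1 : ∀ i, 1 ≤ NZ (T i)) {η : ℝ} (hη : 0 < η) : ∃ K : ℝ, 0 < K ∧
      (∀ k : ℕ, ∀ᶠ i in atTop, dn T i {t | K ≤ |dif (yv (T i)) (NZ t + k)|} ≤ η) ∧
      (∀ a : ℝ, 0 ≤ a → ∀ k : ℕ, ∀ᶠ i in atTop,
        dn T i {t | K ≤ |dif (yv (T i)) (NZ (t + hh T i a) + k)|} ≤ η) := by
  have hT : ∀ i, 0 < T i := fun i => by linarith [hT10 i]
  obtain ⟨K, hK, h⟩ := gap_tight' hTt hT10 hn1 (η / 2) (by positivity)
  refine ⟨K, hK, fun k => ?_, fun a ha k => ?_⟩
  · filter_upwards [h k] with i hi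
    exact hi.trans (by linarith)
  · filter_upwards [h k, hh_div hTt hT10 a (by positivity : 0 < η / 2)] with i h1 h2
    have s1 := dn_shift hT i {t | K ≤ |dif (yv (T i)) (NZ t + k)|} (hh_nonneg hT10 i ha)
    have s2 : {t | t + hh T i a ∈ {t | K ≤ |dif (yv (T i)) (NZ t + k)|}} =
        {t | K ≤ |dif (yv (T i)) (NZ (t + hh T i a) + k)|} := rfl
    rw [s2] at s1
    linarith

/-- sandwich for a height -/
lemma sand_at {T t : ℝ} (hT : 1 < T) (hn : 1 ≤ NZ t) :
    yv T (NZ t) ≤ t * (Real.log T / (2 * Real.pi)) ∧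
      t * (Real.log T / (2 * Real.pi)) < yv T (NZ t + 1) := by
  have hpi := Real.pi_pos
  have hL : 0 < Real.log T := Real.log_pos hT
  unfold yv
  refine ⟨mul_le_mul_of_nonneg_right ((SG.ord_le_iff hn t).mpr le_rfl) (by positivity),
    mul_lt_mul_of_pos_right ?_ (by positivity)⟩
  by_contra hcon
  push Not at hcon
  have := (SG.ord_le_iff (by omega) t).mp hcon
  omega

/-- deviation of the `q`-th next ordinate -/
lemma dev {T : ℕ → ℝ} (hTt : Tendsto T atTop atTop) (hT10 : ∀ i, 10 ≤ T i)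
    (hn1 : ∀ i, 1 ≤ NZ (T i)) : ∃ C : ℝ, 0 < C ∧ ∀ (q : ℕ) (D : ℝ), 2 ≤ D → ∀ᶠ i in atTop,
      dn T i {t | D < |yv (T i) (NZ t + q) - yv (T i) (NZ t) - q|} ≤
        dn T i {t | D / 2 ≤ |dif (yv (T i)) (NZ t)|} +
          2 * ((C + q + D) / (D / 2) ^ 2) := by
  have hT : ∀ i, 0 < T i := fun i => by linarith [hT10 i]
  obtain ⟨C, hC, hv⟩ := var_seq hTt hT10
  refine ⟨C + 1, by positivity, fun q D hD => ?_⟩
  have hq0 : (0 : ℝ) ≤ q := Nat.cast_nonneg q
  set a1 : ℝ := q + D / 2 with ha1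
  set a2 : ℝ := max (q - D) 1 with ha2
  have h11 : 1 ≤ a1 := by rw [ha1]; linarith
  have h21 : 1 ≤ a2 := le_max_right _ _
  have h22 : a2 ≤ q + 1 := max_le (by linarith) (by linarith)
  have hlog : ∀ x : ℝ, 0 ≤ x → Real.log (1 + x) ≤ x := fun x hx => by
    have := Real.log_le_sub_one_of_pos (by linarith : 0 < 1 + x)
    linarith
  filter_upwards [hv a1 h11, hv a2 h21] with i v1 v2
  have hTi := hT i
  have hL : 0 < Real.log (T i) := Real.log_pos (by linarith [hT10 i])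
  have hpi := Real.pi_pos
  have hD2 : 0 < D / 2 := by linarith
  have b1 : dn T i {t | D / 2 ≤ |(NZ (t + hh T i a1) : ℝ) - NZ t - a1|} ≤
      (C + 1 + q + D) / (D / 2) ^ 2 := by
    refine (cheb SG.NZ_mono hT i (fun n m => (m : ℝ) - n - a1) (hh T i a1) hD2 v1).trans ?_
    apply div_le_div_of_nonneg_right _ (by positivity)
    have := hlog a1 (by linarith)
    rw [ha1] at this ⊢
    linarith
  have b2 : dn T i {t | D / 2 ≤ |(NZ (t + hh T i a2) : ℝ) - NZ t - a2|} ≤
      (C + 1 + q + D) / (D / 2) ^ 2 := by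
    refine (cheb SG.NZ_mono hT i (fun n m => (m : ℝ) - n - a2) (hh T i a2) hD2 v2).trans ?_
    apply div_le_div_of_nonneg_right _ (by positivity)
    have := hlog a2 (by linarith)
    linarith
  refine (dn_mono hT i (F := ({t | D / 2 ≤ |dif (yv (T i)) (NZ t)|} ∪
    {t | D / 2 ≤ |(NZ (t + hh T i a1) : ℝ) - NZ t - a1|}) ∪
    {t | D / 2 ≤ |(NZ (t + hh T i a2) : ℝ) - NZ t - a2|}) fun t ht1 ht2 ht => ?_).trans ?_
  · have ht : D < |yv (T i) (NZ t + q) - yv (T i) (NZ t) - q| := ht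
    by_contra hcon
    rw [mem_union, mem_union, not_or, not_or] at hcon
    obtain ⟨⟨c1, c2⟩, c3⟩ := hcon
    have c1 : |dif (yv (T i)) (NZ t)| < D / 2 := not_le.mp c1
    have c2 : |(NZ (t + hh T i a1) : ℝ) - NZ t - a1| < D / 2 := not_le.mp c2
    have c3 : |(NZ (t + hh T i a2) : ℝ) - NZ t - a2| < D / 2 := not_le.mp c3
    have hn : 1 ≤ NZ t := (hn1 i).trans (SG.NZ_mono ht1)
    obtain ⟨s1, s2⟩ := sand_at (by linarith [hT10 i] : 1 < T i) hn
    have d1 : dif (yv (T i)) (NZ t) = yv (T i) (NZ t + 1) - yv (T i) (NZ t) := rfl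
    obtain ⟨c4, c5⟩ := abs_lt.mp c1
    obtain ⟨c6, c7⟩ := abs_lt.mp c2
    obtain ⟨c8, c9⟩ := abs_lt.mp c3
    have hpos : 0 < Real.log (T i) / (2 * Real.pi) := by positivity
    have ex : ∀ a : ℝ, (t + hh T i a) * (Real.log (T i) / (2 * Real.pi)) =
        t * (Real.log (T i) / (2 * Real.pi)) + a := by
      intro a
      unfold hh; field_simp
    rcases lt_abs.mp ht with h | h
    · -- too long
      have h1 : (t + hh T i a1) * (Real.log (T i) / (2 * Real.pi)) < yv (T i) (NZ t + q) := by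
        rw [ex, ha1]; linarith
      have h2 : t + hh T i a1 < ord (NZ t + q) := by
        unfold yv at h1
        exact lt_of_mul_lt_mul_right h1 hpos.le
      have h3 : NZ (t + hh T i a1) < NZ t + q := by
        by_contra hge
        push Not at hge
        exact absurd ((SG.ord_le_iff (by omega) _).mpr hge) (not_le.mpr h2)
      have h4 : (NZ (t + hh T i a1) : ℝ) < NZ t + q := by exact_mod_cast h3
      have h5 : (NZ (t + hh T i a1) : ℝ) - NZ t - a1 < - (D / 2) := by rw [ha1]; linarith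
      linarith
    · -- too short
      have hmono : yv (T i) (NZ t) ≤ yv (T i) (NZ t + q) := by
        unfold yv
        exact mul_le_mul_of_nonneg_right (SG.ord_mono hn (Nat.le_add_right _ _)) hpos.le
      have hqD : D < q := by linarith
      have h1 : yv (T i) (NZ t + q) ≤ (t + hh T i a2) * (Real.log (T i) / (2 * Real.pi)) := by
        rw [ex]
        have := le_max_left ((q : ℝ) - D) 1
        rw [← ha2] at this
        linarith
      have h2 : ord (NZ t + q) ≤ t + hh T i a2 := by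
        unfold yv at h1
        exact le_of_mul_le_mul_right h1 hpos
      have h3 : NZ t + q ≤ NZ (t + hh T i a2) := (SG.ord_le_iff (by omega) _).mp h2
      have h4 : (NZ t : ℝ) + q ≤ NZ (t + hh T i a2) := by exact_mod_cast h3
      have h5 : a2 ≤ q - D / 2 := by
        rw [ha2]
        apply max_le <;> linarith
      linarith
  · refine (dn_union hT i _ _).trans ?_
    have e1 := dn_union hT i {t | D / 2 ≤ |dif (yv (T i)) (NZ t)|}
      {t | D / 2 ≤ |(NZ (t + hh T i a1) : ℝ) - NZ t - a1|}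
    linarith

end Pool.Agent.R846.UL
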