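import Pool.Agent.R846.UL.Ev

/-! # Almost no bounded run of ordinates satisfies a linear recurrence -/

set_option autoImplicit false

open Filter Topology MeasureTheory Set Polynomial

namespace Pool.Agent.R846.UL

open SG (ord NZ)
open Pool.Agent.Y743.LR

variable {T : ℕ → ℝ}

/-- the deviations at the multiples of a large number are relatively small -/
lemma dev_mult (hTt : Tendsto T atTop atTop) (hT10 : ∀ i, 10 ≤ T i) (hn1 : ∀ i, 1 ≤ NZ (T i))
    (A : ℕ) {δ η : ℝ} (hδ : 0 < δ) (hη : 0 < η) : ∃ m0 : ℕ, ∀ m : ℕ, m0 ≤ m → ∀ j ≤ A,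
      ∀ᶠ i in atTop, dn T i {t | δ * m < |yv (T i) (NZ t + j * m) - yv (T i) (NZ t) -
        (j * m : ℕ)|} ≤ η := by
  have hT : ∀ i, 0 < T i := fun i => by linarith [hT10 i]
  obtain ⟨C, hC, hd⟩ := dev hTt hT10 hn1
  obtain ⟨K, hK, ht, _⟩ := tight_two hTt hT10 hn1 (by positivity : 0 < η / 2)
  obtain ⟨m0, hm0⟩ := exists_nat_ge (max (max 1 (2 / δ)) (max (2 * K / δ)
    (16 * (C + A + δ) / (δ ^ 2 * η))))
  refine ⟨m0, fun m hm j hj => ?_⟩
  have hm' : max (max 1 (2 / δ)) (max (2 * K / δ) (16 * (C + A + δ) / (δ ^ 2 * η))) ≤ (m : ℝ) :=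
    hm0.trans (by exact_mod_cast hm)
  have m1 : (1 : ℝ) ≤ m := ((le_max_left _ _).trans (le_max_left _ _)).trans hm'
  have m2 : 2 / δ ≤ (m : ℝ) := ((le_max_right _ _).trans (le_max_left _ _)).trans hm'
  have m3 : 2 * K / δ ≤ (m : ℝ) := ((le_max_left _ _).trans (le_max_right _ _)).trans hm'
  have m4 : 16 * (C + A + δ) / (δ ^ 2 * η) ≤ (m : ℝ) :=
    ((le_max_right _ _).trans (le_max_right _ _)).trans hm'
  have hD : 2 ≤ δ * m := by
    rw [div_le_iff₀ hδ] at m2
    linarith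
  have hKD : K ≤ δ * m / 2 := by
    rw [div_le_iff₀ hδ] at m3
    linarith
  filter_upwards [hd (j * m) (δ * m) hD, ht 0] with i h1 h2
  refine h1.trans ?_
  simp only [add_zero] at h2
  have h3 : dn T i {t | δ * m / 2 ≤ |dif (yv (T i)) (NZ t)|} ≤ η / 2 :=
    (dn_mono hT i fun t _ _ ht => hKD.trans ht).trans h2
  have hjA : (j : ℝ) ≤ A := by exact_mod_cast hj
  have hj0 : (0 : ℝ) ≤ j := Nat.cast_nonneg j
  have h4 : 2 * ((C + (j * m : ℕ) + δ * m) / (δ * m / 2) ^ 2) ≤ η / 2 := by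
    have hm0' : (0 : ℝ) < m := by linarith
    have e1 : C + ((j * m : ℕ) : ℝ) + δ * m ≤ (C + A + δ) * m := by
      push_cast
      nlinarith
    have e2 : 2 * ((C + (j * m : ℕ) + δ * m) / (δ * m / 2) ^ 2) ≤
        2 * ((C + A + δ) * m / (δ * m / 2) ^ 2) := by
      apply mul_le_mul_of_nonneg_left _ (by norm_num)
      exact div_le_div_of_nonneg_right e1 (by positivity)
    refine e2.trans ?_
    have e3 : 2 * ((C + A + δ) * m / (δ * m / 2) ^ 2) = 8 * (C + A + δ) / (δ ^ 2 * m) := by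
      field_simp
      ring
    rw [e3, div_le_iff₀ (by positivity)]
    rw [div_le_iff₀ (by positivity)] at m4
    nlinarith
  linarith

/-- the level lemma -/
lemma level (hTt : Tendsto T atTop atTop) (hT10 : ∀ i, 10 ≤ T i) (hn1 : ∀ i, 1 ≤ NZ (T i))
    (k M : ℕ) {η : ℝ} (hη : 0 < η) : ∃ (L : ℕ) (ε ρ : ℝ), 0 < ε ∧ 0 < ρ ∧ ∀ᶠ i in atTop,
      ∃ Bad : Set ℝ, dn T i Bad ≤ η ∧ ∀ t, T i ≤ t → t ≤ 2 * T i → t ∉ Bad →
        ∀ c' : Fin k → ℝ, Lev M (pl c') → ∀ c : Fin k → ℝ, ‖c - c'‖ ≤ ρ →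
          ¬ (∀ q ≤ L, |act (pl c) (dif (yv (T i))) (NZ t + q)| ≤ ε) := by
  classical
  have hT : ∀ i, 0 < T i := fun i => by linarith [hT10 i]
  obtain ⟨C, hC, hdet⟩ := det M
  have hM0 : (0 : ℝ) ≤ M := Nat.cast_nonneg M
  -- the size of the gaps
  obtain ⟨K, hK, hK1, hK2⟩ := tight_two hTt hT10 hn1
    (by positivity : 0 < η / (8 * ((M + 2 : ℕ) * (M + 1 : ℕ))))
  set K' : ℝ := 2 * K + 2 * (M * K) + 1 with hK'
  obtain ⟨a, ha1, hanti⟩ := anti_seq' hTt hT10 K' (by positivity : 0 < η / 8)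
  have ha0 : 0 < a := by linarith
  obtain ⟨CV, hCV, hvar⟩ := var_seq hTt hT10
  obtain ⟨H, hH1, hH2⟩ : ∃ H : ℕ, a + 1 ≤ H ∧
      (CV + Real.log (1 + a)) / ((H : ℝ) - a) ^ 2 ≤ η / 8 := by
    have e1 : Tendsto (fun n : ℕ => (CV + Real.log (1 + a)) / ((n : ℝ) - a) ^ 2) atTop (𝓝 0) := by
      apply Tendsto.div_atTop tendsto_const_nhds
      apply (tendsto_pow_atTop two_ne_zero).comp
      exact tendsto_atTop_add_const_right _ _ tendsto_natCast_atTop_atTop
    obtain ⟨H, h1, h2⟩ := ((e1.eventually_le_const (by positivity : (0 : ℝ) < η / 8)).and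
      (tendsto_natCast_atTop_atTop.eventually_ge_atTop (a + 1))).exists
    exact ⟨H, h2, h1⟩
  have hH0 : (0 : ℝ) < H := by linarith
  set δ : ℝ := 1 / (8 * C * H) with hδ
  have hδ0 : 0 < δ := by positivity
  obtain ⟨m0, hm0⟩ := dev_mult hTt hT10 hn1 (M + 2) hδ0
    (by positivity : 0 < η / (8 * (M + 2 : ℕ)))
  obtain ⟨m1, hm1⟩ := exists_nat_ge (8 * C * H * (2 * (M * K) + 1))
  set m : ℕ := max (max m0 m1) (max H 1) with hm
  have hmm0 : m0 ≤ m := (le_max_left _ _).trans (le_max_left _ _)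
  have hmm1 : (m1 : ℝ) ≤ m := by
    exact_mod_cast (le_max_right _ _).trans (le_max_left _ _)
  have hmH : H ≤ m := (le_max_left _ _).trans (le_max_right _ _)
  have hm1' : 1 ≤ m := (le_max_right _ _).trans (le_max_right _ _)
  have hmpos : (0 : ℝ) < m := by exact_mod_cast hm1'
  set R : ℕ := (M + 2) * m + M + k + 1 with hR
  obtain ⟨Y, hY, hY1, _⟩ := tight_two hTt hT10 hn1
    (by positivity : 0 < η / (8 * (R + 1 : ℕ)))
  set e : ℝ := 1 / (2 * 3 ^ ((M + 2) * m) * (M + 1)) with he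
  have he0 : 0 < e := by positivity
  refine ⟨(M + 2) * m + M, e / 2, e / (2 * (k + 1) * Y), by positivity, by positivity, ?_⟩
  -- the exceptional sets
  have ev1 : ∀ j ∈ Finset.range (M + 2), ∀ l ∈ Finset.range (M + 1), ∀ᶠ i in atTop,
      dn T i {t | K ≤ |dif (yv (T i)) (NZ t + (j * m + l))|} ≤
        η / (8 * ((M + 2 : ℕ) * (M + 1 : ℕ))) := fun j _ l _ => hK1 _
  have ev2 : ∀ l ∈ Finset.range (M + 1), ∀ᶠ i in atTop,
      dn T i {t | K ≤ |dif (yv (T i)) (NZ (t + hh T i a) + l)|} ≤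
        η / (8 * ((M + 2 : ℕ) * (M + 1 : ℕ))) := fun l _ => hK2 a ha0.le _
  have ev3 : ∀ j ∈ Finset.range (M + 2), ∀ᶠ i in atTop,
      dn T i {t | δ * m < |yv (T i) (NZ t + j * m) - yv (T i) (NZ t) - (j * m : ℕ)|} ≤
        η / (8 * (M + 2 : ℕ)) := fun j hj => by
    rw [Finset.mem_range] at hj
    exact hm0 m hmm0 j (by omega)
  have ev5 : ∀ j ∈ Finset.range (R + 1), ∀ᶠ i in atTop,
      dn T i {t | Y ≤ |dif (yv (T i)) (NZ t + j)|} ≤ η / (8 * (R + 1 : ℕ)) := fun j _ => hY1 j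
  simp only [← Filter.eventually_all_finset] at ev1 ev2 ev3 ev5
  filter_upwards [ev1, ev2, ev3, ev5, hanti, hvar a ha1] with i h1 h2 h3 h5 h6 h4
  have hTi := hT i
  set B1 : Set ℝ := ⋃ j ∈ Finset.range (M + 2), ⋃ l ∈ Finset.range (M + 1),
    {t | K ≤ |dif (yv (T i)) (NZ t + (j * m + l))|} with hB1
  set B2 : Set ℝ := ⋃ l ∈ Finset.range (M + 1),
    {t | K ≤ |dif (yv (T i)) (NZ (t + hh T i a) + l)|} with hB2
  set B3 : Set ℝ := ⋃ j ∈ Finset.range (M + 2),
    {t | δ * m < |yv (T i) (NZ t + j * m) - yv (T i) (NZ t) - (j * m : ℕ)|} with hB3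
  set B4 : Set ℝ := {t | (H : ℝ) - a ≤ |(NZ (t + hh T i a) : ℝ) - NZ t - a|} with hB4
  set B5 : Set ℝ := ⋃ j ∈ Finset.range (R + 1), {t | Y ≤ |dif (yv (T i)) (NZ t + j)|} with hB5
  set B6 : Set ℝ := {t | |(NZ (t + hh T i a) : ℝ) - NZ t - a| ≤ K'} with hB6
  have d1 : dn T i B1 ≤ η / 8 := by
    refine (dn_biUnion hT i _ _).trans ?_
    calc ∑ j ∈ Finset.range (M + 2), dn T i (⋃ l ∈ Finset.range (M + 1),
          {t | K ≤ |dif (yv (T i)) (NZ t + (j * m + l))|}) ≤
        ∑ j ∈ Finset.range (M + 2), ∑ l ∈ Finset.range (M + 1),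
          η / (8 * ((M + 2 : ℕ) * (M + 1 : ℕ))) := Finset.sum_le_sum fun j hj =>
            (dn_biUnion hT i _ _).trans (Finset.sum_le_sum (h1 j hj))
      _ = η / 8 := by
        rw [Finset.sum_const, Finset.sum_const, Finset.card_range, Finset.card_range,
          nsmul_eq_mul, nsmul_eq_mul]
        push_cast
        field_simp
  have d2 : dn T i B2 ≤ η / 8 := by
    refine (dn_biUnion hT i _ _).trans ((Finset.sum_le_sum h2).trans ?_)
    rw [Finset.sum_const, Finset.card_range, nsmul_eq_mul]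
    have e1 : ((M + 1 : ℕ) : ℝ) * (η / (8 * ((M + 2 : ℕ) * (M + 1 : ℕ)))) =
        η / 8 * (1 / ((M + 2 : ℕ) : ℝ)) := by
      push_cast
      field_simp
    rw [e1]
    apply mul_le_of_le_one_right (by positivity)
    rw [div_le_one (by positivity)]
    exact_mod_cast (by omega : 1 ≤ M + 2)
  have d3 : dn T i B3 ≤ η / 8 := by
    refine (dn_biUnion hT i _ _).trans ((Finset.sum_le_sum h3).trans ?_)
    rw [Finset.sum_const, Finset.card_range, nsmul_eq_mul]
    apply le_of_eq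
    push_cast
    field_simp
  have d4 : dn T i B4 ≤ η / 8 :=
    (cheb SG.NZ_mono hT i (fun n m => (m : ℝ) - n - a) (hh T i a) (by linarith) h4).trans hH2
  have d5 : dn T i B5 ≤ η / 8 := by
    refine (dn_biUnion hT i _ _).trans ((Finset.sum_le_sum h5).trans ?_)
    rw [Finset.sum_const, Finset.card_range, nsmul_eq_mul]
    apply le_of_eq
    push_cast
    field_simp
  refine ⟨((((B1 ∪ B2) ∪ B3) ∪ B4) ∪ B5) ∪ B6, ?_, ?_⟩
  · refine (dn_union hT i _ _).trans ?_
    have u1 := dn_union hT i (((B1 ∪ B2) ∪ B3) ∪ B4) B5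
    have u2 := dn_union hT i ((B1 ∪ B2) ∪ B3) B4
    have u3 := dn_union hT i (B1 ∪ B2) B3
    have u4 := dn_union hT i B1 B2
    linarith
  intro t ht1 ht2 htB c' hlev c hcc' hrel
  simp only [mem_union, not_or] at htB
  obtain ⟨⟨⟨⟨⟨t1, t2⟩, t3⟩, t4⟩, t5⟩, t6⟩ := htB
  have s1 : ∀ j < M + 2, ∀ l ≤ M, |dif (yv (T i)) (NZ t + j * m + l)| ≤ K := by
    intro j hj l hl
    by_contra hcon
    push Not at hcon
    apply t1
    simp only [hB1, mem_iUnion]
    exact ⟨j, Finset.mem_range.mpr hj, l, Finset.mem_range.mpr (by omega), by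
      rw [add_assoc] at hcon; exact hcon.le⟩
  have s2 : ∀ l ≤ M, |dif (yv (T i)) (NZ (t + hh T i a) + l)| ≤ K := by
    intro l hl
    by_contra hcon
    push Not at hcon
    apply t2
    simp only [hB2, mem_iUnion]
    exact ⟨l, Finset.mem_range.mpr (by omega), hcon.le⟩
  have s3 : ∀ j < M + 2, |yv (T i) (NZ t + j * m) - yv (T i) (NZ t) - (j * m : ℕ)| ≤ δ * m := by
    intro j hj
    by_contra hcon
    push Not at hcon
    apply t3
    simp only [hB3, mem_iUnion]
    exact ⟨j, Finset.mem_range.mpr hj, hcon⟩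
  have s4 : |(NZ (t + hh T i a) : ℝ) - NZ t - a| < (H : ℝ) - a := not_le.mp t4
  have s5 : ∀ j ≤ R, |dif (yv (T i)) (NZ t + j)| ≤ Y := by
    intro j hj
    by_contra hcon
    push Not at hcon
    apply t5
    simp only [hB5, mem_iUnion]
    exact ⟨j, Finset.mem_range.mpr (by omega), hcon.le⟩
  have s6 : K' < |(NZ (t + hh T i a) : ℝ) - NZ t - a| := not_le.mp t6
  -- the relation for the centre
  have hrel' : ∀ q ≤ (M + 2) * m + M, |act (pl c') (dif (yv (T i))) (NZ t + q)| ≤ e := by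
    intro q hq
    have e1 : act (pl c') (dif (yv (T i))) (NZ t + q) = act (pl c) (dif (yv (T i))) (NZ t + q) -
        ∑ j : Fin k, (c j - c' j) * dif (yv (T i)) (NZ t + q + j) := by
      rw [act_pl, act_pl, ← Finset.sum_sub_distrib]
      refine Finset.sum_congr rfl fun j _ => ?_
      ring
    rw [e1]
    have e2 : |∑ j : Fin k, (c j - c' j) * dif (yv (T i)) (NZ t + q + j)| ≤ e / 2 := by
      refine (Finset.abs_sum_le_sum_abs _ _).trans ?_
      calc ∑ j : Fin k, |(c j - c' j) * dif (yv (T i)) (NZ t + q + j)| ≤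
          ∑ _j : Fin k, e / (2 * (k + 1) * Y) * Y := by
            refine Finset.sum_le_sum fun j _ => ?_
            rw [abs_mul]
            have f1 : |c j - c' j| ≤ e / (2 * (k + 1) * Y) := by
              have := norm_le_pi_norm (c - c') j
              rw [Pi.sub_apply, Real.norm_eq_abs] at this
              exact this.trans hcc'
            have f2 := s5 (q + j) (by have := j.2; omega)
            rw [← add_assoc] at f2
            exact mul_le_mul f1 f2 (abs_nonneg _) (by positivity)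
        _ = k * (e / (2 * (k + 1) * Y) * Y) := by
            rw [Finset.sum_const, Finset.card_univ, Fintype.card_fin, nsmul_eq_mul]
        _ = e / 2 * (k / (k + 1)) := by field_simp
        _ ≤ e / 2 := by
            apply mul_le_of_le_one_right (by positivity)
            rw [div_le_one (by positivity)]
            linarith
    have e3 := hrel q hq
    refine (abs_sub _ _).trans ?_
    linarith
  -- the count
  have hmono : NZ t ≤ NZ (t + hh T i a) := SG.NZ_mono (by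
    have := hh_nonneg hT10 i ha0.le
    linarith)
  obtain ⟨cc, hcc⟩ := Nat.exists_eq_add_of_le hmono
  have hccR : (NZ (t + hh T i a) : ℝ) - NZ t = cc := by rw [hcc]; push_cast; ring
  rw [hccR] at s4 s6
  have hccH : cc ≤ H := by
    have h7 := (abs_lt.mp s4).2
    have h8 : (cc : ℝ) < H := by linarith
    exact_mod_cast h8.le
  have hn : 1 ≤ NZ t := (hn1 i).trans (SG.NZ_mono ht1)
  obtain ⟨w1, w2⟩ := sand_at (by linarith [hT10 i] : 1 < T i) hn
  obtain ⟨w3, w4⟩ := sand_at (by linarith [hT10 i] : 1 < T i) (hn.trans hmono)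
  have hL : 0 < Real.log (T i) := Real.log_pos (by linarith [hT10 i])
  have hpi := Real.pi_pos
  have ex : (t + hh T i a) * (Real.log (T i) / (2 * Real.pi)) =
      t * (Real.log (T i) / (2 * Real.pi)) + a := by
    unfold hh; field_simp
  rw [ex, hcc] at w3 w4
  rw [hcc] at s2
  have hfin := hdet (pl c') hlev (yv (T i)) (NZ t) m H cc K δ e
    (t * (Real.log (T i) / (2 * Real.pi))) a hm1' hmH hccH hK.le he0.le hδ0.le s1 s2 s3 hrel'
    w1 w2 w3 w4
  have hpow : (3 : ℝ) ^ ((M + 2) * m) * (M * e) ≤ 1 / 2 := by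
    rw [he]
    have e1 : (3 : ℝ) ^ ((M + 2) * m) * (M * (1 / (2 * 3 ^ ((M + 2) * m) * (M + 1)))) =
        1 / 2 * (M / (M + 1)) := by field_simp
    rw [e1]
    apply mul_le_of_le_one_right (by norm_num)
    rw [div_le_one (by positivity)]
    linarith
  have hpow0 : 0 ≤ (3 : ℝ) ^ ((M + 2) * m) * (M * e) := by positivity
  have e1 : C * ((H : ℝ) / m) * (δ * m) = 1 / 8 := by
    rw [hδ]
    field_simp
  have e2 : C * ((H : ℝ) / m) * (2 * (M * K) + 3 ^ ((M + 2) * m) * (M * e)) ≤ 1 / 8 := by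
    have e3 : C * ((H : ℝ) / m) * (2 * (M * K) + 3 ^ ((M + 2) * m) * (M * e)) ≤
        C * ((H : ℝ) / m) * (2 * (M * K) + 1) := by
      apply mul_le_mul_of_nonneg_left (by linarith) (by positivity)
    refine e3.trans ?_
    have e4 : C * ((H : ℝ) / m) * (2 * (M * K) + 1) = C * H * (2 * (M * K) + 1) / m := by
      field_simp
    rw [e4, div_le_iff₀ hmpos]
    have e5 : 8 * C * H * (2 * (M * K) + 1) ≤ m := hm1.trans hmm1
    linarith
  have e3 : C * ((H : ℝ) / m) * (δ * m + 2 * (M * K) + 3 ^ ((M + 2) * m) * (M * e)) =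
      C * ((H : ℝ) / m) * (δ * m) +
        C * ((H : ℝ) / m) * (2 * (M * K) + 3 ^ ((M + 2) * m) * (M * e)) := by ring
  rw [e3, e1] at hfin
  have : |(cc : ℝ) - a| ≤ K' := by
    rw [hK']
    linarith
  exact absurd this (not_le.mpr s6)

end Pool.Agent.R846.UL
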