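import Pool.Agent.R846.UL.EvI

/-! # Almost no bounded run of ordinates satisfies a linear recurrence: index form -/

set_option autoImplicit false

open Filter Topology MeasureTheory Set Polynomial

namespace Pool.Agent.R846.UL

open SG (ord NZ)
open Pool.Agent.Y743.LR

/-- the density of the ordinates at the `n`-th one -/
noncomputable def lam (n : ℕ) : ℝ := Real.log (ord n / (2 * Real.pi)) / (2 * Real.pi)

lemma dif_lam (n : ℕ) : dif yy n = (ord (n + 1) - ord n) * lam n := by
  rw [dif_yy]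
  unfold Pool.Agent.R320.CL.dl lam
  ring

/-- on a run the density is almost constant -/
lemma lam_close (R : ℕ) {Y τ : ℝ} (hY : 0 < Y) (hτ : 0 < τ) : ∃ n1 : ℕ, 1 ≤ n1 ∧ ∀ n : ℕ,
    n1 ≤ n → (∀ j ≤ R, |dif yy (n + j)| ≤ Y) → 0 ≤ lam n ∧
    ∀ j ≤ R, |dif yy (n + j) - (ord (n + j + 1) - ord (n + j)) * lam n| ≤ τ := by
  have hpi := Real.pi_gt_three
  obtain ⟨n0, hn0⟩ := (ord_tendsto.eventually_ge_atTop
    (max (2 * Real.pi * Real.exp (2 * Real.pi)) (Y * (R * Y) / τ))).exists_forall_of_atTop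
  refine ⟨max n0 1, le_max_right _ _, fun n hn hg => ?_⟩
  have hn1 : 1 ≤ n := (le_max_right _ _).trans hn
  have hx := hn0 n ((le_max_left _ _).trans hn)
  have hx1 : 2 * Real.pi * Real.exp (2 * Real.pi) ≤ ord n := (le_max_left _ _).trans hx
  have hx2 : Y * (R * Y) / τ ≤ ord n := (le_max_right _ _).trans hx
  have hxpos : 0 < ord n := SG.ord_pos hn1
  have hlam : ∀ m, n ≤ m → 1 ≤ lam m := by
    intro m hm
    have h1 : ord n ≤ ord m := SG.ord_mono hn1 hm
    unfold lam
    rw [le_div_iff₀ (by positivity), one_mul, Real.le_log_iff_exp_le (by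
      have : 0 < ord m := hxpos.trans_le h1
      positivity), le_div_iff₀ (by positivity)]
    linarith
  have hgap : ∀ i ≤ R, ord (n + i + 1) - ord (n + i) ≤ Y := by
    intro i hi
    have h1 := hg i hi
    rw [dif_lam] at h1
    have h2 := hlam (n + i) (by omega)
    have h3 : 0 ≤ ord (n + i + 1) - ord (n + i) := by
      have := ord_step (n := n + i) (by omega)
      linarith
    have h4 := (abs_le.mp h1).2
    nlinarith
  have hspan : ∀ i ≤ R, ord (n + i) - ord n ≤ i * Y := by
    intro i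
    induction i with
    | zero => intro _; simp
    | succ i ih =>
      intro hi
      have h1 := ih (by omega)
      have h2 := hgap i (by omega)
      have e1 : n + (i + 1) = n + i + 1 := by ring
      rw [e1]
      push_cast
      linarith
  refine ⟨zero_le_one.trans (hlam n le_rfl), fun j hj => ?_⟩
  have h1 : ord (n + j) - ord n ≤ R * Y := by
    refine (hspan j hj).trans ?_
    apply mul_le_mul_of_nonneg_right _ hY.le
    exact_mod_cast hj
  have hmono : ord n ≤ ord (n + j) := SG.ord_mono hn1 (by omega)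
  have hpos' : 0 < ord (n + j) := hxpos.trans_le hmono
  have h2 : lam (n + j) - lam n ≤ (R * Y) / ord n := by
    unfold lam
    rw [← sub_div, ← Real.log_div (by positivity) (by positivity)]
    have e1 : ord (n + j) / (2 * Real.pi) / (ord n / (2 * Real.pi)) = ord (n + j) / ord n := by
      field_simp
    rw [e1]
    have h3 := Real.log_le_sub_one_of_pos (by positivity : 0 < ord (n + j) / ord n)
    have e2 : ord (n + j) / ord n - 1 = (ord (n + j) - ord n) / ord n := by field_simp
    rw [e2] at h3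
    have h4 : (ord (n + j) - ord n) / ord n ≤ (R * Y) / ord n :=
      div_le_div_of_nonneg_right h1 hxpos.le
    have h5 : 0 ≤ Real.log (ord (n + j) / ord n) := by
      apply Real.log_nonneg
      rw [le_div_iff₀ hxpos]
      linarith
    refine le_trans ?_ (h3.trans h4)
    exact div_le_self h5 (by linarith)
  have h3 : 0 ≤ lam (n + j) - lam n := by
    unfold lam
    rw [← sub_div]
    apply div_nonneg _ (by positivity)
    have : Real.log (ord n / (2 * Real.pi)) ≤ Real.log (ord (n + j) / (2 * Real.pi)) :=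
      Real.log_le_log (by positivity) (div_le_div_of_nonneg_right hmono (by positivity))
    linarith
  have h4 : 0 ≤ ord (n + j + 1) - ord (n + j) := by
    have := ord_step (n := n + j) (by omega)
    linarith
  have e1 : dif yy (n + j) - (ord (n + j + 1) - ord (n + j)) * lam n =
      (ord (n + j + 1) - ord (n + j)) * (lam (n + j) - lam n) := by
    rw [dif_lam]
    ring
  rw [e1, abs_mul, abs_of_nonneg h4, abs_of_nonneg h3]
  calc (ord (n + j + 1) - ord (n + j)) * (lam (n + j) - lam n) ≤ Y * ((R * Y) / ord n) :=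
        mul_le_mul (hgap j hj) h2 h3 hY.le
    _ = Y * (R * Y) / ord n := by ring
    _ ≤ τ := by
      rw [div_le_iff₀ hxpos]
      rw [div_le_iff₀ hτ] at hx2
      linarith

/-- the level lemma for indices -/
lemma levelI (k M : ℕ) {η : ℝ} (hη : 0 < η) : ∃ (L : ℕ) (ε ρ : ℝ), 0 < ε ∧ 0 < ρ ∧
      ∀ᶠ N : ℕ in atTop, ∃ Bad : Set ℕ, cn N Bad ≤ η * N ∧ ∀ n, 1 ≤ n → n ≤ N → n ∉ Bad →
        ∀ c' : Fin k → ℝ, Lev M (pl c') → ∀ c : Fin k → ℝ, ‖c‖ ≤ 1 → ‖c - c'‖ ≤ ρ →
          ¬ (∀ q ≤ L, |∑ j : Fin k, c j * (ord (n + q + j + 1) - ord (n + q + j))| * lam n ≤ ε) := by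
  classical
  obtain ⟨C, hC, hdet⟩ := detI M
  have hM0 : (0 : ℝ) ≤ M := Nat.cast_nonneg M
  obtain ⟨K, hK, hK1⟩ := tightI (by positivity : 0 < η / (8 * ((M + 2 : ℕ) * (M + 1 : ℕ))))
  set K' : ℝ := 2 * (M * K) + 1 with hK'
  obtain ⟨H, hH1, hanti⟩ := antiI K' (by positivity : 0 < η / 8)
  have hH0 : (0 : ℝ) < H := by exact_mod_cast hH1
  set δ : ℝ := 1 / (8 * C * H) with hδ
  have hδ0 : 0 < δ := by positivity
  obtain ⟨m0, hm0⟩ := devI (M + 2) hδ0 (by positivity : 0 < η / (8 * (M + 2 : ℕ)))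
  obtain ⟨m1, hm1⟩ := exists_nat_ge (8 * C * H * (2 * (M * K) + 1))
  set m : ℕ := max (max m0 m1) H with hm
  have hmm0 : m0 ≤ m := (le_max_left _ _).trans (le_max_left _ _)
  have hmm1 : (m1 : ℝ) ≤ m := by
    exact_mod_cast (le_max_right _ _).trans (le_max_left _ _)
  have hmH : H ≤ m := le_max_right _ _
  have hm1' : 1 ≤ m := hH1.trans hmH
  have hmpos : (0 : ℝ) < m := by exact_mod_cast hm1'
  set R : ℕ := (M + 2) * m + M + k + 1 with hR
  obtain ⟨Y, hY, hY1⟩ := tightI (by positivity : 0 < η / (8 * (R + 1 : ℕ)))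
  set e : ℝ := 1 / (2 * 3 ^ ((M + 2) * m) * (M + 1)) with he
  have he0 : 0 < e := by positivity
  obtain ⟨n1, hn11, hn1⟩ := lam_close R hY (by positivity : 0 < e / (4 * (k + 1)))
  obtain ⟨N1, hN1⟩ := exists_nat_ge (8 * n1 / η)
  refine ⟨(M + 2) * m + M, e / 4, e / (2 * (k + 1) * Y), by positivity, by positivity, ?_⟩
  -- the exceptional sets
  have ev1 : ∀ j ∈ Finset.range (M + 2), ∀ l ∈ Finset.range (M + 1), ∀ᶠ N : ℕ in atTop,
      cn N {n | K ≤ |dif yy (n + (j * m + l))|} ≤
        η / (8 * ((M + 2 : ℕ) * (M + 1 : ℕ))) * N := fun j _ l _ => hK1 _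
  have ev2 : ∀ l ∈ Finset.range (M + 1), ∀ᶠ N : ℕ in atTop,
      cn N {n | K ≤ |dif yy (n + (H + l))|} ≤
        η / (8 * ((M + 2 : ℕ) * (M + 1 : ℕ))) * N := fun l _ => hK1 _
  have ev3 : ∀ j ∈ Finset.range (M + 2), ∀ᶠ N : ℕ in atTop,
      cn N {n | δ * m < |yy (n + j * m) - yy n - (j * m : ℕ)|} ≤
        η / (8 * (M + 2 : ℕ)) * N := fun j hj => by
    rw [Finset.mem_range] at hj
    exact hm0 m hmm0 j (by omega)
  have ev5 : ∀ j ∈ Finset.range (R + 1), ∀ᶠ N : ℕ in atTop,
      cn N {n | Y ≤ |dif yy (n + j)|} ≤ η / (8 * (R + 1 : ℕ)) * N := fun j _ => hY1 j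
  simp only [← Filter.eventually_all_finset] at ev1 ev2 ev3 ev5
  filter_upwards [ev1, ev2, ev3, ev5, hanti, eventually_ge_atTop N1] with N h1 h2 h3 h5 h6 h4
  have hN0 : (0 : ℝ) ≤ N := Nat.cast_nonneg N
  set B1 : Set ℕ := ⋃ j ∈ Finset.range (M + 2), ⋃ l ∈ Finset.range (M + 1),
    {n | K ≤ |dif yy (n + (j * m + l))|} with hB1
  set B2 : Set ℕ := ⋃ l ∈ Finset.range (M + 1), {n | K ≤ |dif yy (n + (H + l))|} with hB2
  set B3 : Set ℕ := ⋃ j ∈ Finset.range (M + 2),
    {n | δ * m < |yy (n + j * m) - yy n - (j * m : ℕ)|} with hB3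
  set B4 : Set ℕ := {n | n < n1} with hB4
  set B5 : Set ℕ := ⋃ j ∈ Finset.range (R + 1), {n | Y ≤ |dif yy (n + j)|} with hB5
  set B6 : Set ℕ := {n | |yy (n + H) - yy n - H| ≤ K'} with hB6
  have d1 : cn N B1 ≤ η / 8 * N := by
    refine (cn_biUnion N _ _).trans ?_
    calc ∑ j ∈ Finset.range (M + 2), cn N (⋃ l ∈ Finset.range (M + 1),
          {n | K ≤ |dif yy (n + (j * m + l))|}) ≤
        ∑ j ∈ Finset.range (M + 2), ∑ l ∈ Finset.range (M + 1),
          η / (8 * ((M + 2 : ℕ) * (M + 1 : ℕ))) * N := Finset.sum_le_sum fun j hj =>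
            (cn_biUnion N _ _).trans (Finset.sum_le_sum (h1 j hj))
      _ = η / 8 * N := by
        rw [Finset.sum_const, Finset.sum_const, Finset.card_range, Finset.card_range,
          nsmul_eq_mul, nsmul_eq_mul]
        push_cast
        field_simp
  have d2 : cn N B2 ≤ η / 8 * N := by
    refine (cn_biUnion N _ _).trans ((Finset.sum_le_sum h2).trans ?_)
    rw [Finset.sum_const, Finset.card_range, nsmul_eq_mul]
    have e1 : ((M + 1 : ℕ) : ℝ) * (η / (8 * ((M + 2 : ℕ) * (M + 1 : ℕ))) * N) =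
        η / 8 * N * (1 / ((M + 2 : ℕ) : ℝ)) := by
      push_cast
      field_simp
    rw [e1]
    apply mul_le_of_le_one_right (by positivity)
    rw [div_le_one (by positivity)]
    exact_mod_cast (by omega : 1 ≤ M + 2)
  have d3 : cn N B3 ≤ η / 8 * N := by
    refine (cn_biUnion N _ _).trans ((Finset.sum_le_sum h3).trans ?_)
    rw [Finset.sum_const, Finset.card_range, nsmul_eq_mul]
    apply le_of_eq
    push_cast
    field_simp
  have d4 : cn N B4 ≤ η / 8 * N := by
    refine (cn_lt N n1).trans ?_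
    have h7 : 8 * n1 / η ≤ (N : ℝ) := hN1.trans (by exact_mod_cast h4)
    rw [div_le_iff₀ hη] at h7
    linarith
  have d5 : cn N B5 ≤ η / 8 * N := by
    refine (cn_biUnion N _ _).trans ((Finset.sum_le_sum h5).trans ?_)
    rw [Finset.sum_const, Finset.card_range, nsmul_eq_mul]
    apply le_of_eq
    push_cast
    field_simp
  refine ⟨((((B1 ∪ B2) ∪ B3) ∪ B4) ∪ B5) ∪ B6, ?_, ?_⟩
  · refine (cn_union N _ _).trans ?_
    have u1 := cn_union N (((B1 ∪ B2) ∪ B3) ∪ B4) B5
    have u2 := cn_union N ((B1 ∪ B2) ∪ B3) B4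
    have u3 := cn_union N (B1 ∪ B2) B3
    have u4 := cn_union N B1 B2
    have : 0 ≤ η * N := by positivity
    linarith
  intro n hn hnN hnB c' hlev c hc1 hcc' hrel
  simp only [mem_union, not_or] at hnB
  obtain ⟨⟨⟨⟨⟨t1, t2⟩, t3⟩, t4⟩, t5⟩, t6⟩ := hnB
  have s1 : ∀ j < M + 2, ∀ l ≤ M, |dif yy (n + j * m + l)| ≤ K := by
    intro j hj l hl
    by_contra hcon
    push Not at hcon
    apply t1
    simp only [hB1, mem_iUnion]
    exact ⟨j, Finset.mem_range.mpr hj, l, Finset.mem_range.mpr (by omega), by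
      rw [add_assoc] at hcon; exact hcon.le⟩
  have s2 : ∀ l ≤ M, |dif yy (n + H + l)| ≤ K := by
    intro l hl
    by_contra hcon
    push Not at hcon
    apply t2
    simp only [hB2, mem_iUnion]
    exact ⟨l, Finset.mem_range.mpr (by omega), by rw [add_assoc] at hcon; exact hcon.le⟩
  have s3 : ∀ j < M + 2, |yy (n + j * m) - yy n - (j * m : ℕ)| ≤ δ * m := by
    intro j hj
    by_contra hcon
    push Not at hcon
    apply t3
    simp only [hB3, mem_iUnion]
    exact ⟨j, Finset.mem_range.mpr hj, hcon⟩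
  have s4 : n1 ≤ n := not_lt.mp t4
  have s5 : ∀ j ≤ R, |dif yy (n + j)| ≤ Y := by
    intro j hj
    by_contra hcon
    push Not at hcon
    apply t5
    simp only [hB5, mem_iUnion]
    exact ⟨j, Finset.mem_range.mpr (by omega), hcon.le⟩
  have s6 : K' < |yy (n + H) - yy n - H| := not_le.mp t6
  obtain ⟨hlam0, s7⟩ := hn1 n s4 s5
  -- the relation for the centre
  have hrel' : ∀ q ≤ (M + 2) * m + M, |act (pl c') (dif yy) (n + q)| ≤ e := by
    intro q hq
    have e1 : act (pl c') (dif yy) (n + q) =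
        (∑ j : Fin k, c j * (ord (n + q + j + 1) - ord (n + q + j))) * lam n +
        ∑ j : Fin k, c j * (dif yy (n + q + j) - (ord (n + q + j + 1) - ord (n + q + j)) * lam n) -
        ∑ j : Fin k, (c j - c' j) * dif yy (n + q + j) := by
      rw [act_pl, Finset.sum_mul, ← Finset.sum_add_distrib, ← Finset.sum_sub_distrib]
      refine Finset.sum_congr rfl fun j _ => ?_
      ring
    rw [e1]
    have e2 : |∑ j : Fin k, (c j - c' j) * dif yy (n + q + j)| ≤ e / 2 := by
      refine (Finset.abs_sum_le_sum_abs _ _).trans ?_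
      calc ∑ j : Fin k, |(c j - c' j) * dif yy (n + q + j)| ≤
          ∑ _j : Fin k, e / (2 * (k + 1) * Y) * Y := by
            refine Finset.sum_le_sum fun j _ => ?_
            rw [abs_mul]
            have f1 : |c j - c' j| ≤ e / (2 * (k + 1) * Y) := by
              have := norm_le_pi_norm (c - c') j
              rw [Pi.sub_apply, Real.norm_eq_abs] at this
              exact this.trans hcc'
            have f2 := s5 (q + j) (by have := j.2; omega)
            rw [← add_assoc] at f2
            exact mul_le_mul f1 f2 (abs_nonneg _) (by positivity)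
        _ = k * (e / (2 * (k + 1) * Y) * Y) := by
            rw [Finset.sum_const, Finset.card_univ, Fintype.card_fin, nsmul_eq_mul]
        _ = e / 2 * (k / (k + 1)) := by field_simp
        _ ≤ e / 2 := by
            apply mul_le_of_le_one_right (by positivity)
            rw [div_le_one (by positivity)]
            linarith
    have e3 : |∑ j : Fin k, c j * (dif yy (n + q + j) -
        (ord (n + q + j + 1) - ord (n + q + j)) * lam n)| ≤ e / 4 := by
      refine (Finset.abs_sum_le_sum_abs _ _).trans ?_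
      calc ∑ j : Fin k, |c j * (dif yy (n + q + j) -
            (ord (n + q + j + 1) - ord (n + q + j)) * lam n)| ≤
          ∑ _j : Fin k, 1 * (e / (4 * (k + 1))) := by
            refine Finset.sum_le_sum fun j _ => ?_
            rw [abs_mul]
            have f1 : |c j| ≤ 1 := by
              have := norm_le_pi_norm c j
              rw [Real.norm_eq_abs] at this
              exact this.trans hc1
            have f2 := s7 (q + j) (by have := j.2; omega)
            rw [← add_assoc] at f2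
            exact mul_le_mul f1 f2 (abs_nonneg _) zero_le_one
        _ = k * (e / (4 * (k + 1))) := by
            rw [Finset.sum_const, Finset.card_univ, Fintype.card_fin, nsmul_eq_mul, one_mul]
        _ = e / 4 * (k / (k + 1)) := by field_simp
        _ ≤ e / 4 := by
            apply mul_le_of_le_one_right (by positivity)
            rw [div_le_one (by positivity)]
            linarith
    have e4 := hrel q hq
    have e5 : |(∑ j : Fin k, c j * (ord (n + q + j + 1) - ord (n + q + j))) * lam n| ≤ e / 4 := by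
      rw [abs_mul, abs_of_nonneg hlam0]
      exact e4
    refine (abs_sub _ _).trans ?_
    have e6 := abs_add_le ((∑ j : Fin k, c j * (ord (n + q + j + 1) - ord (n + q + j))) * lam n)
      (∑ j : Fin k, c j * (dif yy (n + q + j) - (ord (n + q + j + 1) - ord (n + q + j)) * lam n))
    linarith
  have hfin := hdet (pl c') hlev yy n m H K δ e hm1' hmH hK.le he0.le hδ0.le s1 s2 s3 hrel'
  have hpow : (3 : ℝ) ^ ((M + 2) * m) * (M * e) ≤ 1 / 2 := by
    rw [he]
    have e1 : (3 : ℝ) ^ ((M + 2) * m) * (M * (1 / (2 * 3 ^ ((M + 2) * m) * (M + 1)))) =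
        1 / 2 * (M / (M + 1)) := by field_simp
    rw [e1]
    apply mul_le_of_le_one_right (by norm_num)
    rw [div_le_one (by positivity)]
    linarith
  have hpow0 : 0 ≤ (3 : ℝ) ^ ((M + 2) * m) * (M * e) := by positivity
  have e1 : C * ((H : ℝ) / m) * (δ * m) = 1 / 8 := by
    rw [hδ]
    field_simp
  have e2 : C * ((H : ℝ) / m) * (2 * (M * K) + 3 ^ ((M + 2) * m) * (M * e)) ≤ 1 / 8 := by
    have e3 : C * ((H : ℝ) / m) * (2 * (M * K) + 3 ^ ((M + 2) * m) * (M * e)) ≤
        C * ((H : ℝ) / m) * (2 * (M * K) + 1) := by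
      apply mul_le_mul_of_nonneg_left (by linarith) (by positivity)
    refine e3.trans ?_
    have e4 : C * ((H : ℝ) / m) * (2 * (M * K) + 1) = C * H * (2 * (M * K) + 1) / m := by
      field_simp
    rw [e4, div_le_iff₀ hmpos]
    have e5 : 8 * C * H * (2 * (M * K) + 1) ≤ m := hm1.trans hmm1
    linarith
  have e3 : C * ((H : ℝ) / m) * (δ * m + 2 * (M * K) + 3 ^ ((M + 2) * m) * (M * e)) =
      C * ((H : ℝ) / m) * (δ * m) +
        C * ((H : ℝ) / m) * (2 * (M * K) + 3 ^ ((M + 2) * m) * (M * e)) := by ring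
  rw [e3, e1] at hfin
  have : |yy (n + H) - yy n - H| ≤ K' := by
    rw [hK']
    linarith
  exact absurd this (not_le.mpr s6)

end Pool.Agent.R846.UL
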