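import Pool.Agent.R846.UL.Local

/-! # Almost no bounded run of ordinates satisfies a linear recurrence: the theorem -/

set_option autoImplicit false

open Filter Topology MeasureTheory Set Polynomial

namespace Pool.Agent.R846.UL

open SG (ord NZ)
open Pool.Agent.Y743.LR

/-- the heights after which a run of ordinates satisfies a linear relation approximately -/
def BadT (k : ℕ) (ε : ℝ) (L : ℕ) (T : ℝ) : Set ℝ :=
  {t | ∃ c : Fin k → ℝ, (∃ j, 1 ≤ |c j|) ∧ ∃ b : ℝ, ∀ m : ℕ, NZ t ≤ m → m ≤ NZ t + L →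
    |∑ j, c j * ord (m + j) - b| < ε / Real.log T}

/-- normalisation of the relation on a run -/
lemma run_norm {k : ℕ} {T : ℝ} (hT : 1 < T) {ε : ℝ} (hε : 0 < ε) {c : Fin k → ℝ}
    (hc : ∃ j, 1 ≤ |c j|) {b : ℝ} {n L : ℕ}
    (h : ∀ m : ℕ, n ≤ m → m ≤ n + L → |∑ j, c j * ord (m + j) - b| < ε / Real.log T)
    (q : ℕ) (hq : q + 1 ≤ L) : |act (pl (‖c‖⁻¹ • c)) (dif (yv T)) (n + q)| ≤ ε := by
  have hL : 0 < Real.log T := Real.log_pos hT
  have hpi := Real.pi_gt_three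
  obtain ⟨u1, _⟩ := unit_of hc
  have h1 := h (n + q) (by omega) (by omega)
  have h2 := h (n + q + 1) (by omega) (by omega)
  have e1 : act (pl (‖c‖⁻¹ • c)) (dif (yv T)) (n + q) = ‖c‖⁻¹ * (Real.log T / (2 * Real.pi)) *
      ((∑ j, c j * ord (n + q + 1 + j) - b) - (∑ j, c j * ord (n + q + j) - b)) := by
    rw [act_pl, sub_sub_sub_cancel_right, ← Finset.sum_sub_distrib, Finset.mul_sum]
    refine Finset.sum_congr rfl fun j _ => ?_
    have : n + q + 1 + (j : ℕ) = n + q + j + 1 := by ring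
    rw [Pi.smul_apply, smul_eq_mul, this]
    unfold dif yv
    ring
  rw [e1, abs_mul, abs_of_nonneg (by positivity)]
  have h3 : |(∑ j, c j * ord (n + q + 1 + j) - b) - (∑ j, c j * ord (n + q + j) - b)| ≤
      2 * (ε / Real.log T) := by
    refine (abs_sub _ _).trans ?_
    linarith
  have h4 : ‖c‖⁻¹ ≤ 1 := inv_le_one_of_one_le₀ u1
  calc ‖c‖⁻¹ * (Real.log T / (2 * Real.pi)) *
      |(∑ j, c j * ord (n + q + 1 + j) - b) - (∑ j, c j * ord (n + q + j) - b)| ≤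
      1 * (Real.log T / (2 * Real.pi)) * (2 * (ε / Real.log T)) := by gcongr
    _ = ε * (1 / Real.pi) := by field_simp
    _ ≤ ε := by
      apply mul_le_of_le_one_right hε.le
      rw [div_le_one (by positivity)]
      linarith

/-- **almost no bounded run of ordinates satisfies a linear recurrence of order `k`** -/
theorem local_main (k : ℕ) {η : ℝ} (hη : 0 < η) : ∃ (ε : ℝ) (L : ℕ) (T₀ : ℝ), 0 < ε ∧
    ∀ T : ℝ, T₀ ≤ T → volume (BadT k ε L T ∩ Icc T (2 * T)) ≤ ENNReal.ofReal (η * T) := by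
  classical
  by_contra hcon
  push Not at hcon
  obtain ⟨κ, D, C0, hκ, hκ1, hD, hC0, hg⟩ := good_ev
  obtain ⟨T00, hT00, hgood0⟩ := hg 0
  have key : ∀ i : ℕ, ∃ T : ℝ, max T00 i ≤ T ∧
      ENNReal.ofReal (η * T) < volume (BadT k (1 / ((i : ℝ) + 1)) i T ∩ Icc T (2 * T)) := by
    intro i
    obtain ⟨T, h1, h2⟩ := hcon (1 / ((i : ℝ) + 1)) i (max T00 i) (by positivity)
    exact ⟨T, h1, h2⟩
  choose T hT1 hT2 using key
  have hT10 : ∀ i, 10 ≤ T i := fun i => hT00.trans ((le_max_left _ _).trans (hT1 i))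
  have hT : ∀ i, 0 < T i := fun i => by linarith [hT10 i]
  have hTt : Tendsto T atTop atTop :=
    tendsto_atTop_mono (fun i => (le_max_right _ _).trans (hT1 i)) tendsto_natCast_atTop_atTop
  have hn1 : ∀ i, 1 ≤ NZ (T i) := fun i => (hgood0 (T i) ((le_max_left _ _).trans (hT1 i))).n1
  -- the levels
  have hlev := fun M : ℕ => level hTt hT10 hn1 k M
    (by positivity : 0 < η / 4 * (1 / 2 : ℝ) ^ M)
  choose Lm em rm he0 hr0 hlev using hlev
  -- the covering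
  have hMf : ∀ c : Fin k → ℝ, ∃ M : ℕ, c ∈ Metric.sphere (0 : Fin k → ℝ) 1 → Lev M (pl c) := by
    intro c
    by_cases h : c ∈ Metric.sphere (0 : Fin k → ℝ) 1
    · have hc : c ≠ 0 := by
        intro h0
        rw [h0, mem_sphere_zero_iff_norm, norm_zero] at h
        exact zero_ne_one h
      obtain ⟨M, hM⟩ := exists_lev (pl_ne hc)
      exact ⟨M, fun _ => hM⟩
    · exact ⟨0, fun h' => absurd h' h⟩
  choose Mf hMf using hMf
  obtain ⟨s, hs1, hs2⟩ := (isCompact_sphere (0 : Fin k → ℝ) 1).elim_nhds_subcover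
    (fun c => Metric.ball c (rm (Mf c))) fun c _ => Metric.ball_mem_nhds c (hr0 _)
  set Mx : ℕ := s.sup Mf with hMx
  have hev : ∀ M ∈ Finset.range (Mx + 1), ∀ᶠ i in atTop, (∃ Bad : Set ℝ,
      dn T i Bad ≤ η / 4 * (1 / 2 : ℝ) ^ M ∧ ∀ t, T i ≤ t → t ≤ 2 * T i → t ∉ Bad →
        ∀ c' : Fin k → ℝ, Lev M (pl c') → ∀ c : Fin k → ℝ, ‖c - c'‖ ≤ rm M →
          ¬ (∀ q ≤ Lm M, |act (pl c) (dif (yv (T i))) (NZ t + q)| ≤ em M)) ∧
      Lm M + 1 ≤ i ∧ 1 / ((i : ℝ) + 1) ≤ em M := by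
    intro M _
    have h1 : Tendsto (fun i : ℕ => 1 / ((i : ℝ) + 1)) atTop (𝓝 0) :=
      tendsto_one_div_add_atTop_nhds_zero_nat
    filter_upwards [hlev M, eventually_ge_atTop (Lm M + 1), h1.eventually_le_const (he0 M)]
      with i h2 h3 h4
    exact ⟨h2, h3, h4⟩
  rw [← Filter.eventually_all_finset] at hev
  obtain ⟨i, hi⟩ := hev.exists
  have hi' : ∀ M : ℕ, ∃ Bad : Set ℝ, M ∈ Finset.range (Mx + 1) →
      (dn T i Bad ≤ η / 4 * (1 / 2 : ℝ) ^ M ∧ ∀ t, T i ≤ t → t ≤ 2 * T i → t ∉ Bad →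
        ∀ c' : Fin k → ℝ, Lev M (pl c') → ∀ c : Fin k → ℝ, ‖c - c'‖ ≤ rm M →
          ¬ (∀ q ≤ Lm M, |act (pl c) (dif (yv (T i))) (NZ t + q)| ≤ em M)) := by
    intro M
    by_cases hM : M ∈ Finset.range (Mx + 1)
    · obtain ⟨⟨Bad, hB⟩, _⟩ := hi M hM
      exact ⟨Bad, fun _ => hB⟩
    · exact ⟨∅, fun h => absurd h hM⟩
  choose Bad hBad using hi'
  have hTi := hT i
  have hTi1 : 1 < T i := by linarith [hT10 i]
  have hsub : dn T i (BadT k (1 / ((i : ℝ) + 1)) i (T i)) ≤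
      dn T i (⋃ M ∈ Finset.range (Mx + 1), Bad M) := by
    refine dn_mono hT i fun t ht1 ht2 ht => ?_
    obtain ⟨c, hc, b, hrel⟩ := ht
    obtain ⟨u1, u2⟩ := unit_of hc
    have hmem : (‖c‖⁻¹ • c) ∈ Metric.sphere (0 : Fin k → ℝ) 1 := by
      rw [mem_sphere_zero_iff_norm]
      exact u2
    have hcov := hs2 hmem
    simp only [mem_iUnion] at hcov
    obtain ⟨c', hc's, hc'b⟩ := hcov
    have hM : Mf c' ∈ Finset.range (Mx + 1) := by
      rw [Finset.mem_range]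
      exact Nat.lt_succ_of_le (Finset.le_sup hc's)
    simp only [mem_iUnion]
    refine ⟨Mf c', hM, ?_⟩
    by_contra hnot
    obtain ⟨_, hB⟩ := hBad (Mf c') hM
    obtain ⟨_, hL, hε⟩ := hi (Mf c') hM
    refine hB t ht1 ht2 hnot c' (hMf c' (hs1 c' hc's)) (‖c‖⁻¹ • c) ?_ fun q hq => ?_
    · rw [mem_ball_iff_norm] at hc'b
      exact hc'b.le
    · exact (run_norm hTi1 (by positivity) hc hrel q (by omega)).trans hε
  have hsum : dn T i (⋃ M ∈ Finset.range (Mx + 1), Bad M) ≤ η / 2 := by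
    refine (dn_biUnion hT i _ _).trans ((Finset.sum_le_sum fun M hM => (hBad M hM).1).trans ?_)
    rw [← Finset.mul_sum]
    have := sum_geometric_two_le (Mx + 1)
    nlinarith
  have hlt := hT2 i
  have h1 : volume (BadT k (1 / ((i : ℝ) + 1)) i (T i) ∩ Icc (T i) (2 * T i)) ≤
      ENNReal.ofReal (η * T i) := by
    rw [← ENNReal.ofReal_toReal (dn_fin T i (BadT k (1 / ((i : ℝ) + 1)) i (T i)))]
    apply ENNReal.ofReal_le_ofReal
    have h2 := hsub.trans hsum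
    unfold dn at h2
    rw [div_le_iff₀ hTi] at h2
    refine h2.trans ?_
    apply mul_le_mul_of_nonneg_right (by linarith) hTi.le
  exact absurd hlt (not_lt.mpr h1)

end Pool.Agent.R846.UL
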