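import Pool.Agent.R846.UL.LocalI

/-! # Almost no bounded run of ordinates satisfies a linear recurrence: the theorem for indices -/

set_option autoImplicit false

open Filter Topology MeasureTheory Set Polynomial

namespace Pool.Agent.R846.UL

open SG (ord NZ)
open Pool.Agent.Y743.LR

/-- the indices at which a run of ordinates satisfies a linear relation approximately -/
def BadN (k : ℕ) (ε : ℝ) (L : ℕ) : Set ℕ :=
  {n | ∃ c : Fin k → ℝ, (∃ j, 1 ≤ |c j|) ∧ ∃ b : ℝ, ∀ m : ℕ, n ≤ m → m ≤ n + L →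
    |∑ j, c j * ord (m + j) - b| < ε / Real.log (ord n)}

/-- normalisation of the relation on a run -/
lemma run_normI {k : ℕ} {ε : ℝ} (hε : 0 < ε) {c : Fin k → ℝ} (hc : ∃ j, 1 ≤ |c j|) {b : ℝ}
    {n L : ℕ} (hn : 2 * Real.pi ≤ ord n)
    (h : ∀ m : ℕ, n ≤ m → m ≤ n + L → |∑ j, c j * ord (m + j) - b| < ε / Real.log (ord n))
    (q : ℕ) (hq : q + 1 ≤ L) :
    |∑ j : Fin k, (‖c‖⁻¹ • c) j * (ord (n + q + j + 1) - ord (n + q + j))| * lam n ≤ ε := by
  have hpi := Real.pi_gt_three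
  have hL : 0 < Real.log (ord n) := Real.log_pos (by linarith)
  obtain ⟨u1, _⟩ := unit_of hc
  have h1 := h (n + q) (by omega) (by omega)
  have h2 := h (n + q + 1) (by omega) (by omega)
  have e1 : ∑ j : Fin k, (‖c‖⁻¹ • c) j * (ord (n + q + j + 1) - ord (n + q + j)) = ‖c‖⁻¹ *
      ((∑ j, c j * ord (n + q + 1 + j) - b) - (∑ j, c j * ord (n + q + j) - b)) := by
    rw [sub_sub_sub_cancel_right, ← Finset.sum_sub_distrib, Finset.mul_sum]
    refine Finset.sum_congr rfl fun j _ => ?_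
    have : n + q + 1 + (j : ℕ) = n + q + j + 1 := by ring
    rw [Pi.smul_apply, smul_eq_mul, this]
    ring
  rw [e1, abs_mul, abs_of_nonneg (by positivity : 0 ≤ ‖c‖⁻¹)]
  have h3 : |(∑ j, c j * ord (n + q + 1 + j) - b) - (∑ j, c j * ord (n + q + j) - b)| ≤
      2 * (ε / Real.log (ord n)) := by
    refine (abs_sub _ _).trans ?_
    linarith
  have h4 : ‖c‖⁻¹ ≤ 1 := inv_le_one_of_one_le₀ u1
  have h5 : 0 ≤ lam n := by
    unfold lam
    apply div_nonneg _ (by positivity)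
    apply Real.log_nonneg
    rw [le_div_iff₀ (by positivity)]
    linarith
  have h6 : lam n ≤ Real.log (ord n) / (2 * Real.pi) := by
    unfold lam
    apply div_le_div_of_nonneg_right _ (by positivity)
    have h0 : 0 < ord n := by linarith
    apply Real.log_le_log (by positivity)
    exact div_le_self h0.le (by linarith)
  calc ‖c‖⁻¹ * |(∑ j, c j * ord (n + q + 1 + j) - b) - (∑ j, c j * ord (n + q + j) - b)| * lam n ≤
      1 * (2 * (ε / Real.log (ord n))) * (Real.log (ord n) / (2 * Real.pi)) := by gcongr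
    _ = ε * (1 / Real.pi) := by field_simp
    _ ≤ ε := by
      apply mul_le_of_le_one_right hε.le
      rw [div_le_one (by positivity)]
      linarith

/-- **almost no bounded run of ordinates satisfies a linear recurrence of order `k`** -/
theorem local_mainI (k : ℕ) {η : ℝ} (hη : 0 < η) : ∃ (ε : ℝ) (L N₀ : ℕ), 0 < ε ∧
    ∀ N : ℕ, N₀ ≤ N → cn N (BadN k ε L) ≤ η * N := by
  classical
  by_contra hcon
  push Not at hcon
  have key : ∀ i : ℕ, ∃ N : ℕ, i ≤ N ∧ η * N < cn N (BadN k (1 / ((i : ℝ) + 1)) i) := by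
    intro i
    obtain ⟨N, h1, h2⟩ := hcon (1 / ((i : ℝ) + 1)) i i (by positivity)
    exact ⟨N, h1, h2⟩
  choose N hN1 hN2 using key
  have hNt : Tendsto N atTop atTop := tendsto_atTop_mono hN1 tendsto_id
  obtain ⟨n2, hn2⟩ := (ord_tendsto.eventually_ge_atTop (2 * Real.pi)).exists_forall_of_atTop
  -- the levels
  have hlev := fun M : ℕ => levelI k M (by positivity : 0 < η / 4 * (1 / 2 : ℝ) ^ M)
  choose Lm em rm he0 hr0 hlev using hlev
  -- the covering
  have hMf : ∀ c : Fin k → ℝ, ∃ M : ℕ, c ∈ Metric.sphere (0 : Fin k → ℝ) 1 → Lev M (pl c) := by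
    intro c
    by_cases h : c ∈ Metric.sphere (0 : Fin k → ℝ) 1
    · have hc : c ≠ 0 := by
        intro h0
        rw [h0, mem_sphere_zero_iff_norm, norm_zero] at h
        exact zero_ne_one h
      obtain ⟨M, hM⟩ := exists_lev (pl_ne hc)
      exact ⟨M, fun _ => hM⟩
    · exact ⟨0, fun h' => absurd h' h⟩
  choose Mf hMf using hMf
  obtain ⟨s, hs1, hs2⟩ := (isCompact_sphere (0 : Fin k → ℝ) 1).elim_nhds_subcover
    (fun c => Metric.ball c (rm (Mf c))) fun c _ => Metric.ball_mem_nhds c (hr0 _)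
  set Mx : ℕ := s.sup Mf with hMx
  have hev : ∀ M ∈ Finset.range (Mx + 1), ∀ᶠ i in atTop, (∃ Bad : Set ℕ,
      cn (N i) Bad ≤ η / 4 * (1 / 2 : ℝ) ^ M * (N i) ∧ ∀ n, 1 ≤ n → n ≤ N i → n ∉ Bad →
        ∀ c' : Fin k → ℝ, Lev M (pl c') → ∀ c : Fin k → ℝ, ‖c‖ ≤ 1 → ‖c - c'‖ ≤ rm M →
          ¬ (∀ q ≤ Lm M, |∑ j : Fin k, c j * (ord (n + q + j + 1) - ord (n + q + j))| * lam n ≤
            em M)) ∧ Lm M + 1 ≤ i ∧ 1 / ((i : ℝ) + 1) ≤ em M := by
    intro M _
    have h1 : Tendsto (fun i : ℕ => 1 / ((i : ℝ) + 1)) atTop (𝓝 0) :=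
      tendsto_one_div_add_atTop_nhds_zero_nat
    filter_upwards [hNt.eventually (hlev M), eventually_ge_atTop (Lm M + 1),
      h1.eventually_le_const (he0 M)] with i h2 h3 h4
    exact ⟨h2, h3, h4⟩
  rw [← Filter.eventually_all_finset] at hev
  obtain ⟨N3, hN3⟩ := exists_nat_ge (4 * n2 / η)
  obtain ⟨i, hi, hiN, hi1⟩ := (hev.and ((hNt.eventually_ge_atTop N3).and
    (hNt.eventually_ge_atTop 1))).exists
  have hi' : ∀ M : ℕ, ∃ Bad : Set ℕ, M ∈ Finset.range (Mx + 1) →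
      (cn (N i) Bad ≤ η / 4 * (1 / 2 : ℝ) ^ M * (N i) ∧ ∀ n, 1 ≤ n → n ≤ N i → n ∉ Bad →
        ∀ c' : Fin k → ℝ, Lev M (pl c') → ∀ c : Fin k → ℝ, ‖c‖ ≤ 1 → ‖c - c'‖ ≤ rm M →
          ¬ (∀ q ≤ Lm M, |∑ j : Fin k, c j * (ord (n + q + j + 1) - ord (n + q + j))| * lam n ≤
            em M)) := by
    intro M
    by_cases hM : M ∈ Finset.range (Mx + 1)
    · obtain ⟨⟨Bad, hB⟩, _⟩ := hi M hM
      exact ⟨Bad, fun _ => hB⟩
    · exact ⟨∅, fun h => absurd h hM⟩
  choose Bad hBad using hi'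
  have hNpos : (0 : ℝ) < N i := by exact_mod_cast hi1
  have hsub : cn (N i) (BadN k (1 / ((i : ℝ) + 1)) i) ≤
      cn (N i) ({n | n < n2} ∪ ⋃ M ∈ Finset.range (Mx + 1), Bad M) := by
    refine cn_mono fun n hn hnN hnb => ?_
    rcases lt_or_ge n n2 with hlt | hge
    · exact Or.inl hlt
    right
    obtain ⟨c, hc, b, hrel⟩ := hnb
    obtain ⟨u1, u2⟩ := unit_of hc
    have hmem : (‖c‖⁻¹ • c) ∈ Metric.sphere (0 : Fin k → ℝ) 1 := by
      rw [mem_sphere_zero_iff_norm]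
      exact u2
    have hcov := hs2 hmem
    simp only [mem_iUnion] at hcov
    obtain ⟨c', hc's, hc'b⟩ := hcov
    have hM : Mf c' ∈ Finset.range (Mx + 1) := by
      rw [Finset.mem_range]
      exact Nat.lt_succ_of_le (Finset.le_sup hc's)
    simp only [mem_iUnion]
    refine ⟨Mf c', hM, ?_⟩
    by_contra hnot
    obtain ⟨_, hB⟩ := hBad (Mf c') hM
    obtain ⟨_, hL, hε⟩ := hi (Mf c') hM
    refine hB n hn hnN hnot c' (hMf c' (hs1 c' hc's)) (‖c‖⁻¹ • c) u2.le ?_ fun q hq => ?_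
    · rw [mem_ball_iff_norm] at hc'b
      exact hc'b.le
    · exact (run_normI (by positivity) hc (hn2 n hge) hrel q (by omega)).trans hε
  have hsum : cn (N i) ({n | n < n2} ∪ ⋃ M ∈ Finset.range (Mx + 1), Bad M) ≤
      η / 4 * (N i) + η / 2 * (N i) := by
    refine (cn_union _ _ _).trans (add_le_add ?_ ?_)
    · refine (cn_lt _ _).trans ?_
      have h7 : 4 * n2 / η ≤ (N i : ℝ) := hN3.trans (by exact_mod_cast hiN)
      rw [div_le_iff₀ hη] at h7
      linarith
    · refine (cn_biUnion _ _ _).trans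
        ((Finset.sum_le_sum fun M hM => (hBad M hM).1).trans ?_)
      rw [← Finset.sum_mul, ← Finset.mul_sum]
      have := sum_geometric_two_le (Mx + 1)
      apply mul_le_mul_of_nonneg_right _ hNpos.le
      nlinarith
  have hlt := hN2 i
  have h8 : 0 < η * (N i) := by positivity
  linarith

end Pool.Agent.R846.UL
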