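import Pool.Agent.Y743.LR.Alg

/-! # Sequences with a small iterated difference -/

set_option autoImplicit false

open Polynomial Filter Topology

namespace Pool.Agent.R846.UL

open Pool.Agent.Y743.LR

/-- a polynomial which is small at the integers below `r` and vanishes at `0` is small near `0` -/
lemma poly_small (r : ℕ) (hr1 : 1 ≤ r) : ∃ C : ℝ, 0 < C ∧ ∀ p : ℝ[X], p.degree < r → p.eval 0 = 0 →
    ∀ E : ℝ, (∀ j < r, |p.eval (j : ℝ)| ≤ E) → ∀ x : ℝ, 0 ≤ x → x ≤ 1 → |p.eval x| ≤ C * x * E := by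
  classical
  have hb : ∀ j ∈ Finset.range r, ∃ Cj : ℝ, 0 ≤ Cj ∧ (j ≠ 0 → ∀ x : ℝ, 0 ≤ x → x ≤ 1 →
      |(Lagrange.basis (Finset.range r) (fun j : ℕ => (j : ℝ)) j).eval x| ≤ Cj * x) := by
    intro j hj
    by_cases h0 : j = 0
    · exact ⟨0, le_rfl, fun h => absurd h0 h⟩
    have hr : 0 ∈ Finset.range r := by
      rw [Finset.mem_range] at hj ⊢
      omega
    have h1 : (Lagrange.basis (Finset.range r) (fun j : ℕ => (j : ℝ)) j).eval 0 = 0 := by
      have := Lagrange.eval_basis_of_ne (s := Finset.range r) (v := fun j : ℕ => (j : ℝ)) h0 hr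
      simpa using this
    obtain ⟨Q, hQ⟩ : X ∣ Lagrange.basis (Finset.range r) (fun j : ℕ => (j : ℝ)) j := by
      rw [X_dvd_iff, coeff_zero_eq_eval_zero, h1]
    obtain ⟨Cj, hCj⟩ := (isCompact_Icc (a := (0 : ℝ)) (b := 1)).exists_bound_of_continuousOn
      (f := fun x => Q.eval x) Q.continuous.continuousOn
    refine ⟨max Cj 0, le_max_right _ _, fun _ x hx0 hx1 => ?_⟩
    rw [hQ, eval_mul, eval_X, abs_mul, abs_of_nonneg hx0, mul_comm]
    apply mul_le_mul_of_nonneg_right _ hx0
    have := hCj x ⟨hx0, hx1⟩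
    rw [Real.norm_eq_abs] at this
    exact this.trans (le_max_left _ _)
  choose! Cj hC0 hC using hb
  refine ⟨∑ j ∈ Finset.range r, Cj j + 1, ?_, fun p hp hp0 E hE x hx0 hx1 => ?_⟩
  · have := Finset.sum_nonneg hC0
    linarith
  have hinj : Set.InjOn (fun j : ℕ => (j : ℝ)) (Finset.range r : Set ℕ) := fun i _ j _ h => Nat.cast_injective h
  have hpe := Lagrange.eq_interpolate (s := Finset.range r) (v := fun j : ℕ => (j : ℝ)) (f := p) hinj
    (by rw [Finset.card_range]; exact hp)
  have h1 : p.eval x = ∑ j ∈ Finset.range r, p.eval (j : ℝ) *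
      (Lagrange.basis (Finset.range r) (fun j : ℕ => (j : ℝ)) j).eval x := by
    conv_lhs => rw [hpe]
    rw [Lagrange.interpolate_apply, eval_finsetSum]
    refine Finset.sum_congr rfl fun j _ => ?_
    rw [eval_mul, eval_C]
  rw [h1]
  have hE' : 0 ≤ E := (abs_nonneg _).trans (hE 0 (by omega))
  refine (Finset.abs_sum_le_sum_abs _ _).trans ?_
  calc ∑ j ∈ Finset.range r, |p.eval (j : ℝ) *
      (Lagrange.basis (Finset.range r) (fun j : ℕ => (j : ℝ)) j).eval x| ≤
      ∑ j ∈ Finset.range r, Cj j * (x * E) := by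
        refine Finset.sum_le_sum fun j hj => ?_
        rw [abs_mul]
        by_cases hj0 : j = 0
        · subst hj0
          rw [Nat.cast_zero, hp0, abs_zero, zero_mul]
          exact mul_nonneg (hC0 _ hj) (mul_nonneg hx0 hE')
        · have := hC j hj hj0 x hx0 hx1
          calc _ ≤ E * (Cj j * x) := mul_le_mul (hE j (Finset.mem_range.mp hj)) this
                (abs_nonneg _) hE'
            _ = _ := by ring
    _ = (∑ j ∈ Finset.range r, Cj j) * (x * E) := by rw [Finset.sum_mul]
    _ ≤ (∑ j ∈ Finset.range r, Cj j + 1) * (x * E) := by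
        apply mul_le_mul_of_nonneg_right (by linarith) (mul_nonneg hx0 hE')
    _ = _ := by ring

/-- iterated differences are bounded by powers of two -/
lemma dif_pow_bound {F : ℕ → ℝ} {r : ℕ} {e : ℝ} {R : ℕ}
    (h : ∀ j ≤ R, |act ((X - 1) ^ r) F j| ≤ e) (l : ℕ) :
    ∀ j, j + l ≤ R → |act ((X - 1) ^ (r + l)) F j| ≤ 2 ^ l * e := by
  induction l with
  | zero => intro j hj; simpa using h j (by omega)
  | succ l ih =>
    intro j hj
    have e1 : ((X - 1 : ℝ[X]) ^ (r + (l + 1))) = (X - 1) * (X - 1) ^ (r + l) := by ring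
    rw [e1, act_mul, act_X_sub_one]
    have h1 := ih (j + 1) (by omega)
    have h2 := ih j (by omega)
    unfold dif
    refine (abs_sub _ _).trans ?_
    rw [pow_succ]
    linarith

/-- Newton's formula -/
lemma newton (F : ℕ → ℝ) (j : ℕ) :
    F j = ∑ l ∈ Finset.range (j + 1), (j.choose l : ℝ) * act ((X - 1) ^ l) F 0 := by
  have h0 : act (X ^ j) F 0 = F j := by
    unfold act
    rw [map_pow, aeval_X, sh_pow, zero_add]
  have h1 : (X : ℝ[X]) ^ j = ∑ l ∈ Finset.range (j + 1), C (j.choose l : ℝ) * (X - 1) ^ l := by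
    have h2 : (X : ℝ[X]) ^ j = ((X - 1) + 1) ^ j := by ring
    rw [h2, add_pow]
    refine Finset.sum_congr rfl fun l _ => ?_
    rw [one_pow, mul_one, mul_comm]
    congr 1
  rw [← h0, h1]
  unfold act
  rw [map_sum, LinearMap.sum_apply, Finset.sum_apply]
  refine Finset.sum_congr rfl fun l _ => ?_
  rw [map_mul, aeval_C, Module.End.mul_apply, Module.algebraMap_end_apply, Pi.smul_apply,
    smul_eq_mul]

/-- a sequence with small `r`-th differences which is small at the multiples of `m` below `r m` and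
vanishes at `0` is small at the first indices -/
lemma seq_small (r : ℕ) (hr1 : 1 ≤ r) : ∃ C : ℝ, 0 < C ∧ ∀ F : ℕ → ℝ, F 0 = 0 → ∀ m : ℕ, 1 ≤ m →
    ∀ E e : ℝ, 0 ≤ e → (∀ j < r, |F (j * m)| ≤ E) →
    (∀ j ≤ r * m, |act ((X - 1) ^ r) F j| ≤ e) →
    ∀ u ≤ m, |F u| ≤ C * (u / m) * (E + 3 ^ (r * m) * e) + 3 ^ (r * m) * e := by
  classical
  obtain ⟨C, hC, hp⟩ := poly_small r hr1
  refine ⟨C, hC, fun F hF0 m hm E e he hE hd u hu => ?_⟩
  set p : ℝ[X] := ∑ l ∈ Finset.range r,
    Polynomial.C (act ((X - 1) ^ l) F 0 / (l.factorial : ℝ)) * descPochhammer ℝ l with hpdef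
  have hdeg : p.degree < r := by
    rw [hpdef]
    refine (Polynomial.degree_sum_le _ _).trans_lt ?_
    rw [Finset.sup_lt_iff (by exact_mod_cast WithBot.bot_lt_coe r)]
    intro l hl
    rw [Finset.mem_range] at hl
    refine (Polynomial.degree_le_natDegree).trans_lt ?_
    have h1 := (natDegree_C_mul_le (act ((X - 1) ^ l) F 0 / (l.factorial : ℝ))
      (descPochhammer ℝ l)).trans_eq (descPochhammer_natDegree (R := ℝ) (n := l))
    exact_mod_cast h1.trans_lt hl
  have hev : ∀ j : ℕ, p.eval (j : ℝ) =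
      ∑ l ∈ Finset.range r, (j.choose l : ℝ) * act ((X - 1) ^ l) F 0 := by
    intro j
    rw [hpdef, eval_finsetSum]
    refine Finset.sum_congr rfl fun l _ => ?_
    rw [eval_mul, eval_C, descPochhammer_eval_eq_descFactorial,
      Nat.descFactorial_eq_factorial_mul_choose]
    push_cast
    have : (l.factorial : ℝ) ≠ 0 := by positivity
    field_simp
  have hclose : ∀ j ≤ r * m, |F j - p.eval (j : ℝ)| ≤ 3 ^ (r * m) * e := by
    intro j hj
    have e1 : F j - p.eval (j : ℝ) = ∑ l ∈ (Finset.range (j + 1)).filter (fun l => r ≤ l),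
        (j.choose l : ℝ) * act ((X - 1) ^ l) F 0 := by
      rw [newton F j, hev, sub_eq_iff_eq_add]
      rw [← Finset.sum_filter_add_sum_filter_not (Finset.range (j + 1)) (fun l => r ≤ l)]
      congr 1
      have h2 : (Finset.range (j + 1)).filter (fun l => ¬ r ≤ l) ⊆ Finset.range r := by
        intro l hl
        rw [Finset.mem_filter] at hl
        rw [Finset.mem_range]
        omega
      refine Finset.sum_subset h2 fun l hl hl2 => ?_
      rw [Finset.mem_filter, Finset.mem_range, not_and, not_not] at hl2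
      rw [Finset.mem_range] at hl
      have h3 : ¬ l < j + 1 := fun h => by
        have := hl2 h
        omega
      rw [Nat.choose_eq_zero_of_lt (by omega), Nat.cast_zero, zero_mul]
    rw [e1]
    refine (Finset.abs_sum_le_sum_abs _ _).trans ?_
    have e2 : ∀ l ∈ (Finset.range (j + 1)).filter (fun l => r ≤ l),
        |(j.choose l : ℝ) * act ((X - 1) ^ l) F 0| ≤ (j.choose l : ℝ) * 2 ^ l * e := by
      intro l hl
      rw [Finset.mem_filter, Finset.mem_range] at hl
      obtain ⟨q, hq⟩ := Nat.exists_eq_add_of_le hl.2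
      have h3 := dif_pow_bound hd q 0 (by omega)
      rw [← hq] at h3
      rw [abs_mul, abs_of_nonneg (by positivity), mul_assoc]
      apply mul_le_mul_of_nonneg_left _ (by positivity)
      refine h3.trans ?_
      apply mul_le_mul_of_nonneg_right _ he
      exact pow_le_pow_right₀ (by norm_num) (by omega)
    refine (Finset.sum_le_sum e2).trans ?_
    have e3 : ∑ l ∈ (Finset.range (j + 1)).filter (fun l => r ≤ l), (j.choose l : ℝ) * 2 ^ l * e ≤
        ∑ l ∈ Finset.range (j + 1), (j.choose l : ℝ) * 2 ^ l * e :=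
      Finset.sum_le_sum_of_subset_of_nonneg (Finset.filter_subset _ _)
        fun _ _ _ => by positivity
    refine e3.trans ?_
    rw [← Finset.sum_mul]
    apply mul_le_mul_of_nonneg_right _ he
    have e4 : ∑ l ∈ Finset.range (j + 1), (j.choose l : ℝ) * 2 ^ l = 3 ^ j := by
      have h5 := add_pow (2 : ℝ) 1 j
      norm_num at h5
      rw [h5]
      exact Finset.sum_congr rfl fun l _ => by ring
    rw [e4]
    exact pow_le_pow_right₀ (by norm_num) hj
  have hm0 : (0 : ℝ) < m := by exact_mod_cast hm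
  set q : ℝ[X] := p.comp (Polynomial.C (m : ℝ) * X) with hq
  have hqev : ∀ x : ℝ, q.eval x = p.eval (m * x) := by
    intro x
    rw [hq, eval_comp, eval_mul, eval_C, eval_X]
  have hqdeg : q.degree < r := by
    by_cases hp0 : p = 0
    · rw [hq, hp0, zero_comp, degree_zero]
      exact WithBot.bot_lt_coe r
    · have h1 : q.natDegree ≤ p.natDegree := by
        rw [hq]
        refine natDegree_comp_le.trans ?_
        have h2 : (Polynomial.C (m : ℝ) * X).natDegree ≤ 1 := (natDegree_C_mul_le _ _).trans natDegree_X_le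
        calc p.natDegree * (Polynomial.C (m : ℝ) * X).natDegree ≤ p.natDegree * 1 :=
              Nat.mul_le_mul_left _ h2
          _ = _ := mul_one _
      refine degree_le_natDegree.trans_lt ?_
      rw [degree_eq_natDegree hp0] at hdeg
      have h3 : p.natDegree < r := by exact_mod_cast hdeg
      exact_mod_cast h1.trans_lt h3
  have hq0 : q.eval 0 = 0 := by
    rw [hqev, mul_zero]
    have h1 := hev 0
    rw [Nat.cast_zero] at h1
    rw [h1, Finset.sum_eq_single 0]
    · rw [Nat.choose_self, pow_zero, act_one, hF0, mul_zero]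
    · intro l _ hl
      rw [Nat.choose_eq_zero_of_lt (Nat.pos_of_ne_zero hl), Nat.cast_zero, zero_mul]
    · intro h
      exact absurd (Finset.mem_range.mpr (by omega)) h
  have hqE : ∀ j < r, |q.eval (j : ℝ)| ≤ E + 3 ^ (r * m) * e := by
    intro j hj
    rw [hqev]
    have h1 := hclose (j * m) (Nat.mul_le_mul_right _ hj.le)
    have h2 := hE j hj
    have e1 : ((j * m : ℕ) : ℝ) = m * j := by push_cast; ring
    rw [e1] at h1
    have h3 : p.eval (m * (j : ℝ)) = F (j * m) - (F (j * m) - p.eval (m * (j : ℝ))) := by ring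
    rw [h3]
    exact (abs_sub _ _).trans (add_le_add h2 h1)
  have hu0 : (0 : ℝ) ≤ (u : ℝ) / m := by positivity
  have hu1 : (u : ℝ) / m ≤ 1 := by
    rw [div_le_one hm0]
    exact_mod_cast hu
  have h1 := hp q hqdeg hq0 _ hqE _ hu0 hu1
  rw [hqev] at h1
  have e1 : (m : ℝ) * (u / m) = u := by field_simp
  rw [e1] at h1
  have h2 := hclose u (hu.trans (Nat.le_mul_of_pos_left m (by omega)))
  have e2 : F u = p.eval (u : ℝ) + (F u - p.eval (u : ℝ)) := by ring
  rw [e2]
  exact (abs_add_le _ _).trans (add_le_add h1 h2)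

end Pool.Agent.R846.UL
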