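import Pool.Agent.R846.UL.MainI
import Pool.Agent.Y743.PR.Alg

/-! # Almost no bounded run of ordinates satisfies a polynomial recurrence -/

set_option autoImplicit false

open Filter Topology MeasureTheory Set

namespace Pool.Agent.R846.UL

open SG (ord NZ)
open Pool.Agent.Y743.LR
open Pool.Agent.Y743.PR (grad lead nmon near_diag euler)

/-- the gradient of the leading form at `(1, …, 1)` attains its maximum -/
lemma grad_max {k : ℕ} (d : ℕ) (P : MvPolynomial (Fin k) ℝ) (i : Fin k) :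
    ∃ i₀ : Fin k, |grad d P i| ≤ |grad d P i₀| ∧ ∀ j, |grad d P j| ≤ |grad d P i₀| := by
  obtain ⟨i₀, _, h⟩ := Finset.exists_max_image Finset.univ (fun j => |grad d P j|)
    ⟨i, Finset.mem_univ i⟩
  exact ⟨i₀, h i (Finset.mem_univ i), fun j => h j (Finset.mem_univ j)⟩

/-- **almost no bounded run of ordinates satisfies a polynomial recurrence** -/
theorem poly_mainI (k : ℕ) {η : ℝ} (hη : 0 < η) : ∃ (ε : ℝ) (L : ℕ), 0 < ε ∧
    ∀ (d : ℕ), 1 ≤ d → ∀ θ : ℝ, θ < 1 → ∃ N₀ : ℕ, ∀ N : ℕ, N₀ ≤ N →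
    cn N {n | ∃ P : MvPolynomial (Fin k) ℝ, P.totalDegree ≤ d ∧ ∃ i : Fin k, grad d P i ≠ 0 ∧
      (∀ s, |MvPolynomial.coeff s P| ≤ |grad d P i| * ord n ^ θ) ∧
      ∃ b : ℝ, ∀ m : ℕ, n ≤ m → m ≤ n + L →
        |MvPolynomial.eval (fun j : Fin k => ord (m + j)) P - b| <
          ε * |grad d P i| * ord n ^ (d - 1) / Real.log (ord n)} ≤ η * N := by
  classical
  have hpi := Real.pi_gt_three
  obtain ⟨ε, L, N1, hε, h1⟩ := local_mainI k (by positivity : 0 < η / 4)
  -- boundedness of the runs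
  set R : ℕ := L + k with hR
  obtain ⟨Y, hY, hY1⟩ := tightI (by positivity : 0 < η / (4 * (R + 1 : ℕ)))
  refine ⟨ε / 2, L, by positivity, fun d hd θ hθ => ?_⟩
  set G : ℝ := R * Y with hG
  have hG0 : 0 ≤ G := by positivity
  -- large ordinates
  have hbig : ∀ᶠ x : ℝ in atTop, 2 * Real.pi * Real.exp (2 * Real.pi) ≤ x ∧ d * G ≤ x ∧
      (nmon k d * (3 * d ^ 2 * (1 + G) ^ 2)) * x ^ θ * Real.log x ≤ ε / 2 * x := by
    have hθ' : 0 < (1 - θ) / 2 := by linarith
    have h2 := (isLittleO_log_rpow_atTop (by linarith : 0 < 1 - θ)).bound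
      (c := ε / 2 / (nmon k d * (3 * d ^ 2 * (1 + G) ^ 2) + 1)) (by positivity)
    filter_upwards [eventually_ge_atTop (2 * Real.pi * Real.exp (2 * Real.pi)),
      eventually_ge_atTop (d * G), h2, eventually_gt_atTop 1] with x a1 a2 a3 a4
    refine ⟨a1, a2, ?_⟩
    have hx0 : 0 < x := by linarith
    rw [Real.norm_of_nonneg (Real.log_nonneg a4.le), Real.norm_of_nonneg (by positivity)] at a3
    set Q : ℝ := nmon k d * (3 * d ^ 2 * (1 + G) ^ 2) with hQ
    have hQ0 : 0 ≤ Q := by positivity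
    calc Q * x ^ θ * Real.log x ≤ (Q + 1) * x ^ θ * (ε / 2 / (Q + 1) * x ^ (1 - θ)) := by
          have : 0 ≤ Real.log x := Real.log_nonneg a4.le
          gcongr
          linarith
      _ = ε / 2 * (x ^ θ * x ^ (1 - θ)) := by field_simp
      _ = ε / 2 * x := by
          rw [← Real.rpow_add hx0]
          norm_num
  obtain ⟨n1, hn1⟩ := (ord_tendsto.eventually hbig).exists_forall_of_atTop
  obtain ⟨N2, hN2⟩ := exists_nat_ge (4 * (n1 + 1 : ℕ) / η)
  have ev5 : ∀ j ∈ Finset.range (R + 1), ∀ᶠ N : ℕ in atTop,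
      cn N {n | Y ≤ |dif yy (n + j)|} ≤ η / (4 * (R + 1 : ℕ)) * N := fun j _ => hY1 j
  rw [← Filter.eventually_all_finset] at ev5
  obtain ⟨N3, hN3⟩ := ev5.exists_forall_of_atTop
  refine ⟨max (max N1 N2) N3, fun N hN => ?_⟩
  have hNN1 : N1 ≤ N := ((le_max_left _ _).trans (le_max_left _ _)).trans hN
  have hNN2 : N2 ≤ N := ((le_max_right _ _).trans (le_max_left _ _)).trans hN
  have h5 := hN3 N ((le_max_right _ _).trans hN)
  have hN0 : (0 : ℝ) ≤ N := Nat.cast_nonneg N
  set B5 : Set ℕ := ⋃ j ∈ Finset.range (R + 1), {n | Y ≤ |dif yy (n + j)|} with hB5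
  have d5 : cn N B5 ≤ η / 4 * N := by
    refine (cn_biUnion N _ _).trans ((Finset.sum_le_sum h5).trans ?_)
    rw [Finset.sum_const, Finset.card_range, nsmul_eq_mul]
    apply le_of_eq
    push_cast
    field_simp
  have d4 : cn N {n | n < n1 + 1} ≤ η / 4 * N := by
    refine (cn_lt N (n1 + 1)).trans ?_
    have h7 : 4 * (n1 + 1 : ℕ) / η ≤ (N : ℝ) := hN2.trans (by exact_mod_cast hNN2)
    rw [div_le_iff₀ hη] at h7
    linarith
  have d1 := h1 N hNN1
  refine (cn_mono (F := (BadN k ε L ∪ B5) ∪ {n | n < n1 + 1}) fun n hn hnN hnb => ?_).trans ?_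
  swap
  · refine (cn_union N _ _).trans ?_
    have u1 := cn_union N (BadN k ε L) B5
    have : 0 ≤ η * N := by positivity
    linarith
  by_contra hcon
  simp only [mem_union, not_or] at hcon
  obtain ⟨⟨c1, c2⟩, c3⟩ := hcon
  have c3 : n1 + 1 ≤ n := not_lt.mp c3
  apply c1
  obtain ⟨P, hPd, i, hi0, hcoe, b, hrel⟩ := hnb
  obtain ⟨i₀, hii, hmax⟩ := grad_max d P i
  obtain ⟨hx1, hx2, hx3⟩ := hn1 n (by omega)
  set x : ℝ := ord n with hx
  set A : ℝ := |grad d P i| with hA
  have hA0 : 0 < A := abs_pos.mpr hi0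
  have hexp : 1 ≤ Real.exp (2 * Real.pi) := Real.one_le_exp (by positivity)
  have hx6 : 6 ≤ x := by nlinarith
  have hxpos : 0 < x := by linarith
  have hL : 0 < Real.log x := Real.log_pos (by linarith)
  -- gaps on the run
  have s5 : ∀ j ≤ R, |dif yy (n + j)| ≤ Y := by
    intro j hj
    by_contra hcon
    push Not at hcon
    apply c2
    simp only [hB5, mem_iUnion]
    exact ⟨j, Finset.mem_range.mpr (by omega), hcon.le⟩
  have hlam : ∀ m, n ≤ m → 1 ≤ lam m := by
    intro m hm
    have h1 : ord n ≤ ord m := SG.ord_mono hn hm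
    unfold lam
    rw [le_div_iff₀ (by positivity), one_mul, Real.le_log_iff_exp_le (by
      have : 0 < ord m := hxpos.trans_le h1
      positivity), le_div_iff₀ (by positivity)]
    linarith
  have hgap : ∀ j ≤ R, ord (n + j + 1) - ord (n + j) ≤ Y := by
    intro j hj
    have h1 := s5 j hj
    rw [dif_lam] at h1
    have h2 := hlam (n + j) (by omega)
    have h3 : 0 ≤ ord (n + j + 1) - ord (n + j) := by
      have := ord_step (n := n + j) (by omega)
      linarith
    have h4 := (abs_le.mp h1).2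
    nlinarith
  have hspan : ∀ j ≤ R, ord (n + j) - ord n ≤ j * Y := by
    intro j
    induction j with
    | zero => intro _; simp
    | succ j ih =>
      intro hj
      have h1 := ih (by omega)
      have h2 := hgap j (by omega)
      have e1 : n + (j + 1) = n + j + 1 := by ring
      rw [e1]
      push_cast
      linarith
  refine ⟨fun j => grad d P j / A, ⟨i, ?_⟩,
    (x * ∑ j, grad d P j - x * lead d P - lead (d - 1) P + b / x ^ (d - 1)) / A,
    fun m hm1 hm2 => ?_⟩
  · rw [abs_div, abs_of_pos hA0, ← hA, div_self hA0.ne']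
  -- the expansion at `x`
  set g : Fin k → ℝ := fun j => ord (m + j) - x with hg
  have hg0 : ∀ j, 0 ≤ g j := fun j => by
    have := SG.ord_mono hn (by omega : n ≤ m + j)
    rw [hg]
    dsimp only
    linarith
  have hgG : ∀ j, g j ≤ G := fun j => by
    obtain ⟨q, hq⟩ := Nat.exists_eq_add_of_le (by omega : n ≤ m + (j : ℕ))
    have hqR : q ≤ R := by have := j.2; omega
    have h6 := hspan q hqR
    rw [hg]
    dsimp only
    rw [hq]
    refine h6.trans ?_
    rw [hG]
    apply mul_le_mul_of_nonneg_right _ hY.le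
    exact_mod_cast hqR
  have hnear := near_diag hd hPd g hcoe (by linarith : 1 ≤ x) hG0 hg0 hgG hx2
  have e1 : (fun j => x + g j) = fun j : Fin k => ord (m + j) := by
    funext j
    rw [hg]
    ring
  rw [e1] at hnear
  have hd1 : 0 < x ^ (d - 1) := pow_pos hxpos _
  set V : ℝ := MvPolynomial.eval (fun j : Fin k => ord (m + j)) P with hV
  have h6 := hrel m hm1 hm2
  rw [← hV] at h6
  set Z : ℝ := x * lead d P + ∑ j, grad d P j * g j + lead (d - 1) P with hZ
  have e2 : ∑ j, grad d P j / A * ord (m + j) -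
      (x * ∑ j, grad d P j - x * lead d P - lead (d - 1) P + b / x ^ (d - 1)) / A =
      (Z - b / x ^ (d - 1)) / A := by
    have e3 : ∑ j, grad d P j / A * ord (m + j) = (∑ j, grad d P j * ord (m + j)) / A := by
      rw [Finset.sum_div]
      refine Finset.sum_congr rfl fun j _ => ?_
      ring
    have e4 : ∑ j, grad d P j * g j = ∑ j, grad d P j * ord (m + j) - x * ∑ j, grad d P j := by
      rw [Finset.mul_sum, ← Finset.sum_sub_distrib]
      refine Finset.sum_congr rfl fun j _ => ?_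
      rw [hg]
      ring
    rw [e3, ← sub_div, hZ, e4]
    congr 1
    ring
  rw [e2, abs_div, abs_of_pos hA0, div_lt_iff₀ hA0]
  -- the error
  have h7 : |V - x ^ (d - 1) * Z| ≤ x ^ (d - 1) * A * (ε / 2) / Real.log x := by
    rw [le_div_iff₀ hL]
    have h8 : |V - x ^ (d - 1) * Z| * Real.log x * x ≤ x ^ (d - 1) * A * (ε / 2) * x := by
      calc |V - x ^ (d - 1) * Z| * Real.log x * x = (|V - x ^ (d - 1) * Z| * x) * Real.log x := by
            ring
        _ ≤ (nmon k d * (A * x ^ θ) * (x ^ (d - 1) * (3 * d ^ 2 * (1 + G) ^ 2))) *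
            Real.log x := mul_le_mul_of_nonneg_right hnear hL.le
        _ = x ^ (d - 1) * A *
            ((nmon k d * (3 * d ^ 2 * (1 + G) ^ 2)) * x ^ θ * Real.log x) := by ring
        _ ≤ x ^ (d - 1) * A * (ε / 2 * x) := mul_le_mul_of_nonneg_left hx3 (by positivity)
        _ = _ := by ring
    exact le_of_mul_le_mul_right h8 hxpos
  have h9 : x ^ (d - 1) * |Z - b / x ^ (d - 1)| < x ^ (d - 1) * (ε / Real.log x * A) := by
    have e3 : x ^ (d - 1) * (Z - b / x ^ (d - 1)) = (V - b) - (V - x ^ (d - 1) * Z) := by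
      field_simp
      ring
    rw [← abs_of_pos hd1, ← abs_mul, abs_of_pos hd1, e3]
    refine (abs_sub _ _).trans_lt ?_
    have e4 : x ^ (d - 1) * (ε / Real.log x * A) =
        ε / 2 * A * x ^ (d - 1) / Real.log x + x ^ (d - 1) * A * (ε / 2) / Real.log x := by
      ring
    rw [e4]
    exact add_lt_add_of_lt_of_le h6 h7
  exact lt_of_mul_lt_mul_left h9 hd1.le

end Pool.Agent.R846.UL
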