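import Pool.Agent.Y743.LR.NT5
import Pool.Agent.Y743.CL.St

/-! # Tightness of the gaps between the ordinates, without any hypothesis -/

set_option autoImplicit false

open Filter Topology MeasureTheory Set Polynomial

namespace Pool.Agent.R846.UL

open SG (ord NZ)
open Pool.Agent.Y743.LR

/-- translating a set of heights, to the left -/
lemma dn_shift {T : ℕ → ℝ} (hT : ∀ i, 0 < T i) (i : ℕ) (E : Set ℝ) {h : ℝ} (hh : 0 ≤ h) :
    dn T i {t | t + h ∈ E} ≤ dn T i E + h / T i := by
  have hTi := hT i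
  unfold dn
  rw [← add_div]
  apply div_le_div_of_nonneg_right _ hTi.le
  have e1 : {t : ℝ | t + h ∈ E} ∩ Icc (T i) (2 * T i) =
      (fun t => t + h) ⁻¹' (E ∩ Icc (T i + h) (2 * T i + h)) := by
    ext t
    simp only [mem_inter_iff, mem_ofPred_eq, mem_Icc, mem_preimage]
    constructor
    · rintro ⟨a, b, c⟩
      exact ⟨a, by linarith, by linarith⟩
    · rintro ⟨a, b, c⟩
      exact ⟨a, by linarith, by linarith⟩
  rw [e1, measure_preimage_add_right]
  have h1 : volume (E ∩ Icc (T i + h) (2 * T i + h)) ≤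
      volume (E ∩ Icc (T i) (2 * T i)) + ENNReal.ofReal h := by
    calc volume (E ∩ Icc (T i + h) (2 * T i + h)) ≤
        volume (E ∩ Icc (T i) (2 * T i) ∪ Icc (2 * T i) (2 * T i + h)) := by
          apply measure_mono
          rintro t ⟨a, b, c⟩
          rcases le_total t (2 * T i) with h2 | h2
          · exact Or.inl ⟨a, by linarith, h2⟩
          · exact Or.inr ⟨h2, c⟩
      _ ≤ volume (E ∩ Icc (T i) (2 * T i)) + volume (Icc (2 * T i) (2 * T i + h)) :=
          measure_union_le _ _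
      _ = _ := by rw [Real.volume_Icc]; congr 2; ring
  have h2 := ENNReal.toReal_mono (ENNReal.add_ne_top.2 ⟨dn_fin T i E, ENNReal.ofReal_ne_top⟩) h1
  rw [ENNReal.toReal_add (dn_fin T i E) ENNReal.ofReal_ne_top, ENNReal.toReal_ofReal hh] at h2
  exact h2

/-- translating a set of heights, to the right -/
lemma dn_shift' {T : ℕ → ℝ} (hT : ∀ i, 0 < T i) (i : ℕ) (E : Set ℝ) {h : ℝ} (hh : 0 ≤ h) :
    dn T i {t | t - h ∈ E} ≤ dn T i E + h / T i := by
  have hTi := hT i
  unfold dn
  rw [← add_div]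
  apply div_le_div_of_nonneg_right _ hTi.le
  have e1 : {t : ℝ | t - h ∈ E} ∩ Icc (T i) (2 * T i) =
      (fun t => t + (-h)) ⁻¹' (E ∩ Icc (T i - h) (2 * T i - h)) := by
    ext t
    simp only [mem_inter_iff, mem_ofPred_eq, mem_Icc, mem_preimage]
    constructor
    · rintro ⟨a, b, c⟩
      exact ⟨by rwa [← sub_eq_add_neg], by linarith, by linarith⟩
    · rintro ⟨a, b, c⟩
      exact ⟨by rwa [sub_eq_add_neg], by linarith, by linarith⟩
  rw [e1, measure_preimage_add_right]
  have h1 : volume (E ∩ Icc (T i - h) (2 * T i - h)) ≤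
      volume (E ∩ Icc (T i) (2 * T i)) + ENNReal.ofReal h := by
    calc volume (E ∩ Icc (T i - h) (2 * T i - h)) ≤
        volume (E ∩ Icc (T i) (2 * T i) ∪ Icc (T i - h) (T i)) := by
          apply measure_mono
          rintro t ⟨a, b, c⟩
          rcases le_total (T i) t with h2 | h2
          · exact Or.inl ⟨a, h2, by linarith⟩
          · exact Or.inr ⟨b, h2⟩
      _ ≤ volume (E ∩ Icc (T i) (2 * T i)) + volume (Icc (T i - h) (T i)) :=
          measure_union_le _ _
      _ = _ := by rw [Real.volume_Icc]; congr 2; ring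
  have h2 := ENNReal.toReal_mono (ENNReal.add_ne_top.2 ⟨dn_fin T i E, ENNReal.ofReal_ne_top⟩) h1
  rw [ENNReal.toReal_add (dn_fin T i E) ENNReal.ofReal_ne_top, ENNReal.toReal_ofReal hh] at h2
  exact h2

/-- the variance of the counts, upper bound, along a sequence of heights -/
lemma var_seq {T : ℕ → ℝ} (hTt : Tendsto T atTop atTop) (hT10 : ∀ i, 10 ≤ T i) :
    ∃ C : ℝ, 0 < C ∧ ∀ a : ℝ, 1 ≤ a → ∀ᶠ i in atTop,
      ∫ t in Icc (T i) (2 * T i), ((NZ (t + hh T i a) : ℝ) - NZ t - a) ^ 2 ≤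
        (C + Real.log (1 + a)) * T i := by
  obtain ⟨C, T0, hC, hT0, hv⟩ := Pool.Agent.TH850.UV.nv2 1 le_rfl
  refine ⟨C, hC, fun a ha => ?_⟩
  filter_upwards [hTt.eventually_ge_atTop T0,
    (Real.tendsto_log_atTop.comp hTt).eventually_ge_atTop (a * Real.log a)] with i h2 h3
  have h3' : a * Real.log a ≤ 1 * Real.log (T i) := by rw [one_mul]; exact h3
  obtain ⟨_, h4⟩ := hv (T i) h2 a (by linarith) h3'
  have hTi : 10 ≤ T i := hT10 i
  have hh0 := hh_nonneg hT10 i (by linarith : 0 ≤ a)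
  have e1 : ∫ t in (T i)..(2 * T i),
      ((Pool.Agent.TH850.UV.cnt t (2 * Real.pi * a / Real.log (T i)) : ℝ) - a) ^ 2 =
      ∫ t in Icc (T i) (2 * T i), ((NZ (t + hh T i a) : ℝ) - NZ t - a) ^ 2 := by
    rw [integral_Icc_eq_integral_Ioc, ← intervalIntegral.integral_of_le (by linarith)]
    refine intervalIntegral.integral_congr fun t ht => ?_
    rw [uIcc_of_le (by linarith)] at ht
    show ((Pool.Agent.TH850.UV.cnt t (hh T i a) : ℝ) - a) ^ 2 = _
    rw [cnt_NZ (by linarith [ht.1]) hh0]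
  rw [e1] at h4
  have h5 := (abs_le.mp h4).2
  have h6 : T i / Real.pi ^ 2 * Real.log (1 + a) ≤ T i * Real.log (1 + a) := by
    apply mul_le_mul_of_nonneg_right _ (Real.log_nonneg (by linarith))
    apply div_le_self (by linarith)
    nlinarith [Real.pi_gt_three]
  linarith

lemma hh_div {T : ℕ → ℝ} (hTt : Tendsto T atTop atTop) (hT10 : ∀ i, 10 ≤ T i) (a : ℝ) {δ : ℝ}
    (hδ : 0 < δ) : ∀ᶠ i in atTop, hh T i a / T i ≤ δ := by
  have h1 : ∀ᶠ i in atTop, 2 * Real.pi * |a| / δ ≤ T i := hTt.eventually_ge_atTop _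
  have h2 : ∀ᶠ i in atTop, 1 ≤ Real.log (T i) :=
    (Real.tendsto_log_atTop.comp hTt).eventually_ge_atTop _
  filter_upwards [h1, h2] with i h1 h2
  have hpi := Real.pi_pos
  have hTi : 0 < T i := by linarith [hT10 i]
  unfold hh
  rw [div_le_iff₀ hTi, div_le_iff₀ (by linarith)]
  rw [div_le_iff₀ hδ] at h1
  have h3 : 2 * Real.pi * a ≤ 2 * Real.pi * |a| := by
    have := le_abs_self a
    have : 0 < 2 * Real.pi := by positivity
    nlinarith [le_abs_self a]
  have h4 : δ * T i * 1 ≤ δ * T i * Real.log (T i) := by gcongr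
  linarith

lemma aux_lim (C : ℝ) {δ : ℝ} (hδ : 0 < δ) : ∃ a : ℝ, 1 ≤ a ∧ (C + Real.log (1 + a)) / a ^ 2 ≤ δ := by
  have e1 : Tendsto (fun a : ℝ => (C + Real.log (1 + a)) / a ^ 2) atTop (𝓝 0) := by
    have e2 : Tendsto (fun a : ℝ => C * (1 / a ^ 2) +
        (Real.log (1 + a) / (1 + a) * ((1 + a) / a ^ 2))) atTop (𝓝 (C * 0 + (0 * 0))) := by
      have e3 : Tendsto (fun a : ℝ => 1 / a ^ 2) atTop (𝓝 0) := by
        simp only [one_div]
        exact (tendsto_pow_atTop two_ne_zero).inv_tendsto_atTop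
      have e4 : Tendsto (fun a : ℝ => Real.log (1 + a) / (1 + a)) atTop (𝓝 0) := by
        have := Real.isLittleO_log_id_atTop.tendsto_div_nhds_zero
        exact this.comp (tendsto_atTop_add_const_left _ 1 tendsto_id)
      have e5 : Tendsto (fun a : ℝ => (1 + a) / a ^ 2) atTop (𝓝 0) := by
        have e6 : Tendsto (fun a : ℝ => 1 / a ^ 2 + a⁻¹) atTop (𝓝 (0 + 0)) :=
          e3.add tendsto_inv_atTop_zero
        rw [add_zero] at e6
        refine e6.congr' ?_
        filter_upwards [eventually_gt_atTop 0] with a ha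
        field_simp
      exact (e3.const_mul _).add (e4.mul e5)
    simp only [mul_zero, add_zero] at e2
    refine e2.congr' ?_
    filter_upwards [eventually_gt_atTop 0] with a ha
    field_simp
  obtain ⟨a, h1, h2⟩ := ((eventually_ge_atTop (1 : ℝ)).and (e1.eventually_le_const hδ)).exists
  exact ⟨a, h1, h2⟩

/-- **few heights lie in a long gap** -/
lemma long {T : ℕ → ℝ} (hTt : Tendsto T atTop atTop) (hT10 : ∀ i, 10 ≤ T i)
    (hn1 : ∀ i, 1 ≤ NZ (T i)) {δ : ℝ} (hδ : 0 < δ) : ∃ K : ℝ, 0 < K ∧ ∀ᶠ i in atTop,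
      dn T i {t | K ≤ dif (yv (T i)) (NZ t)} ≤ δ := by
  have hT : ∀ i, 0 < T i := fun i => by linarith [hT10 i]
  obtain ⟨C, hC, hv⟩ := var_seq hTt hT10
  obtain ⟨a, ha1, ha⟩ := aux_lim C (by positivity : (0 : ℝ) < δ / 4)
  have ha0 : 0 < a := by linarith
  have hpi := Real.pi_pos
  refine ⟨2 * a, by linarith, ?_⟩
  filter_upwards [hv a ha1, hh_div hTt hT10 a (by positivity : (0 : ℝ) < δ / 2)] with i h1 h2
  have hh0 := hh_nonneg hT10 i ha0.le
  have hL : 0 < Real.log (T i) := Real.log_pos (by linarith [hT10 i])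
  set h := hh T i a with hh'
  have hha : h * (Real.log (T i) / (2 * Real.pi)) = a := by rw [hh']; unfold hh; field_simp
  set A : Set ℝ := {t | a ≤ |(NZ (t + h) : ℝ) - NZ t - a|} with hA
  have c1 : dn T i A ≤ δ / 4 :=
    (cheb SG.NZ_mono hT i (fun n m => (m : ℝ) - n - a) h ha0 h1).trans ha
  refine (dn_mono hT i (F := A ∪ {t | t - h ∈ A}) fun t ht1 _ ht => ?_).trans ?_
  · have ht : 2 * a ≤ dif (yv (T i)) (NZ t) := ht
    have hn : 1 ≤ NZ t := (hn1 i).trans (SG.NZ_mono ht1)
    have o1 : ord (NZ t) ≤ t := (SG.ord_le_iff hn t).mpr le_rfl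
    rw [dif_yv] at ht
    have h3 : 2 * h ≤ ord (NZ t + 1) - ord (NZ t) := by
      have h4 : 2 * h * (Real.log (T i) / (2 * Real.pi)) ≤
          (ord (NZ t + 1) - ord (NZ t)) * (Real.log (T i) / (2 * Real.pi)) := by
        rw [mul_assoc, hha]; exact ht
      exact le_of_mul_le_mul_right h4 (by positivity)
    rcases lt_or_ge (t + h) (ord (NZ t + 1)) with h4 | h4
    · left
      have h5 : NZ (t + h) ≤ NZ t := by
        by_contra hcon
        push Not at hcon
        have := (SG.ord_le_iff (by omega : 1 ≤ NZ t + 1) (t + h)).mpr hcon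
        linarith
      have h6 : NZ (t + h) = NZ t := le_antisymm h5 (SG.NZ_mono (by linarith))
      show a ≤ |(NZ (t + h) : ℝ) - NZ t - a|
      rw [h6, sub_self, zero_sub, abs_neg, abs_of_pos ha0]
    · right
      have h5 : ord (NZ t) ≤ t - h := by linarith
      have h6 : NZ t ≤ NZ (t - h) := (SG.ord_le_iff hn (t - h)).mp h5
      have h7 : NZ (t - h) = NZ t := le_antisymm (SG.NZ_mono (by linarith)) h6
      show a ≤ |(NZ (t - h + h) : ℝ) - NZ (t - h) - a|
      rw [sub_add_cancel, h7, sub_self, zero_sub, abs_neg, abs_of_pos ha0]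
  · refine (dn_union hT i _ _).trans ?_
    have := dn_shift' hT i A hh0
    linarith

/-- integrals of step functions, from below -/
lemma step_ge (F : ℕ → ℝ) (hF : ∀ n, 0 ≤ F n) {A B : ℝ} (hA : 1 ≤ NZ A) :
    ∑ n ∈ Finset.Ico (NZ A + 1) (NZ B), F n * (ord (n + 1) - ord n) ≤
      ∫ t in Icc A B, F (NZ t) := by
  classical
  have hint : ∀ n ∈ Finset.Ico (NZ A + 1) (NZ B),
      IntegrableOn ((Ico (ord n) (ord (n + 1))).indicator fun _ : ℝ => F n) (Icc A B) := fun n _ =>
    (integrableOn_const (by rw [Real.volume_Icc]; exact ENNReal.ofReal_ne_top)).indicator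
      measurableSet_Ico
  calc ∑ n ∈ Finset.Ico (NZ A + 1) (NZ B), F n * (ord (n + 1) - ord n) =
      ∑ n ∈ Finset.Ico (NZ A + 1) (NZ B), ∫ t in Icc A B,
        (Ico (ord n) (ord (n + 1))).indicator (fun _ : ℝ => F n) t := by
        refine Finset.sum_congr rfl fun n hn => ?_
        rw [Finset.mem_Ico] at hn
        have hn1 : 1 ≤ n := by omega
        have ho := SG.ord_mono hn1 (Nat.le_succ n)
        have o1 : A ≤ ord n := by
          by_contra hcon
          push Not at hcon
          have := (SG.ord_le_iff hn1 A).mp hcon.le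
          omega
        have o2 : ord (n + 1) ≤ B := (SG.ord_le_iff (by omega) B).mpr (by omega)
        rw [integral_indicator measurableSet_Ico, Measure.restrict_restrict measurableSet_Ico,
          setIntegral_const, smul_eq_mul, mul_comm]
        congr 1
        have e : Ico (ord n) (ord (n + 1)) ∩ Icc A B = Ico (ord n) (ord (n + 1)) := by
          apply inter_eq_left.2
          intro t ht
          exact ⟨o1.trans ht.1, ht.2.le.trans o2⟩
        rw [e, Measure.real, Real.volume_Ico, ENNReal.toReal_ofReal]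
        have : ord n ≤ ord (n + 1) := ho
        linarith
    _ = ∫ t in Icc A B, ∑ n ∈ Finset.Ico (NZ A + 1) (NZ B),
        (Ico (ord n) (ord (n + 1))).indicator (fun _ : ℝ => F n) t := (integral_finsetSum _ hint).symm
    _ ≤ _ := by
        refine setIntegral_mono_on (integrable_finsetSum _ hint)
          (step_int SG.NZ_mono (fun n _ => F n) 0 A B) measurableSet_Icc fun t ht => ?_
        have hn1 : 1 ≤ NZ t := hA.trans (SG.NZ_mono ht.1)
        have h1 : ∀ n ∈ Finset.Ico (NZ A + 1) (NZ B), n ≠ NZ t →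
            (Ico (ord n) (ord (n + 1))).indicator (fun _ : ℝ => F n) t = 0 := by
          intro n hn hne
          rw [Finset.mem_Ico] at hn
          apply indicator_of_notMem
          rintro ⟨b1, b2⟩
          have b3 := (SG.ord_le_iff (by omega) t).mp b1
          have b4 : NZ t < n + 1 := by
            by_contra hcon
            push Not at hcon
            have := (SG.ord_le_iff (by omega) t).mpr hcon
            linarith
          omega
        by_cases hm : NZ t ∈ Finset.Ico (NZ A + 1) (NZ B)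
        · rw [Finset.sum_eq_single_of_mem _ hm fun n hn hne => h1 n hn hne]
          apply indicator_le_self' fun _ _ => hF _
        · rw [Finset.sum_eq_zero fun n hn => h1 n hn fun h => hm (h ▸ hn)]
          exact hF _

lemma int_ind {T : ℕ → ℝ} (hT : ∀ i, 0 < T i) (i : ℕ) (P : ℕ → Prop) [DecidablePred P] :
    ∫ t in Icc (T i) (2 * T i), (if P (NZ t) then (1 : ℝ) else 0) =
      dn T i {t | P (NZ t)} * T i := by
  have hTi := hT i
  set E : Set ℝ := {t | P (NZ t)} with hE
  have hEm : MeasurableSet E := step_set (ν := NZ) SG.NZ_mono (fun n _ => P n) 0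
  have e2 : ∀ t, (if P (NZ t) then (1 : ℝ) else 0) = E.indicator (fun _ => (1 : ℝ)) t := by
    intro t
    simp only [Set.indicator, hE, mem_ofPred_eq]
  simp_rw [e2]
  rw [integral_indicator hEm, Measure.restrict_restrict hEm, setIntegral_const, smul_eq_mul,
    mul_one]
  unfold dn Measure.real
  field_simp

/-- sets of indices of density zero are null for the heights -/
lemma index_null' {T : ℕ → ℝ} (hTt : Tendsto T atTop atTop)
    (hT10 : ∀ i, 10 ≤ T i) (hn1 : ∀ i, 1 ≤ NZ (T i))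
    {N : ℕ → ℕ} (hN : ∀ k : ℕ, ∀ᶠ i in atTop, NZ (2 * T i) + k ≤ N i)
    {C4 : ℝ} (hC4 : 0 < C4) (hNC : ∀ᶠ i in atTop, (N i : ℝ) ≤ C4 * (T i * Real.log (T i)))
    {S : ℕ → Set ℕ} {ε : ℕ → ℝ} (hε : Tendsto ε atTop (𝓝 0))
    (hS : ∀ i, ({n : ℕ | 1 ≤ n ∧ n ≤ N i ∧ n ∈ S i}.ncard : ℝ) ≤ ε i * N i) (k : ℕ) {δ : ℝ}
    (hδ : 0 < δ) : ∀ᶠ i in atTop, dn T i {t | NZ t + k ∈ S i} ≤ δ := by
  classical
  have hpi := Real.pi_pos
  have hT : ∀ i, 0 < T i := fun i => by linarith [hT10 i]
  obtain ⟨K, hK0, hlong⟩ := long hTt hT10 hn1 (by positivity : (0 : ℝ) < δ / 2)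
  have hev : ∀ᶠ i in atTop, ε i ≤ δ / (4 * Real.pi * K * C4) :=
    hε.eventually_le_const (by positivity)
  filter_upwards [hlong, hN k, hNC, hev] with i g1 g2 g3 g4
  have hTi : 0 < T i := hT i
  have hL : 0 < Real.log (T i) := Real.log_pos (by linarith [hT10 i])
  set P : ℕ → Prop := fun n => n + k ∈ S i ∧ dif (yv (T i)) n < K with hP
  have h0 : dn T i {t | NZ t + k ∈ S i} ≤
      dn T i {t | P (NZ t)} + dn T i {t | K ≤ dif (yv (T i)) (NZ t)} := by
    refine (dn_mono hT i (F := {t | P (NZ t)} ∪ {t | K ≤ dif (yv (T i)) (NZ t)})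
      fun t _ _ ht => ?_).trans (dn_union hT i _ _)
    rcases lt_or_ge (dif (yv (T i)) (NZ t)) K with h | h
    · exact Or.inl ⟨ht, h⟩
    · exact Or.inr h
  have h1 := step_le (fun n => if P n then (1 : ℝ) else 0) (fun n => by split_ifs <;> norm_num)
    (A := T i) (B := 2 * T i) (hn1 i)
  rw [int_ind hT i P] at h1
  have h2 : ∀ n ∈ Finset.Icc (NZ (T i)) (NZ (2 * T i)),
      (if P n then (1 : ℝ) else 0) * (ord (n + 1) - ord n) ≤
      2 * Real.pi / Real.log (T i) * (K * (if n + k ∈ S i then (1 : ℝ) else 0)) := by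
    intro n hn
    have e3 : ord (n + 1) - ord n = 2 * Real.pi / Real.log (T i) * dif (yv (T i)) n := by
      rw [dif_yv]; field_simp
    rw [e3]
    by_cases h : P n
    · rw [if_pos h, if_pos h.1, one_mul, mul_one]
      exact mul_le_mul_of_nonneg_left h.2.le (by positivity)
    · rw [if_neg h, zero_mul]
      split_ifs <;> positivity
  have h3 := h1.trans (Finset.sum_le_sum h2)
  rw [← Finset.mul_sum, ← Finset.mul_sum] at h3
  have h5 : ∑ n ∈ Finset.Icc (NZ (T i)) (NZ (2 * T i)), (if n + k ∈ S i then (1 : ℝ) else 0) ≤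
      ε i * N i := by
    refine le_trans ?_ (hS i)
    rw [Finset.sum_boole]
    have hfin : {n : ℕ | 1 ≤ n ∧ n ≤ N i ∧ n ∈ S i}.Finite :=
      (Set.finite_Iic (N i)).subset fun n hn => hn.2.1
    have h6 : (((Finset.Icc (NZ (T i)) (NZ (2 * T i))).filter fun n => n + k ∈ S i).map
        (addRightEmbedding k)).card ≤ {n : ℕ | 1 ≤ n ∧ n ≤ N i ∧ n ∈ S i}.ncard := by
      rw [← Set.ncard_coe_finset]
      apply Set.ncard_le_ncard _ hfin
      intro m hm
      rw [Finset.mem_coe, Finset.mem_map] at hm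
      obtain ⟨n, hn, rfl⟩ := hm
      rw [Finset.mem_filter, Finset.mem_Icc] at hn
      have hn1 := hn1 i
      have e5 : addRightEmbedding k n = n + k := rfl
      rw [e5]
      exact ⟨by omega, by omega, hn.2⟩
    rw [Finset.card_map] at h6
    exact_mod_cast h6
  have h6 : dn T i {t | P (NZ t)} * T i ≤ δ / 2 * T i := by
    refine h3.trans ?_
    have e7 : ε i * N i ≤ δ / (4 * Real.pi * K * C4) * (C4 * (T i * Real.log (T i))) := by
      calc ε i * N i ≤ δ / (4 * Real.pi * K * C4) * N i :=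
            mul_le_mul_of_nonneg_right g4 (Nat.cast_nonneg _)
        _ ≤ _ := mul_le_mul_of_nonneg_left g3 (by positivity)
    calc 2 * Real.pi / Real.log (T i) * (K * ∑ n ∈ Finset.Icc (NZ (T i)) (NZ (2 * T i)),
          (if n + k ∈ S i then (1 : ℝ) else 0)) ≤
          2 * Real.pi / Real.log (T i) * (K * (δ / (4 * Real.pi * K * C4) *
            (C4 * (T i * Real.log (T i))))) := by
          apply mul_le_mul_of_nonneg_left _ (by positivity)
          exact mul_le_mul_of_nonneg_left (h5.trans e7) hK0.le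
      _ = δ / 2 * T i := by field_simp; ring
  have h7 := le_of_mul_le_mul_right h6 hTi
  linarith

/-- **the gaps are tight** -/
lemma gap_tight' {T : ℕ → ℝ} (hTt : Tendsto T atTop atTop) (hT10 : ∀ i, 10 ≤ T i)
    (hn1 : ∀ i, 1 ≤ NZ (T i)) : ITight T NZ (fun i => dif (yv (T i))) := by
  classical
  have hpi := Real.pi_pos
  have hT : ∀ i, 0 < T i := fun i => by linarith [hT10 i]
  intro ε hε
  obtain ⟨K, hK0, hlong⟩ := long hTt hT10 hn1 (by positivity : (0 : ℝ) < ε / 4)
  refine ⟨K, hK0, fun k => ?_⟩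
  have hsmall := hh_div hTt hT10 (((k : ℝ) + 2) * K) (by positivity : (0 : ℝ) < ε / 4)
  filter_upwards [hlong, hsmall] with i g1 g2
  have hTi : 0 < T i := hT i
  have hL : 0 < Real.log (T i) := Real.log_pos (by linarith [hT10 i])
  have hn := hn1 i
  set g : ℕ → ℝ := dif (yv (T i)) with hg
  have hgn : ∀ n, ord (n + 1) - ord n = 2 * Real.pi / Real.log (T i) * g n := fun n => by
    rw [hg, dif_yv]; field_simp
  have hg0 : ∀ n, 1 ≤ n → 0 ≤ g n := fun n hn => by
    rw [hg, dif_yv]
    have := ord_step hn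
    exact mul_nonneg (by linarith) (by positivity)
  -- the number of long gaps
  have hcard : (((Finset.Ico (NZ (T i) + 1) (NZ (2 * T i))).filter fun n => K ≤ g n).card : ℝ) *
      (2 * Real.pi / Real.log (T i) * K) ≤ ε / 4 * T i := by
    have h1 := step_ge (fun n => if K ≤ g n then (1 : ℝ) else 0)
      (fun n => by split_ifs <;> norm_num) (A := T i) (B := 2 * T i) hn
    rw [int_ind hT i fun n => K ≤ g n] at h1
    refine le_trans ?_ (h1.trans (mul_le_mul_of_nonneg_right g1 hTi.le))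
    rw [← nsmul_eq_mul, ← Finset.sum_const, Finset.sum_filter]
    refine Finset.sum_le_sum fun n hn' => ?_
    by_cases h : K ≤ g n
    · rw [if_pos h, if_pos h, one_mul, hgn]
      exact mul_le_mul_of_nonneg_left h (by positivity)
    · rw [if_neg h, if_neg h, zero_mul]
  set P : ℕ → Prop := fun n => K ≤ g (n + k) ∧ g n < K with hP
  have h0 : dn T i {t | K ≤ |g (NZ t + k)|} ≤
      dn T i {t | P (NZ t)} + dn T i {t | K ≤ g (NZ t)} := by
    refine (dn_mono hT i (F := {t | P (NZ t)} ∪ {t | K ≤ g (NZ t)})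
      fun t ht1 _ ht => ?_).trans (dn_union hT i _ _)
    have ht : K ≤ |g (NZ t + k)| := ht
    have hnt : 1 ≤ NZ t := hn.trans (SG.NZ_mono ht1)
    rw [abs_of_nonneg (hg0 _ (by omega))] at ht
    rcases lt_or_ge (g (NZ t)) K with h | h
    · exact Or.inl ⟨ht, h⟩
    · exact Or.inr h
  have h1 := step_le (fun n => if P n then (1 : ℝ) else 0) (fun n => by split_ifs <;> norm_num)
    (A := T i) (B := 2 * T i) hn
  rw [int_ind hT i P] at h1
  have h2 : ∀ n ∈ Finset.Icc (NZ (T i)) (NZ (2 * T i)),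
      (if P n then (1 : ℝ) else 0) * (ord (n + 1) - ord n) ≤
      (2 * Real.pi / Real.log (T i) * K) * (if K ≤ g (n + k) then (1 : ℝ) else 0) := by
    intro n _
    rw [hgn]
    by_cases h : P n
    · rw [if_pos h, if_pos h.1, one_mul, mul_one]
      exact mul_le_mul_of_nonneg_left h.2.le (by positivity)
    · rw [if_neg h, zero_mul]
      split_ifs <;> positivity
  have h3 := h1.trans (Finset.sum_le_sum h2)
  rw [← Finset.mul_sum, Finset.sum_boole] at h3
  have h4 : (((Finset.Icc (NZ (T i)) (NZ (2 * T i))).filter fun n => K ≤ g (n + k)).card : ℝ) ≤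
      ((Finset.Ico (NZ (T i) + 1) (NZ (2 * T i))).filter fun n => K ≤ g n).card + (k + 2) := by
    have h5 : ((Finset.Icc (NZ (T i)) (NZ (2 * T i))).filter fun n => K ≤ g (n + k)).card ≤
        (((Finset.Ico (NZ (T i) + 1) (NZ (2 * T i))).filter fun n => K ≤ g n) ∪
          ({NZ (T i)} ∪ Finset.Icc (NZ (2 * T i)) (NZ (2 * T i) + k))).card := by
      rw [← Finset.card_map (addRightEmbedding k)]
      apply Finset.card_le_card
      intro m hm
      rw [Finset.mem_map] at hm
      obtain ⟨n, hn2, rfl⟩ := hm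
      have e5 : addRightEmbedding k n = n + k := rfl
      rw [e5]
      simp only [Finset.mem_filter, Finset.mem_Icc] at hn2
      simp only [Finset.mem_union, Finset.mem_filter, Finset.mem_Ico, Finset.mem_singleton,
        Finset.mem_Icc]
      obtain ⟨⟨b1, b2⟩, b3⟩ := hn2
      by_cases c1 : n + k = NZ (T i)
      · exact Or.inr (Or.inl c1)
      · by_cases c2 : n + k < NZ (2 * T i)
        · exact Or.inl ⟨⟨by omega, c2⟩, b3⟩
        · exact Or.inr (Or.inr ⟨by omega, by omega⟩)
    have h6 := h5.trans (Finset.card_union_le _ _)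
    have h7 := Finset.card_union_le ({NZ (T i)} : Finset ℕ)
      (Finset.Icc (NZ (2 * T i)) (NZ (2 * T i) + k))
    rw [Finset.card_singleton, Nat.card_Icc] at h7
    have h8 : ((Finset.Icc (NZ (T i)) (NZ (2 * T i))).filter fun n => K ≤ g (n + k)).card ≤
        ((Finset.Ico (NZ (T i) + 1) (NZ (2 * T i))).filter fun n => K ≤ g n).card + (k + 2) := by
      omega
    exact_mod_cast h8
  have h5 : (2 * Real.pi / Real.log (T i) * K) *
      (((Finset.Icc (NZ (T i)) (NZ (2 * T i))).filter fun n => K ≤ g (n + k)).card : ℝ) ≤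
      ε / 2 * T i := by
    have h6 : (2 * Real.pi / Real.log (T i) * K) * ((k : ℝ) + 2) ≤ ε / 4 * T i := by
      rw [div_le_iff₀ hTi] at g2
      unfold hh at g2
      calc (2 * Real.pi / Real.log (T i) * K) * ((k : ℝ) + 2) =
          2 * Real.pi * (((k : ℝ) + 2) * K) / Real.log (T i) := by ring
        _ ≤ _ := g2
    have h7 : (2 * Real.pi / Real.log (T i) * K) *
      (((Finset.Icc (NZ (T i)) (NZ (2 * T i))).filter fun n => K ≤ g (n + k)).card : ℝ) ≤
      (2 * Real.pi / Real.log (T i) * K) *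
        (((Finset.Ico (NZ (T i) + 1) (NZ (2 * T i))).filter fun n => K ≤ g n).card + (k + 2)) :=
      mul_le_mul_of_nonneg_left h4 (by positivity)
    linarith
  have h6 : dn T i {t | P (NZ t)} * T i ≤ ε / 2 * T i := h3.trans h5
  have h7 := le_of_mul_le_mul_right h6 hTi
  show dn T i {t | K ≤ |g (NZ t + k)|} ≤ ε
  linarith

end Pool.Agent.R846.UL
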